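import Pool.Agent.J4.H70.CC.VJet

/-!
# Functions on smooth complete intersections
-/

set_option autoImplicit false

namespace Pool.Agent.J4.H70.CC

open MvPolynomial Pool.Agent.W428.MOT
open Pool.Agent.Y229.MS (addyz itr stabK shn)
open Pool.Agent.Y229.RE (xv yv zv emb emb_l emb_r emb_inj emb_ne_y y_inj)
open Pool.Agent.TH216.MF (ratR)

section
variable {K : Type} [Field K] {n κ : ℕ}

/-- `Φ + ∑ y_i l_i` -/
noncomputable def GG (Φ : MvPolynomial (Fin (n + κ)) K) (l : Fin κ → MvPolynomial (Fin (n + κ)) K) :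
    MvPolynomial (Fin (n + (κ + κ))) K :=
  rename emb Φ + ∑ i : Fin κ, X (yv n i) * rename emb (l i)

lemma lin_sum_mul {l : Fin κ → MvPolynomial (Fin (n + κ)) K}
    (hl : ∀ i, constantCoeff (l i) = 0) (q : Fin κ → MvPolynomial (Fin (n + κ)) K)
    (j : Fin κ) : coeff (Finsupp.single (Fin.natAdd n j) 1) (∑ i, q i * l i) =
      ∑ i, constantCoeff (q i) * jacZ l i j := by
  rw [coeff_sum]
  refine Finset.sum_congr rfl fun i _ => ?_
  rw [lin_mul, hl, mul_zero, add_zero]
  rfl

/-- the constant terms of the multipliers -/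
theorem cc_q {l : Fin κ → MvPolynomial (Fin (n + κ)) K}
    (hl : ∀ i, constantCoeff (l i) = 0) (hdet : (jacZ l).det ≠ 0)
    {Φ : MvPolynomial (Fin (n + κ)) K}
    (hΦ : ∀ i : Fin κ, coeff (Finsupp.single (Fin.natAdd n i) 1) Φ = 0)
    {f : MvPolynomial (Fin n) K} {q : Fin κ → MvPolynomial (Fin (n + κ)) K}
    (hf : rename (Fin.castAdd κ) f + ∑ i, q i * l i - Φ ∈ mm K (n + κ) ^ 2) (i : Fin κ) :
    constantCoeff (q i) = 0 := by
  classical
  by_contra hcon
  apply hdet
  refine Matrix.exists_vecMul_eq_zero_iff.1 ⟨fun i => constantCoeff (q i), ?_, ?_⟩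
  · intro h
    exact hcon (congrFun h i)
  · funext j
    have h1 := lin_of_mem hf (Fin.natAdd n j)
    rw [coeff_sub, coeff_add, hΦ, sub_zero, lin_rename, zero_add, lin_sum_mul hl] at h1
    rw [Matrix.vecMul, dotProduct, Pi.zero_apply]
    exact h1

lemma lin_emb (p : MvPolynomial (Fin (n + κ)) K) (j : Fin (n + κ)) :
    coeff (Finsupp.single (emb j) 1) (rename emb p) = coeff (Finsupp.single j 1) p := by
  have h1 := coeff_rename_mapDomain (emb : Fin (n + κ) → Fin (n + (κ + κ))) emb_inj p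
    (Finsupp.single j 1)
  rwa [Finsupp.mapDomain_single] at h1

theorem phi_det {q l : Fin κ → MvPolynomial (Fin (n + κ)) K} (hdet : (jacZ l).det ≠ 0) :
    (linM (aeval (PhiK q l) : MvPolynomial (Fin (n + (κ + κ))) K →ₐ[K] _)).det ≠ 0 := by
  classical
  intro h0
  obtain ⟨u, hu, hMu⟩ := Matrix.exists_mulVec_eq_zero_iff.2 h0
  have hrow : ∀ i, ∑ j, coeff (Finsupp.single j 1) (PhiK q l i) * u j = 0 := by
    intro i
    have h1 := congrFun hMu i
    rw [Matrix.mulVec, dotProduct] at h1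
    simp only [linM, Matrix.of_apply, Pi.zero_apply, aeval_X] at h1
    exact h1
  -- a polynomial in `x`, `z`
  have hemb : ∀ p : MvPolynomial (Fin (n + κ)) K,
      ∑ j, coeff (Finsupp.single j 1) (rename emb p) * u j =
        ∑ j, coeff (Finsupp.single j 1) p * u (emb j) := by
    intro p
    have h1 : ∀ i : Fin κ, coeff (Finsupp.single (yv n i) 1) (rename emb p) = 0 := by
      intro i
      refine coeff_rename_eq_zero _ _ _ fun w hw => ?_
      exfalso
      have h1 := DFunLike.congr_fun hw (yv n i)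
      rw [Finsupp.single_eq_same, Finsupp.mapDomain_of_notMem_range] at h1
      · exact absurd h1 (by norm_num)
      · rintro ⟨i', hi'⟩
        exact emb_ne_y i' i hi'
    rw [Fin.sum_univ_add, Fin.sum_univ_add, Fin.sum_univ_add]
    congr 1
    · refine Finset.sum_congr rfl fun i _ => ?_
      have h2 := lin_emb p (Fin.castAdd κ i)
      rw [emb_l] at h2 ⊢
      rw [← h2]
      rfl
    · have h3 : ∑ i : Fin κ, coeff (Finsupp.single (Fin.natAdd n (Fin.castAdd κ i)) 1)
          (rename emb p) * u (Fin.natAdd n (Fin.castAdd κ i)) = 0 :=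
        Finset.sum_eq_zero fun i _ => by
          rw [show Fin.natAdd n (Fin.castAdd κ i) = yv n i from rfl, h1, zero_mul]
      rw [h3, zero_add]
      refine Finset.sum_congr rfl fun i _ => ?_
      have h2 := lin_emb p (Fin.natAdd n i)
      rw [emb_r] at h2 ⊢
      rw [← h2]
      rfl
  have hX : ∀ (v : Fin (n + (κ + κ))),
      ∑ j, coeff (Finsupp.single j 1) (X v : MvPolynomial (Fin (n + (κ + κ))) K) * u j = u v := by
    intro v
    rw [Finset.sum_eq_single v]
    · rw [lin_X, if_pos rfl, one_mul]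
    · intro j _ hj
      rw [lin_X, if_neg (Ne.symm hj), zero_mul]
    · intro h
      exact absurd (Finset.mem_univ _) h
  have hx : ∀ i : Fin n, u (xv κ i) = 0 := by
    intro i
    have h1 := hrow (xv κ i)
    rwa [PhiK_x, hX] at h1
  have hz : ∀ i : Fin κ, u (zv n i) = 0 := by
    by_contra hcon
    push Not at hcon
    obtain ⟨i0, hi0⟩ := hcon
    apply hdet
    refine Matrix.exists_mulVec_eq_zero_iff.1 ⟨fun i => u (zv n i), ?_, ?_⟩
    · intro h
      exact hi0 (congrFun h i0)
    · funext i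
      rw [Matrix.mulVec, dotProduct]
      simp only [jacZ, Matrix.of_apply, Pi.zero_apply]
      have h1 := hrow (zv n i)
      rw [PhiK_z, hemb, Fin.sum_univ_add] at h1
      simpa only [emb_l, emb_r, hx, mul_zero, Finset.sum_const_zero, zero_add] using h1
  have he : ∀ j, u (emb j) = 0 := by
    intro j
    refine Fin.addCases (fun i => ?_) (fun i => ?_) j
    · rw [emb_l]
      exact hx i
    · rw [emb_r]
      exact hz i
  have hy : ∀ i : Fin κ, u (yv n i) = 0 := by
    intro i
    have h1 := hrow (yv n i)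
    rw [PhiK_y] at h1
    simp only [coeff_add, add_mul, Finset.sum_add_distrib] at h1
    rw [hX, hemb] at h1
    simpa only [he, mul_zero, Finset.sum_const_zero, add_zero] using h1
  apply hu
  funext i
  rw [Pi.zero_apply]
  exact all3K (Q := fun i => u i = 0) hx hy hz i

/-- **The stabilisation of a function on a smooth complete intersection.** -/
theorem rel_stab {l : Fin κ → MvPolynomial (Fin (n + κ)) K}
    (hl : ∀ i, constantCoeff (l i) = 0) (hdet : (jacZ l).det ≠ 0)
    {Φ : MvPolynomial (Fin (n + κ)) K}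
    (hΦ : ∀ i : Fin κ, coeff (Finsupp.single (Fin.natAdd n i) 1) Φ = 0)
    {f : MvPolynomial (Fin n) K} {q : Fin κ → MvPolynomial (Fin (n + κ)) K} {N : ℕ}
    (hN : 1 ≤ N)
    (hf : rename (Fin.castAdd κ) f + ∑ i, q i * l i - Φ ∈ mm K (n + κ) ^ (N + 1)) :
    Rel N (stabK f κ) (GG Φ l) := by
  have hq := cc_q hl hdet hΦ (mm_mono (by omega) hf)
  have hP : ∀ i, (aeval (PhiK q l) : MvPolynomial (Fin (n + (κ + κ))) K →ₐ[K] _) (X i) ∈
      mm K (n + (κ + κ)) := by
    intro i
    rw [aeval_X, mem_mm]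
    refine all3K (Q := fun i => constantCoeff (PhiK q l i) = 0) (fun i => ?_) (fun i => ?_)
      (fun i => ?_) i
    · rw [PhiK_x, constantCoeff_X]
    · rw [PhiK_y, map_add, constantCoeff_X, constantCoeff_rename, hq, add_zero]
    · rw [PhiK_z, constantCoeff_rename, hl]
  obtain ⟨Q, hQ, h1, h2⟩ := two_inv (aeval (PhiK q l)) hP (phi_det hdet) N
  refine ⟨rfl, aeval (PhiK q l), Q, hP, hQ, h1, h2, ?_⟩
  have h3 : aeval (PhiK q l) (stabK f κ) - GG Φ l =
      rename emb (rename (Fin.castAdd κ) f + ∑ i, q i * l i - Φ) := by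
    rw [aeval_stabK, map_sub]
    unfold GG
    ring
  rw [h3]
  exact hom_mm (rename emb) (fun i => by rw [rename_X]; exact X_mm _) hf

/-- **The local motivic zeta function on a smooth complete intersection.** -/
theorem memV [CharZero K] {l : Fin κ → MvPolynomial (Fin (n + κ)) K}
    (hl : ∀ i, constantCoeff (l i) = 0) (hdet : (jacZ l).det ≠ 0)
    {Φ : MvPolynomial (Fin (n + κ)) K} (hΦ0 : constantCoeff Φ = 0)
    (hΦ : ∀ i : Fin κ, coeff (Finsupp.single (Fin.natAdd n i) 1) Φ = 0) (c0 : K) (hc0 : c0 ≠ 0) :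
    fst K * zetaV n Φ l = elD K κ (fst K * zeta (GG Φ l) 0)
      (fst K * zeta (rename (Fin.castAdd 2) (GG Φ l) + C c0 *
        (X (Fin.natAdd _ 0) * X (Fin.natAdd _ 1))) 0) := by
  refine germ_elD (n := n) κ _ _ _ fun N => ?_
  obtain ⟨f, q, hf⟩ := implicit hl hdet Φ (max N 1)
  have hcc : constantCoeff f = 0 := by
    have h1 := (mem_mm _).1 (mem_mm_of _ hf)
    rw [map_sub, map_add, constantCoeff_rename, hΦ0, sub_zero, map_sum] at h1
    rw [← h1]
    symm
    rw [Finset.sum_eq_zero, add_zero]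
    intro i _
    rw [map_mul, hl, mul_zero]
  have h1 : Rel (max N 1) (itr f κ) (GG Φ l) :=
    ((iso0_itr f κ).rel _).trans (rel_stab hl hdet hΦ (le_max_right _ _) hf)
  have h2 := h1.mono (le_max_left N 1)
  refine ⟨f, hcc, fun j hj => coeff_zetaV hl hdet Φ N f q
    (mm_mono (by omega : N + 1 ≤ max N 1 + 1) hf) j hj, h2,
    h2.addyz.trans ((iso0_scale (GG Φ l) c0 hc0).rel _)⟩

end

end Pool.Agent.J4.H70.CC
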