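import Pool.Agent.J4.H70.CC.CIMain

/-!
# Generic functions on smooth complete intersections: the theorem
-/

set_option autoImplicit false
set_option maxHeartbeats 400000

namespace Pool.Agent.J4.H70.CC

open MvPolynomial Pool.Agent.W428.MOT
open Pool.Agent.Y229.MS (exyz)
open Pool.Agent.Y229.RE (ex xv yv zv emb)
open Pool.Agent.W425.ND (spa)
open Pool.Agent.W426.SM (gord IsRay)
open Pool.Agent.W803.SM (gord_le)
open Pool.Agent.TH216.MF (ratR)
open Pool.Agent.Y228.HX (uX ChiY InNP)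
open Pool.Agent.Y229.PS (IsFormalBFunction)

/-- **Functions on smooth complete intersections.** -/
theorem ci {F : Type} [Field F] [Algebra F ℂ] {r n κ : ℕ} (hr : 0 < r)
    (π : Fin r → Fin (κ + 1)) (m : Fin r → Fin (n + κ) → ℕ)
    (hinj : ∀ j j', π j = π j' → m j = m j' → j = j') (hm : ∀ j, m j ≠ 0)
    (H : Fin (κ + 1) → MvPolynomial (Fin (n + κ)) F)
    (hH : ∀ i, ∀ w ∈ (H i).support, NPQ π m i w)
    (hvH : ∀ i, ∀ w ∈ (H i).support, ∀ j, π j = i → ¬ ∀ x, w x = m j x) :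
    ∃ (g : MvPolynomial (Fin r) F) (S : Finset (ℤ × ℤ)), g ≠ 0 ∧ (∀ p ∈ S, 0 < p.2) ∧
      ∀ (k : Type) [Field k] [Algebra F k] [Algebra k ℂ] [IsScalarTower F k ℂ] (a : Fin r → k),
        aeval a g ≠ 0 → (jacZ fun i : Fin κ => tupK π m a H i.succ).det ≠ 0 →
        (∀ i : Fin κ, coeff (Finsupp.single (Fin.natAdd n i) 1) (tupK π m a H 0) = 0) →
        StrongV S (tupK π m a H 0) fun i => tupK π m a H i.succ := by
  classical
  obtain ⟨g, S, hg, hS, hmain⟩ := stablyV hr (ex π m) (Pool.Agent.Y229.RE.ex_inj π m hinj)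
    (Pool.Agent.Y229.RE.ex_ne_zero π m hm) (hGK H) (np_hGK π m H hH) (vh_hGK π m H hvH)
  refine ⟨g, S, hg, fun p hp => (hS p hp).1, fun k _ _ _ _ a ha hdet hΦ => ?_⟩
  obtain ⟨h1, h2⟩ := hmain k a ha (tupK π m a H 0) (fun i => tupK π m a H i.succ)
    (fun i => tupK_zero π m hm a H hH i.succ) hdet (tupK_zero π m hm a H hH 0) hΦ
    (spa_tupK π m a H).symm
  refine ⟨fun f hf0 hf p hp => ⟨?_, h1 f hf0 hf p hp⟩, h2⟩
  obtain ⟨q, hq⟩ := hf
  have hpos : ∀ (u : Fin (n + (κ + κ)) → ℕ) (L : ℕ), 0 < L →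
      (∀ j, L ≤ ∑ i, u i * ex π m j i) → κ * L < ∑ i, u i := by
    intro u L hL hu
    refine ray_posV (fun i => ?_) (jacZ_map (algebraMap k ℂ) hdet) hf0 hq u L hL (fun w hw => ?_)
      fun i w hw => ?_
    · rw [constantCoeff_map, tupK_zero π m hm a H hH i.succ, map_zero]
    · have h3 : coeff w (tupK π m a H 0) ≠ 0 := by
        intro h0
        apply hw
        rw [coeff_map, h0, map_zero]
      have h4 := ord_tupK π m a H hH u L hu 0 w h3
      rwa [YY_zero, add_zero] at h4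
    · have h3 : coeff w (tupK π m a H i.succ) ≠ 0 := by
        intro h0
        apply hw
        rw [coeff_map, h0, map_zero]
      have h4 := ord_tupK π m a H hH u L hu i.succ w h3
      rwa [YY_succ] at h4
  rcases (hS p hp).2 with rfl | ⟨u, hu, hg, rfl⟩ | ⟨u, hu, hg, rfl⟩
  · norm_num
  · have h3 := hpos u (gord (ex π m) u) hg fun j => gord_le _ _ j
    show -((∑ i, u i : ℕ) : ℤ) + κ * (gord (ex π m) u : ℤ) < 0
    have h4 : ((κ * gord (ex π m) u : ℕ) : ℤ) < ((∑ i, u i : ℕ) : ℤ) := by exact_mod_cast h3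
    push_cast at h4 ⊢
    linarith
  · set L := gord (exyz (ex π m)) u with hL
    have hle : ∀ j, L ≤ ∑ i, u i * exyz (ex π m) j i := fun j => gord_le _ _ j
    have h3 := hpos (fun i => u (Fin.castAdd 2 i)) L hg (by
      intro j
      have h2 := hle j.succ
      rw [Fin.sum_univ_add] at h2
      simpa [exyz, Fin.cons_succ, Fin.append_left, Fin.append_right] using h2)
    have h4 : L ≤ ∑ i : Fin 2, u (Fin.natAdd (n + (κ + κ)) i) := by
      have h2 := hle 0
      rw [Fin.sum_univ_add] at h2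
      simpa [exyz, Fin.cons_zero, Fin.append_left, Fin.append_right] using h2
    have h5 : ∑ i, u i = ∑ i : Fin (n + (κ + κ)), u (Fin.castAdd 2 i) +
        ∑ i : Fin 2, u (Fin.natAdd (n + (κ + κ)) i) := Fin.sum_univ_add u
    have h6 : (κ + 1) * L < ∑ i, u i := by
      rw [h5, add_mul, one_mul]
      omega
    show -((∑ i, u i : ℕ) : ℤ) + ((κ + 1 : ℕ) : ℤ) * (L : ℤ) < 0
    have h7 : (((κ + 1) * L : ℕ) : ℤ) < ((∑ i, u i : ℕ) : ℤ) := by exact_mod_cast h6
    push_cast at h7 ⊢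
    linarith

end Pool.Agent.J4.H70.CC
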