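import Pool.Agent.J4.H70.CC.Neg

/-!
# Generic functions on smooth complete intersections
-/

set_option autoImplicit false
set_option maxHeartbeats 400000

namespace Pool.Agent.J4.H70.CC

open MvPolynomial Pool.Agent.W428.MOT
open Pool.Agent.Y229.MS (addyz itr stabK exyz shn map_stabK map_spa)
open Pool.Agent.Y229.RE (ex xv yv zv emb emb_l emb_r emb_inj emb_ne_y y_inj)
open Pool.Agent.H628R4.TP (IsLocalBFunction)
open Pool.Agent.W425.ND (spa)
open Pool.Agent.W426.SM (gord IsRay)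
open Pool.Agent.W803.SM (gord_le)
open Pool.Agent.TH216.MF (ratR)
open Pool.Agent.Y228.HX (uX ChiY InNP)
open Pool.Agent.Y229.PS (IsFormalBFunction)

section
variable {n κ : ℕ}

theorem GG_map {K L : Type} [Field K] [Field L] (g : K →+* L) (Φ : MvPolynomial (Fin (n + κ)) K)
    (l : Fin κ → MvPolynomial (Fin (n + κ)) K) :
    GG (MvPolynomial.map g Φ) (fun i => MvPolynomial.map g (l i)) =
      MvPolynomial.map g (GG Φ l) := by
  unfold GG
  simp only [map_add, map_sum, map_mul, map_X, map_rename]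

theorem jacZ_map {K L : Type} [Field K] [Field L] (g : K →+* L)
    {l : Fin κ → MvPolynomial (Fin (n + κ)) K} (hdet : (jacZ l).det ≠ 0) :
    (jacZ fun i => MvPolynomial.map g (l i)).det ≠ 0 := by
  have h1 : (jacZ fun i => MvPolynomial.map g (l i)) = (jacZ l).map g := by
    ext i j
    simp only [jacZ, Matrix.of_apply, Matrix.map_apply, coeff_map]
  have h2 : ((jacZ l).map g).det = g (jacZ l).det := (RingHom.map_det g (jacZ l)).symm
  rw [h1, h2]
  exact (map_ne_zero g).2 hdet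

theorem GG_cc {K : Type} [Field K] {Φ : MvPolynomial (Fin (n + κ)) K}
    (hΦ0 : constantCoeff Φ = 0) (l : Fin κ → MvPolynomial (Fin (n + κ)) K) :
    constantCoeff (GG Φ l) = 0 := by
  unfold GG
  rw [map_add, constantCoeff_rename, hΦ0, map_sum, zero_add]
  refine Finset.sum_eq_zero fun i _ => ?_
  rw [map_mul, constantCoeff_X, zero_mul]

theorem GG_ev {K : Type} [Field K] (Φ : MvPolynomial (Fin (n + κ)) K)
    (l : Fin κ → MvPolynomial (Fin (n + κ)) K) (t : Fin κ → K) :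
    aeval (Fin.append (fun i => X (Fin.castAdd κ i)) (Fin.append (fun i => C (t i))
      fun i => X (Fin.natAdd n i)) : Fin (n + (κ + κ)) → MvPolynomial (Fin (n + κ)) K)
        (GG Φ l) = Φ + ∑ i, C (t i) * l i := by
  set w : Fin (n + (κ + κ)) → MvPolynomial (Fin (n + κ)) K :=
    Fin.append (fun i => X (Fin.castAdd κ i)) (Fin.append (fun i => C (t i))
      fun i => X (Fin.natAdd n i)) with hw
  have h1 : w ∘ emb = X := by
    funext v
    rw [Function.comp_apply]
    refine Fin.addCases (fun i => ?_) (fun i => ?_) v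
    · rw [emb_l, hw]
      unfold xv
      rw [Fin.append_left]
    · rw [emb_r, hw]
      unfold zv
      rw [Fin.append_right, Fin.append_right]
  have h2 : ∀ i, w (yv n i) = C (t i) := by
    intro i
    rw [hw]
    unfold yv
    rw [Fin.append_right, Fin.append_left]
  unfold GG
  rw [map_add, map_sum, aeval_rename, h1, aeval_X_left_apply]
  congr 1
  refine Finset.sum_congr rfl fun i _ => ?_
  rw [map_mul, aeval_X, h2, aeval_rename, h1, aeval_X_left_apply]

theorem GG_ne {Φ : MvPolynomial (Fin (n + κ)) ℂ} {l : Fin κ → MvPolynomial (Fin (n + κ)) ℂ}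
    {f : MvPowerSeries (Fin n) ℂ} (hf0 : f ≠ 0) (hf : OnV f Φ l) : GG Φ l ≠ 0 := by
  classical
  intro h
  have h1 : ∀ t : Fin κ → ℂ, Φ + ∑ i, C (t i) * l i = 0 := by
    intro t
    rw [← GG_ev, h, map_zero]
  have h2 : Φ = 0 := by
    have h3 := h1 0
    simpa using h3
  have h3 : ∀ i, l i = 0 := by
    intro i
    have h4 := h1 (Pi.single i 1)
    rw [h2, zero_add, Finset.sum_eq_single i] at h4
    · rwa [Pi.single_eq_same, C_1, one_mul] at h4
    · intro j _ hj
      rw [Pi.single_eq_of_ne hj, C_0, zero_mul]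
    · intro h
      exact absurd (Finset.mem_univ _) h
  obtain ⟨q, hq⟩ := hf
  rw [h2] at hq
  simp only [h3, MvPolynomial.coe_zero, mul_zero, Finset.sum_const_zero, add_zero] at hq
  apply hf0
  have h5 : MvPowerSeries.rename (Fin.castAdd κ) f =
      MvPowerSeries.rename (Fin.castAdd κ) (0 : MvPowerSeries (Fin n) ℂ) := by
    rw [← hq, map_zero]
  exact (MvPowerSeries.rename_inj (Fin.castAddEmb κ) _ _).1 h5

/-- the functional equations -/
theorem bfun {Φ : MvPolynomial (Fin (n + κ)) ℂ} {l : Fin κ → MvPolynomial (Fin (n + κ)) ℂ}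
    (hl : ∀ i, constantCoeff (l i) = 0) (hdet : (jacZ l).det ≠ 0) (hΦ0 : constantCoeff Φ = 0)
    (hΦ : ∀ i : Fin κ, coeff (Finsupp.single (Fin.natAdd n i) 1) Φ = 0)
    {f : MvPowerSeries (Fin n) ℂ} (hf0 : f ≠ 0) (hf : OnV f Φ l) (c0 : ℂ) (hc0 : c0 ≠ 0)
    {b : Polynomial ℂ} (hb : IsFormalBFunction f b) :
    b.eval (-1) = 0 ∧ ∀ c : Polynomial ℂ, b = (Polynomial.X + 1) * c →
      IsLocalBFunction (GG Φ l) ((Polynomial.X + 1) *
        c.comp (Polynomial.X + Polynomial.C (κ : ℂ))) ∧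
      IsLocalBFunction (rename (Fin.castAdd 2) (GG Φ l) + C c0 *
        (X (Fin.natAdd _ 0) * X (Fin.natAdd _ 1))) ((Polynomial.X + 1) *
        c.comp (Polynomial.X + Polynomial.C ((κ + 1 : ℕ) : ℂ))) := by
  classical
  have hne := GG_ne hf0 hf
  obtain ⟨q, hq⟩ := hf
  have hq0 : ∀ i, MvPowerSeries.constantCoeff (q i) = 0 := by
    intro i
    have h1 := cc_q hl hdet hΦ (trunc_rel 1 hq) i
    rwa [MvPowerSeries.constantCoeff_truncTotal_eq_ite, if_pos (by norm_num)] at h1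
  have hfc : MvPowerSeries.constantCoeff f = 0 := by
    have h1 := congrArg MvPowerSeries.constantCoeff hq
    rw [map_add, map_sum, MvPowerSeries.constantCoeff_rename, Finset.sum_eq_zero, add_zero] at h1
    · rw [← h1, Pool.Agent.N101.CB.BLx.const_coe, hΦ0]
    · intro i _
      rw [map_mul, hq0, zero_mul]
  have hB := Pool.Agent.Y229.PS.becomes_emb (Fin.cons Φ l : Fin (κ + 1) → _) hl hdet f q hq0 hq
  obtain ⟨h1, h2⟩ := Pool.Agent.Y229.PS.becomes_local hf0 hfc hb hB
  refine ⟨h1, fun c hc => ⟨h2 c hc, ?_⟩⟩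
  have h3 := bf_addyz (GG Φ l) hne (GG_cc hΦ0 l) (h2 c hc)
  have h4 : (c.comp (Polynomial.X + Polynomial.C (κ : ℂ))).comp (Polynomial.X + 1) =
      c.comp (Polynomial.X + Polynomial.C ((κ + 1 : ℕ) : ℂ)) := by
    rw [Polynomial.comp_assoc]
    congr 1
    simp only [Polynomial.add_comp, Polynomial.X_comp, Polynomial.C_comp]
    push_cast
    rw [Polynomial.C_add, Polynomial.C_1]
    ring
  rw [h4] at h3
  exact (iso0_scale (GG Φ l) c0 hc0).lb h3

/-- **The theorem for stably generic functions.** -/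
theorem stablyV {F : Type} [Field F] [Algebra F ℂ] {r : ℕ} (hr : 0 < r)
    (v : Fin r → Fin (n + (κ + κ)) → ℕ) (hv : Function.Injective v) (hv0 : ∀ j, v j ≠ 0)
    (h : MvPolynomial (Fin (n + (κ + κ))) F) (hh : ∀ w ∈ h.support, InNP v fun i => w i)
    (hvh : ∀ w ∈ h.support, ∀ j, ¬ ∀ x, w x = v j x) :
    ∃ (g : MvPolynomial (Fin r) F) (S : Finset (ℤ × ℤ)), g ≠ 0 ∧
      (∀ p ∈ S, 0 < p.2 ∧ (p = (-1, 1) ∨ (∃ a : Fin (n + (κ + κ)) → ℕ, IsRay v a ∧
          0 < gord v a ∧ p = (-((∑ i, a i : ℕ) : ℤ) + κ * (gord v a : ℤ), (gord v a : ℤ))) ∨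
          ∃ a : Fin (n + (κ + κ) + 2) → ℕ, IsRay (exyz v) a ∧
          0 < gord (exyz v) a ∧ p = (-((∑ i, a i : ℕ) : ℤ) + ((κ + 1 : ℕ) : ℤ) *
            (gord (exyz v) a : ℤ), (gord (exyz v) a : ℤ)))) ∧
      ∀ (k : Type) [Field k] [Algebra F k] [Algebra k ℂ] [IsScalarTower F k ℂ] (c : Fin r → k),
        aeval c g ≠ 0 → ∀ (Φ : MvPolynomial (Fin (n + κ)) k)
          (l : Fin κ → MvPolynomial (Fin (n + κ)) k), (∀ i, constantCoeff (l i) = 0) →
          (jacZ l).det ≠ 0 → constantCoeff Φ = 0 →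
          (∀ i : Fin κ, coeff (Finsupp.single (Fin.natAdd n i) 1) Φ = 0) →
          GG Φ l = spa v c + MvPolynomial.map (algebraMap F k) h →
        (∀ f : MvPowerSeries (Fin n) ℂ, f ≠ 0 → OnV f (MvPolynomial.map (algebraMap k ℂ) Φ)
          (fun i => MvPolynomial.map (algebraMap k ℂ) (l i)) → ∀ p ∈ S, ∀ b : Polynomial ℂ,
          IsFormalBFunction f b → b.eval ((p.1 : ℂ) / p.2) = 0) ∧
        ∀ (K : Type) [Field K] [Algebra k K] (φ : MK K →+* RatFunc ℚ), ChiY φ →
          PowerSeries.map φ (zetaV n (MvPolynomial.map (algebraMap k K) Φ)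
            fun i => MvPolynomial.map (algebraMap k K) (l i)) ∈ ratR uX S := by
  classical
  obtain ⟨g1, S1, hg1, hS1, H1⟩ := strongF hr v hv hv0 h hh hvh
  obtain ⟨g2', S2, hg2', hS2, H2⟩ := strongF (Nat.succ_pos r) (exyz v) (exyz_inj hv) (exyz_ne hv0)
    (rename (Fin.castAdd 2) h) (np_ren v h hh) (vh_ren v h hvh)
  obtain ⟨g2, hg2, H2'⟩ := exists_first g2' hg2'
  set S : Finset (ℤ × ℤ) := insert (-1, 1) (S1.image (fun q => (q.1 + κ * q.2, q.2)) ∪
    S2.image (fun q => (q.1 + ((κ + 1 : ℕ) : ℤ) * q.2, q.2))) with hS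
  have hpos1 : ∀ p ∈ (S1 : Set (ℤ × ℤ)), 0 < p.2 := by
    intro p hp
    obtain ⟨a, -, hg, rfl⟩ := hS1 p (Finset.mem_coe.1 hp)
    exact Int.natCast_pos.2 hg
  have hpos2 : ∀ p ∈ (S2 : Set (ℤ × ℤ)), 0 < p.2 := by
    intro p hp
    obtain ⟨a, -, hg, rfl⟩ := hS2 p (Finset.mem_coe.1 hp)
    exact Int.natCast_pos.2 hg
  refine ⟨g1 * g2, S, mul_ne_zero hg1 hg2, fun p hp => ?_,
    fun k _ _ _ _ c hc Φ l hl hdet hΦ0 hΦ hG => ?_⟩
  · rcases Finset.mem_insert.1 hp with rfl | hp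
    · exact ⟨by norm_num, Or.inl rfl⟩
    · rcases Finset.mem_union.1 hp with hp | hp
      · obtain ⟨q, hq, rfl⟩ := Finset.mem_image.1 hp
        obtain ⟨a, ha, hg, rfl⟩ := hS1 q hq
        exact ⟨Int.natCast_pos.2 hg, Or.inr (Or.inl ⟨a, ha, hg, rfl⟩)⟩
      · obtain ⟨q, hq, rfl⟩ := Finset.mem_image.1 hp
        obtain ⟨a, ha, hg, rfl⟩ := hS2 q hq
        exact ⟨Int.natCast_pos.2 hg, Or.inr (Or.inr ⟨a, ha, hg, rfl⟩)⟩
  have hkc : CharZero k := RingHom.charZero (algebraMap k ℂ)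
  rw [map_mul] at hc
  obtain ⟨H3, H4⟩ := H1 k c (left_ne_zero_of_mul hc)
  obtain ⟨c0, hc0, hc1⟩ := H2' k c (right_ne_zero_of_mul hc)
  obtain ⟨H5, H6⟩ := H2 k _ hc1
  -- the polynomials over an extension
  have hcons : ∀ {L : Type} [Field L] (g : k →+* L), (fun j => g ((Fin.cons c0 c :
      Fin (r + 1) → k) j)) = (Fin.cons (g c0) (fun j => g (c j)) : Fin (r + 1) → L) := by
    intro L _ g
    funext j
    refine Fin.cases ?_ (fun j => ?_) j
    · rfl
    · rfl
  have hsh : ∀ {L : Type} [Field L] (g : k →+* L) (g' : F →+* L),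
      spa (exyz v) (fun j => g ((Fin.cons c0 c : Fin (r + 1) → k) j)) +
        MvPolynomial.map g' (rename (Fin.castAdd 2) h) =
      rename (Fin.castAdd 2) (spa v (fun j => g (c j)) + MvPolynomial.map g' h) +
        C (g c0) * (X (Fin.natAdd _ 0) * X (Fin.natAdd _ 1)) := by
    intro L _ g g'
    rw [hcons, spa_cons, map_add, map_rename]
    ring
  have hGL : ∀ (L : Type) [Field L] [Algebra k L],
      spa v (fun j => algebraMap k L (c j)) +
          MvPolynomial.map ((algebraMap k L).comp (algebraMap F k)) h =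
      GG (MvPolynomial.map (algebraMap k L) Φ)
        (fun i => MvPolynomial.map (algebraMap k L) (l i)) := by
    intro L _ _
    rw [GG_map, hG, map_add, map_spa, MvPolynomial.map_map]
  have hGL2 : ∀ (L : Type) [Field L] [Algebra k L],
      spa (exyz v) (fun j => algebraMap k L ((Fin.cons c0 c : Fin (r + 1) → k) j)) +
          MvPolynomial.map ((algebraMap k L).comp (algebraMap F k)) (rename (Fin.castAdd 2) h) =
      rename (Fin.castAdd 2) (GG (MvPolynomial.map (algebraMap k L) Φ)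
        (fun i => MvPolynomial.map (algebraMap k L) (l i))) + C (algebraMap k L c0) *
        (X (Fin.natAdd _ 0) * X (Fin.natAdd _ 1)) := by
    intro L _ _
    rw [hsh, hGL]
  have hlL : ∀ (L : Type) [Field L] [Algebra k L],
      ∀ i, constantCoeff (MvPolynomial.map (algebraMap k L) (l i)) = 0 := by
    intro L _ _ i
    rw [constantCoeff_map, hl, map_zero]
  have hΦL : ∀ (L : Type) [Field L] [Algebra k L],
      constantCoeff (MvPolynomial.map (algebraMap k L) Φ) = 0 ∧ ∀ i : Fin κ,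
        coeff (Finsupp.single (Fin.natAdd n i) 1) (MvPolynomial.map (algebraMap k L) Φ) = 0 := by
    intro L _ _
    refine ⟨?_, fun i => ?_⟩
    · rw [constantCoeff_map, hΦ0, map_zero]
    · rw [coeff_map, hΦ, map_zero]
  have hFC : (algebraMap k ℂ).comp (algebraMap F k) = algebraMap F ℂ :=
    (IsScalarTower.algebraMap_eq F k ℂ).symm
  refine ⟨fun f hf0 hf p hp b hb => ?_, fun K _ _ φ hφ => ?_⟩
  · obtain ⟨hb1, hb2⟩ := bfun (hlL ℂ) (jacZ_map (algebraMap k ℂ) hdet) (hΦL ℂ).1 (hΦL ℂ).2 hf0 hf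
      (algebraMap k ℂ c0) ((map_ne_zero _).2 hc0) hb
    obtain ⟨c', rfl⟩ := Pool.Agent.Y229.PS.exists_factor hb1
    obtain ⟨hb3, hb4⟩ := hb2 c' rfl
    have e1 := hGL ℂ
    have e2 := hGL2 ℂ
    rw [hFC] at e1 e2
    rw [← e1] at hb3
    rw [← e2] at hb4
    rcases Finset.mem_insert.1 hp with rfl | hp
    · have h6 : (((-1 : ℤ) : ℂ) / ((1 : ℤ) : ℂ)) = -1 := by norm_num
      simp only [h6]
      exact hb1
    · rw [Polynomial.eval_mul]
      rcases Finset.mem_union.1 hp with hp | hp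
      · obtain ⟨q, hq, rfl⟩ := Finset.mem_image.1 hp
        have h6 := H3 q hq _ hb3
        rw [Polynomial.eval_comp] at h6
        have h7 : ((q.2 : ℤ) : ℂ) ≠ 0 := by
          exact_mod_cast (hpos1 q (Finset.mem_coe.2 hq)).ne'
        have h8 : (((q.1 + κ * q.2 : ℤ) : ℂ) / ((q.2 : ℤ) : ℂ)) =
            Polynomial.eval ((q.1 : ℂ) / q.2) (Polynomial.X + Polynomial.C (κ : ℂ)) := by
          rw [Polynomial.eval_add, Polynomial.eval_X, Polynomial.eval_C]
          push_cast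
          field_simp
        simp only
        rw [h8, h6, mul_zero]
      · obtain ⟨q, hq, rfl⟩ := Finset.mem_image.1 hp
        have h6 := H5 q hq _ hb4
        rw [Polynomial.eval_comp] at h6
        have h7 : ((q.2 : ℤ) : ℂ) ≠ 0 := by
          exact_mod_cast (hpos2 q (Finset.mem_coe.2 hq)).ne'
        have h8 : (((q.1 + ((κ + 1 : ℕ) : ℤ) * q.2 : ℤ) : ℂ) / ((q.2 : ℤ) : ℂ)) =
            Polynomial.eval ((q.1 : ℂ) / q.2)
              (Polynomial.X + Polynomial.C ((κ + 1 : ℕ) : ℂ)) := by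
          rw [Polynomial.eval_add, Polynomial.eval_X, Polynomial.eval_C]
          push_cast
          field_simp
        simp only
        rw [h8, h6, mul_zero]
  · have hK : CharZero K := charZero_of_injective_algebraMap (algebraMap k K).injective
    have hu : Units.map (φ : MK K →* RatFunc ℚ) (Lu K) = uX := Units.ext hφ.1
    have z1 := H4 K φ hφ
    have z2 := H6 K φ hφ
    rw [hGL K, ← hu] at z1
    rw [hGL2 K, ← hu] at z2
    have z0 := memV (hlL K) (jacZ_map (algebraMap k K) hdet) (hΦL K).1 (hΦL K).2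
      (algebraMap k K c0) ((map_ne_zero _).2 hc0)
    have z3 := elD_mem φ κ _ _ (S1 : Set (ℤ × ℤ)) (S2 : Set (ℤ × ℤ)) hpos1 hpos2 z1 z2
    rw [← z0] at z3
    have z4 := of_fst φ _ _ z3
    rw [hu] at z4
    refine ratR_mono uX ?_ z4
    rintro p (rfl | ⟨q, hq, rfl⟩ | ⟨q, hq, rfl⟩)
    · exact Finset.mem_coe.2 (Finset.mem_insert_self _ _)
    · exact Finset.mem_coe.2 (Finset.mem_insert_of_mem (Finset.mem_union_left _
        (Finset.mem_image_of_mem (fun q : ℤ × ℤ => (q.1 + (κ : ℤ) * q.2, q.2)) hq)))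
    · exact Finset.mem_coe.2 (Finset.mem_insert_of_mem (Finset.mem_union_right _
        (Finset.mem_image_of_mem (fun q : ℤ × ℤ => (q.1 + ((κ + 1 : ℕ) : ℤ) * q.2, q.2)) hq)))

end

end Pool.Agent.J4.H70.CC
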