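import Pool.Agent.W749.JI.Stm
import Pool.Agent.Y228.HX.S6
import Pool.Agent.Y229.PS.Gen

/-!
# Functions on smooth complete intersections: the definitions
-/

set_option autoImplicit false

namespace Pool.Agent.J4.H70.CC

open MvPolynomial Pool.Agent.W428.MOT
open Pool.Agent.W749.JI (fam)
open Pool.Agent.TH216.MF (ratR)
open Pool.Agent.Y228.HX (uX ChiY)
open Pool.Agent.Y229.PS (IsFormalBFunction)

section
variable {r κ : ℕ}

/-- The exponent `w` lies in the Newton polyhedron (convex hull plus positive orthant) of the `m j`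
with `π j = i` or `π j = 0`. -/
def NPQ {n : ℕ} (π : Fin r → Fin (κ + 1)) (m : Fin r → Fin n → ℕ) (i : Fin (κ + 1))
    (w : Fin n →₀ ℕ) : Prop :=
  ∃ l : Fin r → ℚ, (∀ j, 0 ≤ l j) ∧ ∑ j, l j = 1 ∧ (∀ j, l j ≠ 0 → π j = i ∨ π j = 0) ∧
    ∀ x, ∑ j, l j * (m j x : ℚ) ≤ (w x : ℚ)

/-- `∑_{π j = i} a_j x ^ (m_j) + H_i` -/
noncomputable def tupK {F k : Type} [Field F] [Field k] [Algebra F k] {n : ℕ}
    (π : Fin r → Fin (κ + 1)) (m : Fin r → Fin n → ℕ) (a : Fin r → k)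
    (H : Fin (κ + 1) → MvPolynomial (Fin n) F) (i : Fin (κ + 1)) : MvPolynomial (Fin n) k :=
  fam π m a i + MvPolynomial.map (algebraMap F k) (H i)

end

section
variable {K : Type} [Field K] {a κ : ℕ}

/-- The variety of the `N`-jets `γ` at the origin of `V = {l_1 = ⋯ = l_κ = 0} ⊂ 𝔸 ^ a` with
`Φ(γ) = t ^ N mod t ^ (N + 1)`. -/
def JetV (Φ : MvPolynomial (Fin a) K) (l : Fin κ → MvPolynomial (Fin a) K) (N : ℕ) :
    Set (Pt K (Fin a × Fin (N + 1))) :=
  {z | (∀ i, z (i, 0) = 0) ∧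
    (∀ i, ∀ j ≤ N, PowerSeries.coeff j (aeval (arc z) (l i)) = 0) ∧
    ∀ j ≤ N, PowerSeries.coeff j (aeval (arc z) Φ) = if j = N then 1 else 0}

/-- The local motivic zeta function of the function `Φ` on `V = {l_1 = ⋯ = l_κ = 0} ⊂ 𝔸 ^ a` at the
origin, `∑_{N ≥ 1} [X_{N,1,0}] 𝕃 ^ (- d N) T ^ N`, `d = dim V`. -/
noncomputable def zetaV (d : ℕ) (Φ : MvPolynomial (Fin a) K)
    (l : Fin κ → MvPolynomial (Fin a) K) : PowerSeries (MK K) :=
  PowerSeries.mk fun N => if N = 0 then 0 else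
    algebraMap (K0 K) (MK K) (cls (Fin a × Fin (N + 1)) (JetV Φ l N)) *
      (((Lu K) ^ (-((d * N : ℕ) : ℤ)) : (MK K)ˣ) : MK K)

end

/-- the Jacobian matrix at the origin with respect to `z` -/
noncomputable def jacZ {K : Type} [Field K] {n κ : ℕ}
    (l : Fin κ → MvPolynomial (Fin (n + κ)) K) : Matrix (Fin κ) (Fin κ) K :=
  Matrix.of fun i j => coeff (Finsupp.single (Fin.natAdd n j) 1) (l i)

/-- `f(x)` is the expression of the restriction of `Φ` to `V = {l_1 = ⋯ = l_κ = 0}` in the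
coordinates `x` of `V` at the origin: `Φ = f(x) + ∑ q_i l_i` with power series `q_i`. -/
def OnV {n κ : ℕ} (f : MvPowerSeries (Fin n) ℂ) (Φ : MvPolynomial (Fin (n + κ)) ℂ)
    (l : Fin κ → MvPolynomial (Fin (n + κ)) ℂ) : Prop :=
  ∃ q : Fin κ → MvPowerSeries (Fin (n + κ)) ℂ, (Φ : MvPowerSeries (Fin (n + κ)) ℂ) =
    MvPowerSeries.rename (Fin.castAdd κ) f + ∑ i, q i * (l i : MvPowerSeries (Fin (n + κ)) ℂ)

/-- The function `Φ` on the germ `V = {l_1 = ⋯ = l_κ = 0} ⊂ 𝔸 ^ (n + κ)` at the origin, with the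
coordinates `x_1, …, x_n` (both over `k`), has the property that the rational numbers
`p.1 / p.2`, `p ∈ S`, are negative roots of all its Bernstein-Sato polynomials, and that the
`χ_y`-genus of its local motivic zeta function (over any extension of `k`) has its poles among
them. -/
def StrongV {k : Type} [Field k] [Algebra k ℂ] {n κ : ℕ} (S : Finset (ℤ × ℤ))
    (Φ : MvPolynomial (Fin (n + κ)) k) (l : Fin κ → MvPolynomial (Fin (n + κ)) k) : Prop :=
  (∀ f : MvPowerSeries (Fin n) ℂ, f ≠ 0 → OnV f (MvPolynomial.map (algebraMap k ℂ) Φ)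
    (fun i => MvPolynomial.map (algebraMap k ℂ) (l i)) → ∀ p ∈ S, p.1 < 0 ∧
      ∀ b : Polynomial ℂ, IsFormalBFunction f b → b.eval ((p.1 : ℂ) / p.2) = 0) ∧
  ∀ (K : Type) [Field K] [Algebra k K] (φ : MK K →+* RatFunc ℚ), ChiY φ →
    PowerSeries.map φ (zetaV n (MvPolynomial.map (algebraMap k K) Φ)
      fun i => MvPolynomial.map (algebraMap k K) (l i)) ∈ ratR uX S

end Pool.Agent.J4.H70.CC
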