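import Pool.Agent.J4.H70.CC.Main
import Pool.Agent.J4.H70.CC.Defs
import Pool.Agent.Y229.MS.Gr
import Pool.Agent.Y229.RE.Emb2
import Pool.Agent.Y229.PS.Gen

/-!
# Compositions
-/

set_option autoImplicit false
set_option maxHeartbeats 400000

namespace Pool.Agent.J4.H70.CC

open MvPolynomial
open Pool.Agent.Y229.MS (stabK exyz)
open Pool.Agent.W425.ND (spa)
open Pool.Agent.W749.JI (fam)
open Pool.Agent.Y229.RE (ex ex_x ex_y ex_z xv yv zv emb emb_l emb_r emb_inj emb_ne_y y_inj)
open Pool.Agent.Y228.HX (InNP)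

section graph

variable {K : Type} [Field K] {n κ : ℕ}

/-- the change of coordinates `z_i ↦ l_i`, `y_i ↦ y_i + q_i` -/
noncomputable def PhiK (q l : Fin κ → MvPolynomial (Fin (n + κ)) K) :
    Fin (n + (κ + κ)) → MvPolynomial (Fin (n + (κ + κ))) K :=
  Fin.append (fun i => X (xv κ i)) (Fin.append (fun i => X (yv n i) + rename emb (q i))
    (fun i => rename emb (l i)))

lemma PhiK_x (q l : Fin κ → MvPolynomial (Fin (n + κ)) K) (i : Fin n) :
    PhiK q l (xv κ i) = X (xv κ i) := by
  unfold PhiK xv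
  rw [Fin.append_left]

lemma PhiK_y (q l : Fin κ → MvPolynomial (Fin (n + κ)) K) (i : Fin κ) :
    PhiK q l (yv n i) = X (yv n i) + rename emb (q i) := by
  unfold PhiK yv
  rw [Fin.append_right, Fin.append_left]

lemma PhiK_z (q l : Fin κ → MvPolynomial (Fin (n + κ)) K) (i : Fin κ) :
    PhiK q l (zv n i) = rename emb (l i) := by
  unfold PhiK zv
  rw [Fin.append_right, Fin.append_right]

lemma aeval_stabK (f : MvPolynomial (Fin n) K) (q l : Fin κ → MvPolynomial (Fin (n + κ)) K) :
    aeval (PhiK q l) (stabK f κ) = rename emb (rename (Fin.castAdd κ) f + ∑ i, q i * l i) +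
      ∑ i, X (yv n i) * rename emb (l i) := by
  unfold stabK
  rw [map_add, map_sum, map_add, map_sum, aeval_rename, rename_rename]
  have h1 : aeval (PhiK q l ∘ Fin.castAdd (κ + κ)) f = rename (emb ∘ Fin.castAdd κ) f := by
    have h2 : PhiK q l ∘ Fin.castAdd (κ + κ) = X ∘ (emb ∘ Fin.castAdd κ) := by
      funext i
      rw [Function.comp_apply, Function.comp_apply, Function.comp_apply,
        show PhiK q l (Fin.castAdd (κ + κ) i) = X (xv κ i) from PhiK_x q l i, emb_l]
    rw [h2]
    have h3 := aeval_rename (R := K) (emb ∘ Fin.castAdd κ) X f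
      (S := MvPolynomial (Fin (n + (κ + κ))) K)
    rw [aeval_X_left_apply] at h3
    exact h3.symm
  rw [h1, add_assoc, ← Finset.sum_add_distrib]
  congr 1
  refine Finset.sum_congr rfl fun i _ => ?_
  rw [map_mul, aeval_X, aeval_X,
    show PhiK q l (Fin.natAdd n (Fin.castAdd κ i)) = X (yv n i) + rename emb (q i) from
      PhiK_y q l i,
    show PhiK q l (Fin.natAdd n (Fin.natAdd κ i)) = rename emb (l i) from PhiK_z q l i, map_mul]
  ring

lemma all3K {Q : Fin (n + (κ + κ)) → Prop} (h1 : ∀ i, Q (xv κ i)) (h2 : ∀ i, Q (yv n i))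
    (h3 : ∀ i, Q (zv n i)) (i) : Q i :=
  Fin.addCases (fun i => h1 i) (fun i => Fin.addCases (fun i => h2 i) (fun i => h3 i) i) i

/-- the automorphism `z_i ↦ l_i`, `y_i ↦ y_i + q_i` -/
theorem iso0_graph (Φ : MvPolynomial (Fin (n + κ)) K) (l : Fin κ → MvPolynomial (Fin (n + κ)) K)
    (θ : MvPolynomial (Fin (n + κ)) K ≃ₐ[K] MvPolynomial (Fin (n + κ)) K)
    (hx : ∀ i, θ (X (Fin.castAdd κ i)) = X (Fin.castAdd κ i))
    (hz : ∀ i, θ (X (Fin.natAdd n i)) = l i)
    (f : MvPolynomial (Fin n) K) (q : Fin κ → MvPolynomial (Fin (n + κ)) K)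
    (hF : Φ = rename (Fin.castAdd κ) f + ∑ i, q i * l i)
    (hl0 : ∀ i, constantCoeff (l i) = 0) (hq0 : ∀ i, constantCoeff (q i) = 0) :
    Iso0 (stabK f κ) (rename emb Φ + ∑ i : Fin κ, X (yv n i) * rename emb (l i)) := by
  have hx' : ∀ i, θ.symm (X (Fin.castAdd κ i)) = X (Fin.castAdd κ i) := by
    intro i
    rw [AlgEquiv.symm_apply_eq, hx]
  set Ψ : MvPolynomial (Fin (n + (κ + κ))) K →ₐ[K] MvPolynomial (Fin (n + (κ + κ))) K :=
    aeval (Fin.append (fun i => X (xv κ i)) (Fin.append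
      (fun i => X (yv n i) - rename emb (θ.symm (q i)))
      (fun i => rename emb (θ.symm (X (Fin.natAdd n i)))))) with hΨ
  have hΨx : ∀ i, Ψ (X (xv κ i)) = X (xv κ i) := by
    intro i
    rw [hΨ, aeval_X]
    unfold xv
    rw [Fin.append_left]
  have hΨy : ∀ i, Ψ (X (yv n i)) = X (yv n i) - rename emb (θ.symm (q i)) := by
    intro i
    rw [hΨ, aeval_X]
    unfold yv
    rw [Fin.append_right, Fin.append_left]
  have hΨz : ∀ i, Ψ (X (zv n i)) = rename emb (θ.symm (X (Fin.natAdd n i))) := by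
    intro i
    rw [hΨ, aeval_X]
    unfold zv
    rw [Fin.append_right, Fin.append_right]
  have hΨe : ∀ p : MvPolynomial (Fin (n + κ)) K, Ψ (rename emb p) = rename emb (θ.symm p) := by
    intro p
    have h1 : Ψ.comp (rename emb) = (rename emb).comp (θ.symm : _ →ₐ[K] _) := by
      apply MvPolynomial.algHom_ext
      intro i
      refine Fin.addCases (fun i => ?_) (fun i => ?_) i
      · rw [AlgHom.comp_apply, AlgHom.comp_apply, rename_X, emb_l, hΨx]
        show _ = rename emb (θ.symm (X (Fin.castAdd κ i)))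
        rw [hx', rename_X, emb_l]
      · rw [AlgHom.comp_apply, AlgHom.comp_apply, rename_X, emb_r, hΨz]
        rfl
    exact DFunLike.congr_fun h1 p
  have hPx : ∀ i, aeval (PhiK q l) (X (xv κ i) : MvPolynomial (Fin (n + (κ + κ))) K) =
      X (xv κ i) := by
    intro i
    rw [aeval_X, PhiK_x]
  have hPy : ∀ i, aeval (PhiK q l) (X (yv n i) : MvPolynomial (Fin (n + (κ + κ))) K) =
      X (yv n i) + rename emb (q i) := by
    intro i
    rw [aeval_X, PhiK_y]
  have hPz : ∀ i, aeval (PhiK q l) (X (zv n i) : MvPolynomial (Fin (n + (κ + κ))) K) =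
      rename emb (l i) := by
    intro i
    rw [aeval_X, PhiK_z]
  have hPe : ∀ p : MvPolynomial (Fin (n + κ)) K,
      aeval (PhiK q l) (rename emb p) = rename emb (θ p) := by
    intro p
    have h1 : (aeval (PhiK q l) : MvPolynomial (Fin (n + (κ + κ))) K →ₐ[K] _).comp (rename emb) =
        (rename emb).comp (θ : _ →ₐ[K] _) := by
      apply MvPolynomial.algHom_ext
      intro i
      refine Fin.addCases (fun i => ?_) (fun i => ?_) i
      · rw [AlgHom.comp_apply, AlgHom.comp_apply, rename_X, emb_l, hPx]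
        show _ = rename emb (θ (X (Fin.castAdd κ i)))
        rw [hx, rename_X, emb_l]
      · rw [AlgHom.comp_apply, AlgHom.comp_apply, rename_X, emb_r, hPz]
        show _ = rename emb (θ (X (Fin.natAdd n i)))
        rw [hz]
    exact DFunLike.congr_fun h1 p
  refine ⟨rfl, AlgEquiv.ofAlgHom (aeval (PhiK q l)) Ψ ?_ ?_, ?_, ?_⟩
  · apply MvPolynomial.algHom_ext
    refine all3K (fun i => ?_) (fun i => ?_) fun i => ?_
    · rw [AlgHom.comp_apply, AlgHom.id_apply, hΨx, hPx]
    · rw [AlgHom.comp_apply, AlgHom.id_apply, hΨy, map_sub, hPy, hPe, AlgEquiv.apply_symm_apply,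
        add_sub_cancel_right]
    · rw [AlgHom.comp_apply, AlgHom.id_apply, hΨz, hPe, AlgEquiv.apply_symm_apply, rename_X, emb_r]
  · apply MvPolynomial.algHom_ext
    refine all3K (fun i => ?_) (fun i => ?_) fun i => ?_
    · rw [AlgHom.comp_apply, AlgHom.id_apply, hPx, hΨx]
    · rw [AlgHom.comp_apply, AlgHom.id_apply, hPy, map_add, hΨy, hΨe, sub_add_cancel]
    · rw [AlgHom.comp_apply, AlgHom.id_apply, hPz, hΨe, ← hz, AlgEquiv.symm_apply_apply,
        rename_X, emb_r]
  · refine all3K (fun i => ?_) (fun i => ?_) fun i => ?_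
    · show constantCoeff (aeval (PhiK q l) (X (xv κ i))) = 0
      rw [hPx, constantCoeff_X]
    · show constantCoeff (aeval (PhiK q l) (X (yv n i))) = 0
      rw [hPy, map_add, constantCoeff_X, constantCoeff_rename, hq0, add_zero]
    · show constantCoeff (aeval (PhiK q l) (X (zv n i))) = 0
      rw [hPz, constantCoeff_rename, hl0]
  · show aeval (PhiK q l) (stabK f κ) = _
    rw [aeval_stabK, ← hF]

/-- substitution modulo an ideal -/
lemma aeval_sub_memK {a b : ℕ} (J : Ideal (MvPolynomial (Fin b) K))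
    (u w : Fin a → MvPolynomial (Fin b) K) (h : ∀ i, u i - w i ∈ J)
    (p : MvPolynomial (Fin a) K) : aeval u p - aeval w p ∈ J := by
  induction p using MvPolynomial.induction_on with
  | C c =>
    rw [show aeval u (C c : MvPolynomial (Fin a) K) = C c from (aeval u).commutes c,
      show aeval w (C c : MvPolynomial (Fin a) K) = C c from (aeval w).commutes c, sub_self]
    exact J.zero_mem
  | add p q hp hq =>
    rw [map_add, map_add, add_sub_add_comm]
    exact J.add_mem hp hq
  | mul_X p i hp =>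
    rw [map_mul, map_mul, aeval_X, aeval_X]
    have e : aeval u p * u i - aeval w p * w i =
        (aeval u p - aeval w p) * u i + aeval w p * (u i - w i) := by ring
    rw [e]
    exact J.add_mem (J.mul_mem_right _ hp) (J.mul_mem_left _ (h i))

lemma aeval_X_compK {a b : ℕ} (f : Fin a → Fin b) (u : MvPolynomial (Fin a) K) :
    aeval ((X : Fin b → MvPolynomial (Fin b) K) ∘ f) u = rename f u := by
  have h3 := aeval_rename (R := K) f X u (S := MvPolynomial (Fin b) K)
  rw [aeval_X_left_apply] at h3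
  exact h3.symm

/-- the automorphism `z_i ↦ c_i z_i - p_i` -/
theorem graph_equivK (c : Fin κ → K) (hc : ∀ i, c i ≠ 0) (p : Fin κ → MvPolynomial (Fin n) K) :
    ∃ θ : MvPolynomial (Fin (n + κ)) K ≃ₐ[K] MvPolynomial (Fin (n + κ)) K,
      (∀ i, θ (X (Fin.castAdd κ i)) = X (Fin.castAdd κ i)) ∧
      ∀ i, θ (X (Fin.natAdd n i)) = C (c i) * X (Fin.natAdd n i) -
        rename (Fin.castAdd κ) (p i) := by
  set A : MvPolynomial (Fin (n + κ)) K →ₐ[K] MvPolynomial (Fin (n + κ)) K :=
    aeval (Fin.append (fun i => X (Fin.castAdd κ i)) fun i => C (c i) * X (Fin.natAdd n i) -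
        rename (Fin.castAdd κ) (p i)) with hA
  set B : MvPolynomial (Fin (n + κ)) K →ₐ[K] MvPolynomial (Fin (n + κ)) K :=
    aeval (Fin.append (fun i => X (Fin.castAdd κ i)) fun i => C (c i)⁻¹ * (X (Fin.natAdd n i) +
        rename (Fin.castAdd κ) (p i))) with hB
  have hAx : ∀ i, A (X (Fin.castAdd κ i)) = X (Fin.castAdd κ i) := fun i => by
    rw [hA, aeval_X, Fin.append_left]
  have hBx : ∀ i, B (X (Fin.castAdd κ i)) = X (Fin.castAdd κ i) := fun i => by
    rw [hB, aeval_X, Fin.append_left]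
  have hAz : ∀ i, A (X (Fin.natAdd n i)) = C (c i) * X (Fin.natAdd n i) -
      rename (Fin.castAdd κ) (p i) := fun i => by
    rw [hA, aeval_X, Fin.append_right]
  have hBz : ∀ i, B (X (Fin.natAdd n i)) = C (c i)⁻¹ * (X (Fin.natAdd n i) +
        rename (Fin.castAdd κ) (p i)) := fun i => by
    rw [hB, aeval_X, Fin.append_right]
  have hAp : ∀ u : MvPolynomial (Fin n) K, A (rename (Fin.castAdd κ) u) =
      rename (Fin.castAdd κ) u := by
    intro u
    rw [hA, aeval_rename]
    have h1 : (Fin.append (fun i => (X (Fin.castAdd κ i) : MvPolynomial (Fin (n + κ)) K))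
        fun i => C (c i) * X (Fin.natAdd n i) - rename (Fin.castAdd κ) (p i)) ∘ Fin.castAdd κ =
        X ∘ Fin.castAdd κ := by
      funext i
      rw [Function.comp_apply, Fin.append_left, Function.comp_apply]
    rw [h1, aeval_X_compK]
  have hBp : ∀ u : MvPolynomial (Fin n) K, B (rename (Fin.castAdd κ) u) =
      rename (Fin.castAdd κ) u := by
    intro u
    rw [hB, aeval_rename]
    have h1 : (Fin.append (fun i => (X (Fin.castAdd κ i) : MvPolynomial (Fin (n + κ)) K))
        fun i => C (c i)⁻¹ * (X (Fin.natAdd n i) + rename (Fin.castAdd κ) (p i))) ∘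
          Fin.castAdd κ = X ∘ Fin.castAdd κ := by
      funext i
      rw [Function.comp_apply, Fin.append_left, Function.comp_apply]
    rw [h1, aeval_X_compK]
  have hCA : ∀ z : K, A (C z) = C z := fun z => A.commutes z
  have hCB : ∀ z : K, B (C z) = C z := fun z => B.commutes z
  refine ⟨AlgEquiv.ofAlgHom A B ?_ ?_, hAx, hAz⟩
  · apply MvPolynomial.algHom_ext
    intro i
    refine Fin.addCases (fun i => ?_) (fun i => ?_) i
    · rw [AlgHom.comp_apply, AlgHom.id_apply, hBx, hAx]
    · rw [AlgHom.comp_apply, AlgHom.id_apply, hBz, map_mul, map_add, hCA, hAz, hAp,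
        sub_add_cancel, ← mul_assoc, ← C_mul, inv_mul_cancel₀ (hc i), C_1, one_mul]
  · apply MvPolynomial.algHom_ext
    intro i
    refine Fin.addCases (fun i => ?_) (fun i => ?_) i
    · rw [AlgHom.comp_apply, AlgHom.id_apply, hAx, hBx]
    · rw [AlgHom.comp_apply, AlgHom.id_apply, hAz, map_sub, map_mul, hCB, hBz, hBp, ← mul_assoc,
        ← C_mul, mul_inv_cancel₀ (hc i), C_1, one_mul, add_sub_cancel_right]

/-- the restriction to the graph -/
theorem graph_restrictK (c : Fin κ → K) (hc : ∀ i, c i ≠ 0) (p : Fin κ → MvPolynomial (Fin n) K)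
    (Φ : MvPolynomial (Fin (n + κ)) K) :
    ∃ q : Fin κ → MvPolynomial (Fin (n + κ)) K, Φ =
      rename (Fin.castAdd κ) (aeval (Fin.append X fun i => C (c i)⁻¹ * p i) Φ) +
        ∑ i, q i * (C (c i) * X (Fin.natAdd n i) - rename (Fin.castAdd κ) (p i)) := by
  set l : Fin κ → MvPolynomial (Fin (n + κ)) K := fun i => C (c i) * X (Fin.natAdd n i) -
    rename (Fin.castAdd κ) (p i) with hl
  set w : Fin (n + κ) → MvPolynomial (Fin (n + κ)) K := fun v =>
    rename (Fin.castAdd κ) ((Fin.append (X : Fin n → MvPolynomial (Fin n) K)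
      fun i => C (c i)⁻¹ * p i) v) with hw
  have h1 : aeval (X : Fin (n + κ) → MvPolynomial (Fin (n + κ)) K) Φ - aeval w Φ ∈
      Ideal.span (Set.range l) := by
    refine aeval_sub_memK _ _ _ (fun v => ?_) Φ
    refine Fin.addCases (fun i => ?_) (fun i => ?_) v
    · rw [hw]
      show X (Fin.castAdd κ i) - rename (Fin.castAdd κ) (Fin.append X _ (Fin.castAdd κ i)) ∈ _
      rw [Fin.append_left, rename_X, sub_self]
      exact Ideal.zero_mem _
    · rw [hw]
      show X (Fin.natAdd n i) - rename (Fin.castAdd κ) (Fin.append X _ (Fin.natAdd n i)) ∈ _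
      have h2 : (X (Fin.natAdd n i) - rename (Fin.castAdd κ)
          (Fin.append (X : Fin n → MvPolynomial (Fin n) K) (fun i => C (c i)⁻¹ * p i)
            (Fin.natAdd n i)) : MvPolynomial (Fin (n + κ)) K) = C (c i)⁻¹ * l i := by
        rw [Fin.append_right, map_mul, rename_C, hl]
        show _ = C (c i)⁻¹ * (C (c i) * X (Fin.natAdd n i) - rename (Fin.castAdd κ) (p i))
        rw [mul_sub, ← mul_assoc, ← C_mul, inv_mul_cancel₀ (hc i), C_1, one_mul]
      rw [h2]
      exact Ideal.mul_mem_left _ _ (Ideal.subset_span ⟨i, rfl⟩)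
  rw [aeval_X_left_apply] at h1
  obtain ⟨q, hq⟩ := (Ideal.mem_span_range_iff_exists_fun).1 h1
  refine ⟨q, ?_⟩
  have h3 : aeval w Φ = rename (Fin.castAdd κ)
      (aeval (Fin.append X fun i => C (c i)⁻¹ * p i) Φ) := by
    have h4 := MvPolynomial.comp_aeval_apply (R := K)
      (f := Fin.append (X : Fin n → MvPolynomial (Fin n) K) fun i => C (c i)⁻¹ * p i)
      (φ := rename (R := K) (Fin.castAdd κ : Fin n → Fin (n + κ))) Φ
    exact h4.symm
  rw [← h3, hq]
  ring

/-- the linear coefficients of a renamed polynomial -/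
theorem lin_rename (p : MvPolynomial (Fin n) K) (j : Fin κ) :
    coeff (Finsupp.single (Fin.natAdd n j) 1) (rename (Fin.castAdd κ) p) = 0 := by
  refine coeff_rename_eq_zero _ _ _ fun w hw => ?_
  exfalso
  have h1 := DFunLike.congr_fun hw (Fin.natAdd n j)
  rw [Finsupp.single_eq_same, Finsupp.mapDomain_of_notMem_range] at h1
  · exact absurd h1 (by norm_num)
  · rintro ⟨i', hi'⟩
    have := congrArg Fin.val hi'
    simp only [Fin.val_castAdd, Fin.val_natAdd] at this
    omega

/-- **Compositions.** -/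
theorem iso0_comp (c : Fin κ → K) (hc : ∀ i, c i ≠ 0) (p : Fin κ → MvPolynomial (Fin n) K)
    (hp : ∀ i, constantCoeff (p i) = 0) (Φ : MvPolynomial (Fin (n + κ)) K)
    (hΦ : ∀ i, coeff (Finsupp.single (Fin.natAdd n i) 1) Φ = 0) :
    Iso0 (stabK (aeval (Fin.append X fun i => C (c i)⁻¹ * p i) Φ) κ)
      (rename emb Φ + ∑ i : Fin κ, X (yv n i) * rename emb (C (c i) * X (Fin.natAdd n i) -
        rename (Fin.castAdd κ) (p i))) := by
  classical
  obtain ⟨θ, h1, h2⟩ := graph_equivK c hc p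
  obtain ⟨q, hq⟩ := graph_restrictK c hc p Φ
  have hl0 : ∀ i, constantCoeff (C (c i) * X (Fin.natAdd n i) -
      rename (Fin.castAdd κ) (p i) : MvPolynomial (Fin (n + κ)) K) = 0 := fun i => by
    rw [map_sub, map_mul, constantCoeff_X, mul_zero, constantCoeff_rename, hp, sub_zero]
  refine iso0_graph Φ _ θ h1 h2 _ q hq hl0 fun i => ?_
  have h3 := hΦ i
  rw [hq, coeff_add, lin_rename, zero_add, coeff_sum, Finset.sum_eq_single i] at h3
  · rw [lin_mul, hl0, mul_zero, add_zero, coeff_sub, lin_rename, sub_zero, coeff_C_mul, lin_X,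
      if_pos rfl, mul_one] at h3
    exact (mul_eq_zero.1 h3).resolve_right (hc i)
  · intro j _ hj
    rw [lin_mul, hl0, mul_zero, add_zero, coeff_sub, lin_rename, sub_zero, coeff_C_mul, lin_X,
      if_neg, mul_zero, mul_zero]
    intro h
    apply hj
    have := congrArg Fin.val h
    simp only [Fin.val_natAdd] at this
    exact Fin.ext (by omega)
  · intro h
    exact absurd (Finset.mem_univ _) h

/-- **Negativity.** -/
theorem ray_posK (Φ : MvPolynomial (Fin (n + κ)) K) (c : Fin κ → K) (hc : ∀ i, c i ≠ 0)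
    (p : Fin κ → MvPolynomial (Fin n) K)
    (hf : aeval (Fin.append X fun i => C (c i)⁻¹ * p i) Φ ≠ (0 : MvPolynomial (Fin n) K))
    (u : Fin (n + (κ + κ)) → ℕ) (L : ℕ) (hL : 0 < L)
    (hu0 : ∀ w, coeff w Φ ≠ 0 → L ≤ ∑ v, u (emb v) * w v)
    (hu1 : ∀ i w, coeff w (C (c i) * X (Fin.natAdd n i) -
      rename (Fin.castAdd κ) (p i) : MvPolynomial (Fin (n + κ)) K) ≠ 0 →
        L ≤ ∑ v, u (emb v) * w v + u (yv n i)) :
    κ * L < ∑ i, u i := by
  classical
  have hsp : ∀ w : Fin (n + κ) →₀ ℕ, ∑ v, u (emb v) * w v =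
      ∑ i : Fin n, u (xv κ i) * w (Fin.castAdd κ i) +
        ∑ i : Fin κ, u (zv n i) * w (Fin.natAdd n i) := by
    intro w
    rw [Fin.sum_univ_add]
    congr 1
    · exact Finset.sum_congr rfl fun i _ => by rw [emb_l]
    · exact Finset.sum_congr rfl fun i _ => by rw [emb_r]
  -- `y_i z_i`
  have hyz : ∀ i : Fin κ, L ≤ u (yv n i) + u (zv n i) := by
    intro i
    have h1 := hu1 i (Finsupp.single (Fin.natAdd n i) 1) (by
      rw [coeff_sub, lin_rename, sub_zero, coeff_C_mul, lin_X, if_pos rfl, mul_one]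
      exact hc i)
    rw [hsp] at h1
    have h2 : ∑ i' : Fin n, u (xv κ i') *
        (Finsupp.single (Fin.natAdd n i) 1 : Fin (n + κ) →₀ ℕ) (Fin.castAdd κ i') = 0 := by
      refine Finset.sum_eq_zero fun i' _ => ?_
      rw [Finsupp.single_eq_of_ne, mul_zero]
      intro h
      have := congrArg Fin.val h
      simp only [Fin.val_castAdd, Fin.val_natAdd] at this
      omega
    have h4 : ∑ i' : Fin κ, u (zv n i') *
        (Finsupp.single (Fin.natAdd n i) 1 : Fin (n + κ) →₀ ℕ) (Fin.natAdd n i') =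
          u (zv n i) := by
      rw [Finset.sum_eq_single i, Finsupp.single_eq_same, mul_one]
      · intro i' _ hi'
        rw [Finsupp.single_eq_of_ne, mul_zero]
        intro h
        apply hi'
        have := congrArg Fin.val h
        simp only [Fin.val_natAdd] at this
        exact Fin.ext (by omega)
      · intro h
        exact absurd (Finset.mem_univ _) h
    rw [h2, h4] at h1
    omega
  have htot : ∑ i, u i = ∑ i : Fin n, u (xv κ i) + (∑ i : Fin κ, u (yv n i) +
      ∑ i : Fin κ, u (zv n i)) := by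
    rw [Fin.sum_univ_add, Fin.sum_univ_add]
    rfl
  have hsum : κ * L ≤ ∑ i : Fin κ, (u (yv n i) + u (zv n i)) := by
    have := Finset.sum_le_sum fun i (_ : i ∈ (Finset.univ : Finset (Fin κ))) => hyz i
    simpa using this
  rw [Finset.sum_add_distrib] at hsum
  by_contra hcon
  have hx0 : ∑ i : Fin n, u (xv κ i) = 0 := by omega
  have hx : ∀ i, u (xv κ i) = 0 := fun i => Finset.sum_eq_zero_iff.1 hx0 i (Finset.mem_univ i)
  have heq : ∀ i : Fin κ, u (yv n i) + u (zv n i) = L := by
    have h1 : ∑ i : Fin κ, (u (yv n i) + u (zv n i)) = ∑ i : Fin κ, L := by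
      rw [Finset.sum_add_distrib, Finset.sum_const, Finset.card_univ, Fintype.card_fin,
        smul_eq_mul]
      omega
    have h2 := (Finset.sum_eq_sum_iff_of_le fun i (_ : i ∈ (Finset.univ : Finset (Fin κ))) =>
      hyz i).1 h1.symm
    exact fun i => (h2 i (Finset.mem_univ i)).symm
  -- `p_i ≠ 0` gives `u (z_i) = 0`
  have hz : ∀ i : Fin κ, p i ≠ 0 → u (zv n i) = 0 := by
    intro i hp
    obtain ⟨w, hw⟩ := ne_zero_iff.1 hp
    have h1 := hu1 i (w.mapDomain (Fin.castAdd κ)) (by
      rw [coeff_sub, coeff_C_mul, coeff_X, if_neg, mul_zero, zero_sub,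
        coeff_rename_mapDomain _ (Fin.castAdd_injective _ _)]
      · exact neg_ne_zero.2 hw
      · intro h
        have h1 := DFunLike.congr_fun h (Fin.natAdd n i)
        rw [Finsupp.single_eq_same, Finsupp.mapDomain_of_notMem_range] at h1
        · exact absurd h1 (by norm_num)
        · rintro ⟨i', hi'⟩
          have := congrArg Fin.val hi'
          simp only [Fin.val_castAdd, Fin.val_natAdd] at this
          omega)
    rw [hsp] at h1
    have h2 : ∑ i' : Fin n, u (xv κ i') *
        (w.mapDomain (Fin.castAdd κ) : Fin (n + κ) →₀ ℕ) (Fin.castAdd κ i') = 0 :=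
      Finset.sum_eq_zero fun i' _ => by rw [hx, zero_mul]
    have h4 : ∑ i' : Fin κ, u (zv n i') *
        (w.mapDomain (Fin.castAdd κ) : Fin (n + κ) →₀ ℕ) (Fin.natAdd n i') = 0 := by
      refine Finset.sum_eq_zero fun i' _ => ?_
      rw [Finsupp.mapDomain_of_notMem_range, mul_zero]
      rintro ⟨i'', hi'⟩
      have := congrArg Fin.val hi'
      simp only [Fin.val_castAdd, Fin.val_natAdd] at this
      omega
    rw [h2, h4] at h1
    have := heq i
    omega
  -- a monomial of `Φ` without the variables `z_i`, `p_i = 0`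
  apply hf
  rw [Φ.as_sum, map_sum]
  refine Finset.sum_eq_zero fun w hw => ?_
  have h1 := hu0 w (mem_support_iff.1 hw)
  rw [hsp] at h1
  have h2 : ∑ i' : Fin n, u (xv κ i') * w (Fin.castAdd κ i') = 0 :=
    Finset.sum_eq_zero fun i' _ => by rw [hx, zero_mul]
  rw [h2, zero_add] at h1
  obtain ⟨i, -, hi⟩ := Finset.exists_ne_zero_of_sum_ne_zero
    (show ∑ i' : Fin κ, u (zv n i') * w (Fin.natAdd n i') ≠ 0 by omega)
  have hi1 : u (zv n i) ≠ 0 := left_ne_zero_of_mul hi
  have hi2 : w (Fin.natAdd n i) ≠ 0 := right_ne_zero_of_mul hi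
  have hp : p i = 0 := by
    by_contra h
    exact hi1 (hz i h)
  rw [aeval_monomial, Finsupp.prod_fintype _ _ fun i => pow_zero _]
  have h5 : ∏ i, (Fin.append X (fun i => C (c i)⁻¹ * p i) i : MvPolynomial (Fin n) K) ^ w i =
      0 := by
    refine Finset.prod_eq_zero (Finset.mem_univ (Fin.natAdd n i)) ?_
    rw [Fin.append_right, hp, mul_zero, zero_pow hi2]
  rw [h5, mul_zero]

end graph

section tuples

variable {n κ r : ℕ}

/-- `H_0 + ∑ y_i H_i` -/
noncomputable def hGK {F : Type} [Field F] (H : Fin (κ + 1) → MvPolynomial (Fin (n + κ)) F) :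
    MvPolynomial (Fin (n + (κ + κ))) F :=
  rename emb (H 0) + ∑ i : Fin κ, X (yv n i) * rename emb (H i.succ)

lemma spa_tupK {F k : Type} [Field F] [Field k] [Algebra F k] (π : Fin r → Fin (κ + 1))
    (m : Fin r → Fin (n + κ) → ℕ) (a : Fin r → k)
    (H : Fin (κ + 1) → MvPolynomial (Fin (n + κ)) F) :
    spa (ex π m) a + MvPolynomial.map (algebraMap F k) (hGK H) =
      rename emb (tupK π m a H 0) +
        ∑ i : Fin κ, X (yv n i) * rename emb (tupK π m a H i.succ) := by
  have he : (Fin.addCases (Fin.castAdd (κ + κ)) fun i => Fin.natAdd n (Fin.natAdd κ i) :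
      Fin (n + κ) → Fin (n + (κ + κ))) = emb := by
    funext v
    refine Fin.addCases (fun i => ?_) (fun i => ?_) v
    · rw [Fin.addCases_left, emb_l]
      rfl
    · rw [Fin.addCases_right, emb_r]
      rfl
  rw [Pool.Agent.Y229.MS.spa_ex, he]
  unfold hGK tupK
  simp only [map_add, map_sum, map_mul, map_X, map_rename, mul_add, Finset.sum_add_distrib]
  have h1 : ∀ i : Fin κ, (X (Fin.natAdd n (Fin.castAdd κ i)) :
      MvPolynomial (Fin (n + (κ + κ))) k) = X (yv n i) := fun i => rfl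
  simp only [h1]
  ring

lemma sum_exQ (π : Fin r → Fin (κ + 1)) (m : Fin r → Fin (n + κ) → ℕ) (l : Fin r → ℚ)
    (v : Fin (n + κ)) : ∑ j, l j * (ex π m j (emb v) : ℚ) = ∑ j, l j * (m j v : ℚ) := by
  refine Finset.sum_congr rfl fun j _ => ?_
  refine Fin.addCases (fun i => ?_) (fun i => ?_) v
  · rw [emb_l, ex_x]
  · rw [emb_r, ex_z]

/-- the monomials of `hGK H` -/
lemma supp_hGK {F : Type} [Field F] (H : Fin (κ + 1) → MvPolynomial (Fin (n + κ)) F)
    (w : Fin (n + (κ + κ)) →₀ ℕ) (hw : w ∈ (hGK H).support) :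
    ∃ i : Fin (κ + 1), ∃ w' ∈ (H i).support, (∀ v, w (emb v) = w' v) ∧
      ∀ i', w (yv n i') = if i = i'.succ then 1 else 0 := by
  classical
  unfold hGK at hw
  have hy : ∀ (w : Fin (n + κ) →₀ ℕ) (i : Fin κ),
      Finsupp.mapDomain (emb : Fin (n + κ) → Fin (n + (κ + κ))) w (yv n i) = 0 := fun w i =>
    Finsupp.mapDomain_of_notMem_range _ _ (by
      rintro ⟨j, hj⟩
      exact emb_ne_y j i hj)
  rcases Finset.mem_union.1 (MvPolynomial.support_add hw) with h1 | h1
  · rw [support_rename_of_injective emb_inj, Finset.mem_image] at h1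
    obtain ⟨w', h2, rfl⟩ := h1
    refine ⟨0, w', h2, fun v => Finsupp.mapDomain_apply emb_inj _ _, fun i' => ?_⟩
    rw [hy, if_neg (Fin.succ_ne_zero i').symm]
  · have h2 := MvPolynomial.support_sum h1
    rw [Finset.mem_biUnion] at h2
    obtain ⟨i0, -, h3⟩ := h2
    rw [mul_comm, MvPolynomial.support_mul_X, Finset.mem_map] at h3
    obtain ⟨w1, h4, rfl⟩ := h3
    rw [support_rename_of_injective emb_inj, Finset.mem_image] at h4
    obtain ⟨w', h2, rfl⟩ := h4
    refine ⟨i0.succ, w', h2, fun v => ?_, fun i' => ?_⟩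
    · rw [addRightEmbedding_apply, Finsupp.add_apply, Finsupp.mapDomain_apply emb_inj,
        Finsupp.single_eq_of_ne (emb_ne_y v i0), add_zero]
    · rw [addRightEmbedding_apply, Finsupp.add_apply, hy, zero_add]
      by_cases h7 : i' = i0
      · subst h7
        rw [Finsupp.single_eq_same, if_pos rfl]
      · rw [Finsupp.single_eq_of_ne (fun h => h7 (y_inj h)), if_neg]
        intro h8
        exact h7 (Fin.succ_injective _ h8).symm

lemma np_hGK {F : Type} [Field F] (π : Fin r → Fin (κ + 1)) (m : Fin r → Fin (n + κ) → ℕ)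
    (H : Fin (κ + 1) → MvPolynomial (Fin (n + κ)) F)
    (hH : ∀ i, ∀ w ∈ (H i).support, NPQ π m i w) :
    ∀ w ∈ (hGK H).support, InNP (ex π m) fun i => w i := by
  classical
  intro w hw
  obtain ⟨i, w', h1, h2, h3⟩ := supp_hGK H w hw
  obtain ⟨l, h4, h5, h6, h7⟩ := hH i w' h1
  refine ⟨l, h4, h5, Pool.Agent.Y229.PS.forall_split (fun v => ?_) fun i' => ?_⟩
  · show ∑ j, l j * (ex π m j (emb v) : ℚ) ≤ (w (emb v) : ℚ)
    rw [sum_exQ, h2]
    exact h7 v
  · show ∑ j, l j * (ex π m j (yv n i') : ℚ) ≤ (w (yv n i') : ℚ)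
    rw [h3]
    split_ifs with h8
    · rw [Nat.cast_one, ← h5]
      refine Finset.sum_le_sum fun j _ => ?_
      rw [ex_y]
      split_ifs
      · rw [Nat.cast_one, mul_one]
      · rw [Nat.cast_zero, mul_zero]
        exact h4 j
    · rw [Nat.cast_zero]
      refine (Finset.sum_eq_zero fun j _ => ?_).le
      by_cases h9 : l j = 0
      · rw [h9, zero_mul]
      · rw [ex_y, if_neg, Nat.cast_zero, mul_zero]
        intro h10
        rcases h6 j h9 with h11 | h11
        · exact h8 (h11.symm.trans h10)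
        · exact (Fin.succ_ne_zero i').symm (h11.symm.trans h10)

lemma vh_hGK {F : Type} [Field F] (π : Fin r → Fin (κ + 1)) (m : Fin r → Fin (n + κ) → ℕ)
    (H : Fin (κ + 1) → MvPolynomial (Fin (n + κ)) F)
    (hvH : ∀ i, ∀ w ∈ (H i).support, ∀ j, π j = i → ¬ ∀ x, w x = m j x) :
    ∀ w ∈ (hGK H).support, ∀ j, ¬ ∀ x, w x = ex π m j x := by
  classical
  intro w hw j hj
  obtain ⟨i, w', h1, h2, h3⟩ := supp_hGK H w hw
  have h4 : ∀ i' : Fin κ, (i = i'.succ ↔ π j = i'.succ) := by
    intro i'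
    have h5 := hj (yv n i')
    rw [h3, ex_y] at h5
    by_cases h6 : i = i'.succ <;> by_cases h7 : π j = i'.succ <;> simp_all
  have h5 : π j = i := by
    rcases Fin.eq_zero_or_eq_succ i with h | ⟨i', h⟩
    · rcases Fin.eq_zero_or_eq_succ (π j) with h' | ⟨i', h'⟩
      · rw [h, h']
      · rw [h', (h4 i').2 h']
    · rw [h, (h4 i').1 h]
  refine hvH i w' h1 j h5 fun x => ?_
  rw [← h2, hj]
  refine Fin.addCases (fun i => ?_) (fun i => ?_) x
  · rw [emb_l, ex_x]
  · rw [emb_r, ex_z]

/-- the weight of `y_i` -/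
def YY (u : Fin (n + (κ + κ)) → ℕ) (i : Fin (κ + 1)) : ℕ :=
  ∑ i' : Fin κ, if i = i'.succ then u (yv n i') else 0

lemma YY_zero (u : Fin (n + (κ + κ)) → ℕ) : YY u 0 = 0 :=
  Finset.sum_eq_zero fun i' _ => by rw [if_neg (Fin.succ_ne_zero i').symm]

lemma YY_succ (u : Fin (n + (κ + κ)) → ℕ) (i : Fin κ) : YY u i.succ = u (yv n i) := by
  unfold YY
  rw [Finset.sum_eq_single i, if_pos rfl]
  · intro i' _ hi'
    rw [if_neg fun h => hi' (Fin.succ_injective _ h).symm]
  · intro h
    exact absurd (Finset.mem_univ _) h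

lemma val_ex (π : Fin r → Fin (κ + 1)) (m : Fin r → Fin (n + κ) → ℕ)
    (u : Fin (n + (κ + κ)) → ℕ) (j : Fin r) :
    ∑ i, u i * ex π m j i = ∑ v, u (emb v) * m j v + YY u (π j) := by
  have h1 : ∑ i, u i * ex π m j i = ∑ i : Fin n, u (xv κ i) * m j (Fin.castAdd κ i) +
      (YY u (π j) + ∑ i : Fin κ, u (zv n i) * m j (Fin.natAdd n i)) := by
    rw [Fin.sum_univ_add, Fin.sum_univ_add]
    congr 1
    · refine Finset.sum_congr rfl fun i _ => ?_
      rw [← ex_x π m j i]
      rfl
    · congr 1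
      · unfold YY
        refine Finset.sum_congr rfl fun i _ => ?_
        have h1 := ex_y π m j i
        unfold yv at h1 ⊢
        rw [h1]
        split_ifs
        · rw [mul_one]
        · rw [mul_zero]
      · refine Finset.sum_congr rfl fun i _ => ?_
        rw [← ex_z π m j i]
        rfl
  rw [h1, Fin.sum_univ_add]
  simp only [emb_l, emb_r]
  ring

lemma ord_tupK {F k : Type} [Field F] [Field k] [Algebra F k] (π : Fin r → Fin (κ + 1))
    (m : Fin r → Fin (n + κ) → ℕ) (a : Fin r → k)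
    (H : Fin (κ + 1) → MvPolynomial (Fin (n + κ)) F)
    (hH : ∀ i, ∀ w ∈ (H i).support, NPQ π m i w)
    (u : Fin (n + (κ + κ)) → ℕ) (L : ℕ) (hu : ∀ j, L ≤ ∑ i, u i * ex π m j i)
    (i : Fin (κ + 1)) (w : Fin (n + κ) →₀ ℕ) (hw : coeff w (tupK π m a H i) ≠ 0) :
    L ≤ ∑ v, u (emb v) * w v + YY u i := by
  classical
  unfold tupK at hw
  rw [coeff_add] at hw
  by_cases h1 : coeff w (fam π m a i) = 0
  · rw [h1, zero_add, coeff_map] at hw
    have h2 : w ∈ (H i).support := by
      rw [mem_support_iff]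
      intro h0
      apply hw
      rw [h0, map_zero]
    obtain ⟨l, h4, h5, h6, h7⟩ := hH i w h2
    have h8 : (L : ℚ) ≤ ((∑ v, u (emb v) * w v + YY u i : ℕ) : ℚ) := by
      calc (L : ℚ) = ∑ j, l j * (L : ℚ) := by rw [← Finset.sum_mul, h5, one_mul]
        _ ≤ ∑ j, l j * ((∑ v, (u (emb v) : ℚ) * (m j v : ℚ)) + (YY u i : ℚ)) := by
          refine Finset.sum_le_sum fun j _ => ?_
          by_cases h9 : l j = 0
          · rw [h9, zero_mul, zero_mul]
          · refine mul_le_mul_of_nonneg_left ?_ (h4 j)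
            have h10 := hu j
            rw [val_ex] at h10
            have h11 : YY u (π j) ≤ YY u i := by
              rcases h6 j h9 with h | h
              · rw [h]
              · rw [h, YY_zero]
                exact Nat.zero_le _
            have h12 : L ≤ ∑ v, u (emb v) * m j v + YY u i := h10.trans (by omega)
            exact_mod_cast h12
        _ = ∑ v, (u (emb v) : ℚ) * (∑ j, l j * (m j v : ℚ)) + (YY u i : ℚ) := by
          simp only [mul_add, Finset.sum_add_distrib, ← Finset.sum_mul, h5, one_mul]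
          congr 1
          simp only [Finset.mul_sum]
          rw [Finset.sum_comm]
          refine Finset.sum_congr rfl fun v _ => Finset.sum_congr rfl fun j _ => by ring
        _ ≤ ∑ v, (u (emb v) : ℚ) * (w v : ℚ) + (YY u i : ℚ) := by
          refine add_le_add ?_ le_rfl
          exact Finset.sum_le_sum fun v _ =>
            mul_le_mul_of_nonneg_left (h7 v) (Nat.cast_nonneg _)
        _ = ((∑ v, u (emb v) * w v + YY u i : ℕ) : ℚ) := by push_cast; rfl
    exact_mod_cast h8
  · unfold fam at h1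
    rw [coeff_sum] at h1
    obtain ⟨j, hj, hne⟩ := Finset.exists_ne_zero_of_sum_ne_zero h1
    have hj' := (Finset.mem_filter.1 hj).2
    have h2 : (C (a j) * ∏ v, X v ^ m j v : MvPolynomial (Fin (n + κ)) k) =
        monomial (Finsupp.equivFunOnFinite.symm (m j)) (a j) := by
      rw [monomial_eq, Finsupp.prod_fintype _ _ fun i => pow_zero _]
      rfl
    rw [h2, coeff_monomial] at hne
    have h3 : Finsupp.equivFunOnFinite.symm (m j) = w := by
      by_contra h
      rw [if_neg h] at hne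
      exact hne rfl
    have h4 : ∀ v, w v = m j v := fun v => by rw [← h3]; rfl
    have h5 := hu j
    rw [val_ex, hj'] at h5
    simpa only [h4] using h5

lemma NPQ.ne {π : Fin r → Fin (κ + 1)} {m : Fin r → Fin n → ℕ} {i : Fin (κ + 1)}
    {w : Fin n →₀ ℕ} (h : NPQ π m i w) (hm : ∀ j, m j ≠ 0) : w ≠ 0 := by
  rintro rfl
  obtain ⟨l, h1, h2, -, h4⟩ := h
  have h5 : ∀ j, l j = 0 := by
    intro j
    obtain ⟨x, hx⟩ : ∃ x, m j x ≠ 0 := by
      by_contra hcon
      push Not at hcon
      exact hm j (funext hcon)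
    have h6 := h4 x
    rw [Finsupp.coe_zero, Pi.zero_apply, Nat.cast_zero] at h6
    have h7 : ∀ j', 0 ≤ l j' * (m j' x : ℚ) := fun j' => mul_nonneg (h1 j') (Nat.cast_nonneg _)
    have h8 := (Finset.sum_eq_zero_iff_of_nonneg (fun j' _ => h7 j')).1
      (le_antisymm h6 (Finset.sum_nonneg fun j' _ => h7 j')) j (Finset.mem_univ j)
    rcases mul_eq_zero.1 h8 with h9 | h9
    · exact h9
    · exact absurd (by exact_mod_cast h9) hx
  simp only [h5, Finset.sum_const_zero] at h2
  exact zero_ne_one h2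

lemma tupK_zero {F k : Type} [Field F] [Field k] [Algebra F k] (π : Fin r → Fin (κ + 1))
    (m : Fin r → Fin n → ℕ) (hm : ∀ j, m j ≠ 0) (a : Fin r → k)
    (H : Fin (κ + 1) → MvPolynomial (Fin n) F)
    (hH : ∀ i, ∀ w ∈ (H i).support, NPQ π m i w) (i : Fin (κ + 1)) :
    constantCoeff (tupK π m a H i) = 0 := by
  have h0 : constantCoeff (fam π m a i) = 0 := by
    unfold fam
    rw [map_sum]
    refine Finset.sum_eq_zero fun j _ => ?_
    rw [map_mul, map_prod]
    obtain ⟨v, hv⟩ : ∃ v, m j v ≠ 0 := by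
      by_contra hcon
      push Not at hcon
      exact hm j (funext hcon)
    rw [Finset.prod_eq_zero (Finset.mem_univ v), mul_zero]
    rw [map_pow, MvPolynomial.constantCoeff_X, zero_pow hv]
  unfold tupK
  rw [map_add, h0, zero_add, constantCoeff_eq, coeff_map]
  by_contra hne
  have h1 : (0 : Fin n →₀ ℕ) ∈ (H i).support := by
    rw [mem_support_iff]
    intro h0
    apply hne
    rw [h0, map_zero]
  exact (hH i 0 h1).ne hm rfl

end tuples

open Pool.Agent.W428.MOT (MK zeta)
open Pool.Agent.H628R4.TP (IsLocalBFunction)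
open Pool.Agent.W426.SM (gord IsRay)
open Pool.Agent.W803.SM (gord_le)
open Pool.Agent.TH216.MF (ratR)
open Pool.Agent.Y228.HX (uX ChiY)

/-- the conclusion for `f` and the candidate poles `S` -/
def Con {k : Type} [Field k] [Algebra k ℂ] {n : ℕ} (f : MvPolynomial (Fin n) k)
    (S : Finset (ℤ × ℤ)) : Prop :=
  (∀ p ∈ S, ∀ b : Polynomial ℂ, IsLocalBFunction (MvPolynomial.map (algebraMap k ℂ) f) b →
    b.eval ((p.1 : ℂ) / p.2) = 0) ∧
  ∀ (K : Type) [Field K] [Algebra k K] (φ : MK K →+* RatFunc ℚ), ChiY φ →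
    PowerSeries.map φ (zeta (MvPolynomial.map (algebraMap k K) f) 0) ∈ ratR uX S

/-- **Compositions.** -/
theorem comp {F : Type} [Field F] [Algebra F ℂ] {r n κ : ℕ} (hr : 0 < r)
    (π : Fin r → Fin (κ + 1)) (m : Fin r → Fin (n + κ) → ℕ)
    (hinj : ∀ j j', π j = π j' → m j = m j' → j = j') (hm : ∀ j, m j ≠ 0)
    (H : Fin (κ + 1) → MvPolynomial (Fin (n + κ)) F)
    (hH : ∀ i, ∀ w ∈ (H i).support, NPQ π m i w)
    (hvH : ∀ i, ∀ w ∈ (H i).support, ∀ j, π j = i → ¬ ∀ x, w x = m j x) :
    ∃ (g : MvPolynomial (Fin r) F) (S : Finset (ℤ × ℤ)), g ≠ 0 ∧ (∀ p ∈ S, 0 < p.2) ∧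
      ∀ (k : Type) [Field k] [Algebra F k] [Algebra k ℂ] [IsScalarTower F k ℂ] (a : Fin r → k),
        aeval a g ≠ 0 →
        (∀ (c : Fin κ → k) (p : Fin κ → MvPolynomial (Fin n) k), (∀ i, c i ≠ 0) →
          (∀ i : Fin κ, tupK π m a H i.succ = C (c i) * X (Fin.natAdd n i) -
            rename (Fin.castAdd κ) (p i)) →
          (∀ i : Fin κ, coeff (Finsupp.single (Fin.natAdd n i) 1) (tupK π m a H 0) = 0) →
          ∀ f : MvPolynomial (Fin n) k, f = aeval (Fin.append X fun i => C (c i)⁻¹ * p i)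
            (tupK π m a H 0) → f ≠ 0 → (∀ p ∈ S, p.1 < 0) ∧ Con f S) ∧
        ∀ θ : MvPolynomial (Fin (n + κ)) k ≃ₐ[k] MvPolynomial (Fin (n + κ)) k,
          (∀ i, θ (X (Fin.castAdd κ i)) = X (Fin.castAdd κ i)) →
          (∀ i, θ (X (Fin.natAdd n i)) = tupK π m a H i.succ) →
          ∀ (f : MvPolynomial (Fin n) k) (q : Fin κ → MvPolynomial (Fin (n + κ)) k), f ≠ 0 →
            tupK π m a H 0 = rename (Fin.castAdd κ) f + ∑ i, q i * tupK π m a H i.succ →
            (∀ i, constantCoeff (q i) = 0) → Con f S := by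
  classical
  obtain ⟨g, S, hg, hS, hmain⟩ := stably hr (ex π m) (Pool.Agent.Y229.RE.ex_inj π m hinj)
    (Pool.Agent.Y229.RE.ex_ne_zero π m hm) (hGK H) (np_hGK π m H hH) (vh_hGK π m H hvH)
  refine ⟨g, S, hg, fun p hp => (hS p hp).1, fun k _ _ _ _ a ha => ⟨?_, ?_⟩⟩
  · intro c p hc hl hΦ f hf hf0
    have hp0 : ∀ i, constantCoeff (p i) = 0 := by
      intro i
      have h1 := tupK_zero π m hm a H hH i.succ
      rw [hl, map_sub, map_mul, constantCoeff_X, mul_zero, constantCoeff_rename, zero_sub,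
        neg_eq_zero] at h1
      exact h1
    refine ⟨?_, ?_⟩
    · have hpos : ∀ (u : Fin (n + (κ + κ)) → ℕ) (L : ℕ), 0 < L →
          (∀ j, L ≤ ∑ i, u i * ex π m j i) → κ * L < ∑ i, u i := by
        intro u L hL hu
        refine ray_posK (tupK π m a H 0) c hc p (hf ▸ hf0) u L hL (fun w hw => ?_)
          fun i w hw => ?_
        · have h1 := ord_tupK π m a H hH u L hu 0 w hw
          rwa [YY_zero, add_zero] at h1
        · rw [← hl] at hw
          have h1 := ord_tupK π m a H hH u L hu i.succ w hw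
          rwa [YY_succ] at h1
      intro q hq
      rcases (hS q hq).2 with rfl | ⟨u, hu, hg, rfl⟩ | ⟨u, hu, hg, rfl⟩
      · norm_num
      · have h1 := hpos u (gord (ex π m) u) hg fun j => gord_le _ _ j
        show -((∑ i, u i : ℕ) : ℤ) + κ * (gord (ex π m) u : ℤ) < 0
        have h2 : ((κ * gord (ex π m) u : ℕ) : ℤ) < ((∑ i, u i : ℕ) : ℤ) := by exact_mod_cast h1
        push_cast at h2 ⊢
        linarith
      · set L := gord (exyz (ex π m)) u with hL
        have hle : ∀ j, L ≤ ∑ i, u i * exyz (ex π m) j i := fun j => gord_le _ _ j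
        have h1 := hpos (fun i => u (Fin.castAdd 2 i)) L hg (by
          intro j
          have h2 := hle j.succ
          rw [Fin.sum_univ_add] at h2
          simpa [exyz, Fin.cons_succ, Fin.append_left, Fin.append_right] using h2)
        have h3 : L ≤ ∑ i : Fin 2, u (Fin.natAdd (n + (κ + κ)) i) := by
          have h2 := hle 0
          rw [Fin.sum_univ_add] at h2
          simpa [exyz, Fin.cons_zero, Fin.append_left, Fin.append_right] using h2
        have h4 : ∑ i, u i = ∑ i : Fin (n + (κ + κ)), u (Fin.castAdd 2 i) +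
            ∑ i : Fin 2, u (Fin.natAdd (n + (κ + κ)) i) := Fin.sum_univ_add u
        have h5 : (κ + 1) * L < ∑ i, u i := by
          rw [h4, add_mul, one_mul]
          omega
        show -((∑ i, u i : ℕ) : ℤ) + ((κ + 1 : ℕ) : ℤ) * (L : ℤ) < 0
        have h6 : (((κ + 1) * L : ℕ) : ℤ) < ((∑ i, u i : ℕ) : ℤ) := by exact_mod_cast h5
        push_cast at h6 ⊢
        linarith
    · refine hmain k a ha f hf0 ?_
      rw [hf, spa_tupK]
      simp only [hl]
      exact iso0_comp c hc p hp0 _ hΦ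
  · intro θ hx hz f q hf0 hF hq0
    refine hmain k a ha f hf0 ?_
    rw [spa_tupK]
    exact iso0_graph _ _ θ hx hz f q hF (fun i => tupK_zero π m hm a H hH i.succ) hq0

end Pool.Agent.J4.H70.CC
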