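import Pool.Agent.N101.CB.Loc
import Pool.Agent.Y229.MS.Fin
import Pool.Agent.Y228.HX.D3

/-!
# The local motivic zeta functions of `f`, `f + y z` and `f + y z + y' z'`

The elimination of `Pool.Agent.Y229.MS.elim` for the jets with origin at `0`.
-/

set_option autoImplicit false

namespace Pool.Agent.J4.H70.CC

open MvPolynomial Pool.Agent.W428.MOT
open Pool.Agent.W375.MG (JetG zetaG Good)
open Pool.Agent.W63.MTFin (mapMeas L_mul)
open Pool.Agent.Y229.MS (addyz Wyz CE Tl ce_zero chi_pt phi_level' phi_succ elim rescale_X'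
  rescale_C')
open Pool.Agent.N101.CB (Wo chi_Tl constr_Wo)
open Pool.Agent.Z864.MS (coeff_zero_aeval)
open Pool.Agent.Y228.HX (W00 mem_W00 zeta_zetaG)

section
variable {K : Type} [Field K] {n : ℕ} {R : Type} [CommRing R]

/-- the zeta function without constant term -/
noncomputable def zl (M : Meas K R) (Y : R) (f : MvPolynomial (Fin n) K) (W : Set (Pt K (Fin n)))
    (E : Set (AlgebraicClosure K)) : PowerSeries R :=
  PowerSeries.mk fun N => if N = 0 then 0 else M.χ _ (JetG f W E N) * Y ^ (n * N)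

/-- the sums of the tails -/
noncomputable def psi (M : Meas K R) (Y : R) (f : MvPolynomial (Fin n) K)
    (W : Set (Pt K (Fin n))) : PowerSeries R :=
  PowerSeries.mk fun N => ∑ i ∈ Finset.Ico 2 (N + 1), M.χ _ (Tl f W i i) * Y ^ (n * i)

theorem psi_mul (M : Meas K R) (Y : R) (hL : M.L * Y = 1)
    (f : MvPolynomial (Fin n) K) (W : Set (Pt K (Fin n))) (hW : Constr W) :
    psi M Y f W * (1 - PowerSeries.X) = PowerSeries.X * zl M Y f W {0} := by
  ext N
  rw [mul_sub, mul_one, map_sub, mul_comm PowerSeries.X (zl M Y f W {0})]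
  rcases N with _ | N
  · rw [PowerSeries.coeff_zero_mul_X, PowerSeries.coeff_zero_mul_X, sub_zero, psi,
      PowerSeries.coeff_mk]
    rfl
  · rw [PowerSeries.coeff_succ_mul_X, PowerSeries.coeff_succ_mul_X, psi, PowerSeries.coeff_mk,
      PowerSeries.coeff_mk, zl, PowerSeries.coeff_mk]
    rcases Nat.eq_zero_or_pos N with rfl | hN
    · rw [if_pos rfl]
      simp
    · rw [if_neg hN.ne', Finset.sum_Ico_succ_top (by omega : 2 ≤ N + 1),
        phi_succ Pool.Agent.Y812.MS.two M Y hL f W hW N]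
      ring

theorem tl_one (f : MvPolynomial (Fin n) K) (W : Set (Pt K (Fin n)))
    (h0 : ∀ z ∈ W, aeval z f = 0) (N : ℕ) : Tl f W 1 N = Tl f W 0 N := by
  ext z
  constructor
  · rintro ⟨h, -⟩
    exact ⟨h, fun j hj => absurd hj (Nat.not_lt_zero j)⟩
  · rintro ⟨h, -⟩
    refine ⟨h, fun j hj => ?_⟩
    have hj0 : j = 0 := by omega
    rw [hj0, coeff_zero_aeval]
    exact h0 _ h

/-- **the class of the jets of `f + y z` with `y(0) = z(0) = 0`** -/
theorem chi_Wo (M : Meas K R) (f : MvPolynomial (Fin n) K) {W : Set (Pt K (Fin n))}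
    (hW : Constr W) {E : Set (AlgebraicClosure K)} (hE : CE E) (h0 : ∀ z ∈ W, aeval z f = 0)
    (N : ℕ) (hN : 1 ≤ N) :
    M.χ _ (JetG (addyz f) (Wo W) E N) = M.χ _ (JetG f W E N) * M.L ^ (N + 1) +
      M.χ (Fin 1) {a | a 0 ∈ E} * (M.L - 1) * M.L ^ N *
        ∑ i ∈ Finset.Ico 2 (N + 1), M.χ _ (Tl f W i N) := by
  have h1 := Pool.Agent.N101.CB.loc K R M f W E hW hE h0 N hN
  have h2 := Pool.Agent.Y229.MS.t1 K R M f W E hW hE N
  have h3 : ∑ i ∈ Finset.range (N + 1), M.χ _ (Tl f W i N) =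
      2 * (M.χ (Fin n) W * M.L ^ (n * N)) +
        ∑ i ∈ Finset.Ico 2 (N + 1), M.χ _ (Tl f W i N) := by
    rw [Finset.range_eq_Ico, Finset.sum_eq_sum_Ico_succ_bot (by omega : 0 < N + 1),
      Finset.sum_eq_sum_Ico_succ_bot (by omega : 0 + 1 < N + 1), zero_add, tl_one f W h0 N,
      chi_Tl M f hW N]
    ring
  rw [h3, h1] at h2
  linear_combination h2

/-- **The relation of the zeta functions.** -/
theorem relo (M : Meas K R) (Y : R) (hL : M.L * Y = 1)
    (f : MvPolynomial (Fin n) K) {W : Set (Pt K (Fin n))} (hW : Constr W)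
    {E : Set (AlgebraicClosure K)} (hE : CE E) (h0 : ∀ z ∈ W, aeval z f = 0) :
    PowerSeries.rescale M.L (zl M Y (addyz f) (Wo W) E) =
      PowerSeries.C M.L * zl M Y f W E +
        PowerSeries.C (M.χ (Fin 1) {a | a 0 ∈ E} * (M.L - 1)) * psi M Y f W := by
  ext N
  rw [PowerSeries.coeff_rescale, map_add, PowerSeries.coeff_C_mul, PowerSeries.coeff_C_mul, zl, zl,
    psi, PowerSeries.coeff_mk, PowerSeries.coeff_mk, PowerSeries.coeff_mk]
  rcases Nat.eq_zero_or_pos N with rfl | hN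
  · simp
  · rw [if_neg hN.ne', if_neg hN.ne', chi_Wo M f hW hE h0 N hN]
    have h3 : ∑ i ∈ Finset.Ico 2 (N + 1), M.χ _ (Tl f W i i) * Y ^ (n * i) =
        (∑ i ∈ Finset.Ico 2 (N + 1), M.χ _ (Tl f W i N)) * Y ^ (n * N) := by
      rw [Finset.sum_mul]
      refine Finset.sum_congr rfl fun i hi => ?_
      rw [phi_level' Pool.Agent.Y812.MS.two M Y hL f W hW i N
        (Nat.lt_succ_iff.1 (Finset.mem_Ico.1 hi).2)]
    rw [h3]
    have h4 : M.L ^ N * Y ^ N = 1 := by rw [← mul_pow, hL, one_pow]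
    have h5 : Y ^ ((n + 2) * N) = Y ^ (n * N) * (Y ^ N * Y ^ N) := by
      rw [← pow_add, ← pow_add]
      congr 1
      ring
    rw [h5, pow_succ]
    set A := M.χ _ (JetG f W E N)
    set B := ∑ i ∈ Finset.Ico 2 (N + 1), M.χ _ (Tl f W i N)
    set e := M.χ (Fin 1) {a | a 0 ∈ E}
    linear_combination ((A * M.L + e * (M.L - 1) * B) * Y ^ (n * N) *
      (M.L ^ N * Y ^ N + 1)) * h4

theorem addyz_zero (f : MvPolynomial (Fin n) K) {W : Set (Pt K (Fin n))}
    (h0 : ∀ z ∈ W, aeval z f = 0) : ∀ z ∈ Wo W, aeval z (addyz f) = 0 := by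
  rintro z ⟨h1, h2, h3⟩
  rw [addyz, map_add, map_mul, aeval_X, aeval_X, h2, h3, mul_zero, add_zero, aeval_rename]
  exact h0 _ h1

/-- **The elimination for the jets with `y(0) = z(0) = 0`.** -/
theorem keyW (M : Meas K R) (Y : R) (hL : M.L * Y = 1)
    (f : MvPolynomial (Fin n) K) {W : Set (Pt K (Fin n))} (hW : Constr W)
    {E : Set (AlgebraicClosure K)} (hE : CE E) (h0 : ∀ z ∈ W, aeval z f = 0) :
    (1 - PowerSeries.C Y * PowerSeries.X) * zl M Y f W E =
      PowerSeries.C (Y ^ 3) * ((PowerSeries.C M.L * PowerSeries.C M.L + PowerSeries.C M.L) *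
        PowerSeries.rescale M.L ((1 - PowerSeries.C Y * PowerSeries.X) *
          zl M Y (addyz f) (Wo W) E) -
        PowerSeries.rescale M.L (PowerSeries.rescale M.L
          ((1 - PowerSeries.C Y * PowerSeries.X) * zl M Y (addyz (addyz f)) (Wo (Wo W)) E))) := by
  have r0 := relo M Y hL f hW hE h0
  have r1 := relo M Y hL (addyz f) (constr_Wo hW) hE (addyz_zero f h0)
  have r2 := relo M Y hL f hW ce_zero h0
  rw [chi_pt, one_mul] at r2
  have p0 := psi_mul M Y hL f W hW
  have p1 := psi_mul M Y hL (addyz f) (Wo W) (constr_Wo hW)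
  set e : R := M.χ (Fin 1) {a | a 0 ∈ E} * (M.L - 1) with he
  refine elim M.L Y hL (zl M Y f W E) (zl M Y (addyz f) (Wo W) E)
    (zl M Y (addyz (addyz f)) (Wo (Wo W)) E) (PowerSeries.C e * (PowerSeries.X * zl M Y f W {0}))
    (PowerSeries.C e * (PowerSeries.X * zl M Y (addyz f) (Wo W) {0})) ?_ ?_ ?_
  · rw [r0]
    linear_combination (PowerSeries.C e) * p0
  · rw [r1]
    linear_combination (PowerSeries.C e) * p1
  · rw [map_mul (PowerSeries.rescale M.L), rescale_C',
      map_mul (PowerSeries.rescale M.L) PowerSeries.X, rescale_X', r2]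
    rw [map_sub PowerSeries.C M.L 1, map_one]
    linear_combination (PowerSeries.C e * PowerSeries.C M.L * PowerSeries.X *
      (PowerSeries.C M.L - 1)) * p0

theorem Wo_W00 (n : ℕ) : Wo (W00 K n) = W00 K (n + 2) := by
  ext z
  rw [mem_W00]
  constructor
  · rintro ⟨h1, h2, h3⟩ i
    refine Fin.addCases (fun i => ?_) (fun j => ?_) i
    · exact (mem_W00 _ _).1 h1 i
    · fin_cases j
      · exact h2
      · exact h3
  · intro h
    exact ⟨(mem_W00 _ _).2 fun i => h _, h _, h _⟩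

end

/-- the factor `1 - 𝕃⁻¹ T` -/
noncomputable def fst (K : Type) [Field K] : PowerSeries (MK K) :=
  1 - PowerSeries.C (((Lu K)⁻¹ : (MK K)ˣ) : MK K) * PowerSeries.X

/-- **The elimination for the local motivic zeta functions at the origin.** -/
theorem key {K : Type} [Field K] [CharZero K] {n : ℕ} (f : MvPolynomial (Fin n) K)
    (hf : constantCoeff f = 0) :
    fst K * zeta f 0 =
      PowerSeries.C ((((Lu K)⁻¹ : (MK K)ˣ) : MK K) ^ 3) *
        ((PowerSeries.C ((Lu K : (MK K)ˣ) : MK K) * PowerSeries.C ((Lu K : (MK K)ˣ) : MK K) +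
          PowerSeries.C ((Lu K : (MK K)ˣ) : MK K)) *
          PowerSeries.rescale ((Lu K : (MK K)ˣ) : MK K) (fst K * zeta (addyz f) 0) -
        PowerSeries.rescale ((Lu K : (MK K)ˣ) : MK K)
          (PowerSeries.rescale ((Lu K : (MK K)ˣ) : MK K)
            (fst K * zeta (addyz (addyz f)) 0))) := by
  obtain ⟨M₀, hM₀⟩ := Pool.Agent.W417.MT.K0.main K
  set M := mapMeas M₀ (algebraMap (K0 K) (MK K)) with hM
  set Y : MK K := (((Lu K)⁻¹ : (MK K)ˣ) : MK K) with hY
  have hL : M.L * Y = 1 := L_mul hM₀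
  have hML : M.L = ((Lu K : (MK K)ˣ) : MK K) := by
    have h2 : ((Lu K : (MK K)ˣ) : MK K) * Y = 1 := Units.mul_inv _
    calc M.L = M.L * (((Lu K : (MK K)ˣ) : MK K) * Y) := by rw [h2, mul_one]
      _ = (M.L * Y) * ((Lu K : (MK K)ˣ) : MK K) := by ring
      _ = _ := by rw [hL, one_mul]
  have hz : ∀ {a : ℕ} (g : MvPolynomial (Fin a) K),
      zeta g 0 = zl M Y g (W00 K a) {1} := by
    intro a g
    rw [zeta_zetaG]
    ext N
    rw [map_sub, PowerSeries.coeff_C, zl, PowerSeries.coeff_mk]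
    by_cases hN : N = 0
    · subst hN
      rw [if_pos rfl, if_pos rfl, sub_self]
    · rw [if_neg hN, if_neg hN, sub_zero, zetaG, PowerSeries.coeff_mk, zpow_neg, zpow_natCast,
        ← inv_pow, Units.val_pow_eq_pow_val, ← hM₀]
      rfl
  have h0 : ∀ z ∈ W00 K n, aeval z f = 0 := by
    intro z hz0
    have h1 : z = 0 := funext fun i => (mem_W00 _ _).1 hz0 i
    rw [h1, MvPolynomial.aeval_zero, hf, map_zero]
  have hk := keyW M Y hL f (Pool.Agent.W425.MM.constr_pt (0 : Fin n → K))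
    (Pool.Agent.Y229.MS.ce_good Pool.Agent.W375.MG.good_one) h0
  change (1 - PowerSeries.C Y * PowerSeries.X) * zl M Y f (W00 K n) {1} =
      PowerSeries.C (Y ^ 3) * ((PowerSeries.C M.L * PowerSeries.C M.L + PowerSeries.C M.L) *
        PowerSeries.rescale M.L ((1 - PowerSeries.C Y * PowerSeries.X) *
          zl M Y (addyz f) (Wo (W00 K n)) {1}) -
        PowerSeries.rescale M.L (PowerSeries.rescale M.L
          ((1 - PowerSeries.C Y * PowerSeries.X) *
            zl M Y (addyz (addyz f)) (Wo (Wo (W00 K n))) {1}))) at hk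
  rw [Wo_W00, Wo_W00, ← hz f, ← hz (addyz f), ← hz (addyz (addyz f)), hML] at hk
  exact hk

section spec

open Pool.Agent.TH216.MF (ratR geoR_mul geoR_mem XR_mem CR_mem)
open Pool.Agent.Y229.MS (shn shn_pos shn_shn shn_union itr)

variable {R : Type} [CommRing R]

theorem map_rescale {A B : Type} [CommRing A] [CommRing B] (φ : A →+* B) (a : A)
    (z : PowerSeries A) : PowerSeries.map φ (PowerSeries.rescale a z) =
      PowerSeries.rescale (φ a) (PowerSeries.map φ z) := by
  ext N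
  rw [PowerSeries.coeff_map, PowerSeries.coeff_rescale, PowerSeries.coeff_rescale,
    PowerSeries.coeff_map, map_mul, map_pow]

theorem ratR_mono (u : Rˣ) {S T : Set (ℤ × ℤ)} (h : S ⊆ T) {z : PowerSeries R}
    (hz : z ∈ ratR u S) : z ∈ ratR u T := by
  unfold ratR at hz ⊢
  refine Algebra.adjoin_mono (Set.union_subset_union_right _ ?_) hz
  rintro g ⟨p, hp, rfl⟩
  exact ⟨p, h hp, rfl⟩

theorem rescale_geoR (u : Rˣ) (a b : ℤ) (hb : 0 < b) :
    PowerSeries.rescale (u : R) (geoR u a b) = geoR u (a + b) b := by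
  have h1 := congrArg (PowerSeries.rescale (u : R)) (geoR_mul u a b hb)
  have h2 := geoR_mul u (a + b) b hb
  have h3 : PowerSeries.C ((u ^ a : Rˣ) : R) *
      (PowerSeries.C (u : R) * PowerSeries.X) ^ b.toNat =
      PowerSeries.C ((u ^ (a + b) : Rˣ) : R) * PowerSeries.X ^ b.toNat := by
    have h4 : ((u ^ (a + b) : Rˣ) : R) = ((u ^ a : Rˣ) : R) * (u : R) ^ b.toNat := by
      rw [← Units.val_pow_eq_pow_val, ← Units.val_mul, ← zpow_natCast, ← zpow_add,
        Int.toNat_of_nonneg hb.le]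
    rw [h4, mul_pow, map_mul, map_pow]
    ring
  rw [map_mul, map_one, map_sub, map_one, map_mul, rescale_C', map_pow, rescale_X', h3] at h1
  calc PowerSeries.rescale (u : R) (geoR u a b)
      = ((1 - PowerSeries.C ((u ^ (a + b) : Rˣ) : R) * PowerSeries.X ^ b.toNat) *
          geoR u (a + b) b) * PowerSeries.rescale (u : R) (geoR u a b) := by
        rw [h2, one_mul]
    _ = geoR u (a + b) b *
        ((1 - PowerSeries.C ((u ^ (a + b) : Rˣ) : R) * PowerSeries.X ^ b.toNat) *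
          PowerSeries.rescale (u : R) (geoR u a b)) := by ring
    _ = geoR u (a + b) b := by rw [h1, mul_one]

theorem rescale_memR (u : Rˣ) {S : Set (ℤ × ℤ)} (hS : ∀ p ∈ S, 0 < p.2) {z : PowerSeries R}
    (hz : z ∈ ratR u S) : PowerSeries.rescale (u : R) z ∈ ratR u (shn 1 S) := by
  unfold ratR at hz
  refine Algebra.adjoin_induction (p := fun z _ =>
    PowerSeries.rescale (u : R) z ∈ ratR u (shn 1 S)) ?_ ?_ ?_ ?_ hz
  · rintro x (hx | ⟨p, hp, rfl⟩)
    · rw [Set.mem_singleton_iff] at hx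
      rw [hx, rescale_X']
      exact (ratR u _).mul_mem (CR_mem u _ _) (XR_mem u _)
    · rw [rescale_geoR _ _ _ (hS p hp)]
      refine geoR_mem u (p := (p.1 + p.2, p.2)) ⟨p, hp, ?_⟩
      push_cast
      rw [one_mul]
  · intro r
    rw [PowerSeries.algebraMap_apply, Algebra.algebraMap_self, RingHom.id_apply, rescale_C']
    exact CR_mem u _ _
  · intro x y _ _ hx hy
    rw [map_add]
    exact (ratR u _).add_mem hx hy
  · intro x y _ _ hx hy
    rw [map_mul]
    exact (ratR u _).mul_mem hx hy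

/-- **One step.** -/
theorem stepR {K : Type} [Field K] [CharZero K] (φ : MK K →+* R) {n : ℕ}
    (f : MvPolynomial (Fin n) K) (hf : constantCoeff f = 0) {S1 S2 : Set (ℤ × ℤ)}
    (hS1 : ∀ p ∈ S1, 0 < p.2) (hS2 : ∀ p ∈ S2, 0 < p.2)
    (hz1 : PowerSeries.map φ (fst K * zeta (addyz f) 0) ∈
      ratR (Units.map (φ : MK K →* R) (Lu K)) S1)
    (hz2 : PowerSeries.map φ (fst K * zeta (addyz (addyz f)) 0) ∈
      ratR (Units.map (φ : MK K →* R) (Lu K)) S2) :
    PowerSeries.map φ (fst K * zeta f 0) ∈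
      ratR (Units.map (φ : MK K →* R) (Lu K)) (shn 1 S1 ∪ shn 1 (shn 1 S2)) := by
  set u : Rˣ := Units.map (φ : MK K →* R) (Lu K) with hu
  have hul : φ ((Lu K : (MK K)ˣ) : MK K) = (u : R) := rfl
  rw [key f hf, map_mul, map_sub, map_mul, map_rescale, map_rescale, map_rescale, hul,
    PowerSeries.map_C, map_add, map_mul, PowerSeries.map_C]
  have m1 := ratR_mono u (T := shn 1 S1 ∪ shn 1 (shn 1 S2)) Set.subset_union_left
    (rescale_memR u hS1 hz1)
  have m2 := ratR_mono u (T := shn 1 S1 ∪ shn 1 (shn 1 S2)) Set.subset_union_right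
    (rescale_memR u (shn_pos hS2) (rescale_memR u hS2 hz2))
  exact (ratR u _).mul_mem (CR_mem u _ _) ((ratR u _).sub_mem ((ratR u _).mul_mem
    ((ratR u _).add_mem ((ratR u _).mul_mem (CR_mem u _ _) (CR_mem u _ _)) (CR_mem u _ _)) m1)
    m2)

theorem addyz_cc {K : Type} [Field K] {n : ℕ} (f : MvPolynomial (Fin n) K) :
    constantCoeff (addyz f) = constantCoeff f := by
  unfold addyz
  rw [map_add, map_mul, constantCoeff_X, zero_mul, add_zero, constantCoeff_rename]

theorem itr_cc {K : Type} [Field K] {n : ℕ} (f : MvPolynomial (Fin n) K) :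
    ∀ κ : ℕ, constantCoeff (itr f κ) = constantCoeff f
  | 0 => rfl
  | κ + 1 => by
    rw [← itr_cc f κ]
    exact addyz_cc _

/-- **Descent.** -/
theorem descendR {K : Type} [Field K] [CharZero K] (φ : MK K →+* R) {n : ℕ}
    (f : MvPolynomial (Fin n) K) (hf : constantCoeff f = 0) :
    ∀ (κ : ℕ) (S1 S2 : Set (ℤ × ℤ)), (∀ p ∈ S1, 0 < p.2) → (∀ p ∈ S2, 0 < p.2) →
      PowerSeries.map φ (fst K * zeta (itr f κ) 0) ∈
        ratR (Units.map (φ : MK K →* R) (Lu K)) S1 →
      PowerSeries.map φ (fst K * zeta (addyz (itr f κ)) 0) ∈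
        ratR (Units.map (φ : MK K →* R) (Lu K)) S2 →
      PowerSeries.map φ (fst K * zeta f 0) ∈
        ratR (Units.map (φ : MK K →* R) (Lu K)) (shn κ S1 ∪ shn (κ + 1) S2) := by
  intro κ
  induction κ with
  | zero =>
    intro S1 S2 _ _ hz1 _
    refine ratR_mono _ ?_ hz1
    intro p hp
    refine Or.inl ⟨p, hp, ?_⟩
    simp
  | succ κ ih =>
    intro S1 S2 hS1 hS2 hz1 hz2
    have h3 := stepR φ (itr f κ) ((itr_cc f κ).trans hf) hS1 hS2 hz1 hz2
    have h4 := ih (shn 1 S1 ∪ shn 1 (shn 1 S2)) S1 ?_ hS1 h3 hz1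
    · rw [shn_union, shn_shn, shn_shn, shn_shn] at h4
      refine ratR_mono _ ?_ h4
      rintro p ((hp | hp) | hp)
      · exact Or.inl hp
      · right
        rw [show κ + (1 + 1) = κ + 1 + 1 by ring] at hp
        exact hp
      · exact Or.inl hp
    · rintro p (hp | hp)
      · exact shn_pos hS1 p hp
      · exact shn_pos (shn_pos hS2) p hp

/-- the zeta function itself -/
theorem zeta_of_fstR {K : Type} [Field K] (φ : MK K →+* R) {n : ℕ}
    (f : MvPolynomial (Fin n) K) (S : Set (ℤ × ℤ))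
    (h : PowerSeries.map φ (fst K * zeta f 0) ∈ ratR (Units.map (φ : MK K →* R) (Lu K)) S) :
    PowerSeries.map φ (zeta f 0) ∈
      ratR (Units.map (φ : MK K →* R) (Lu K)) (insert (-1, 1) S) := by
  set u : Rˣ := Units.map (φ : MK K →* R) (Lu K) with hu
  have h1 := geoR_mul u (-1) 1 one_pos
  rw [show (1 : ℤ).toNat = 1 from rfl, zpow_neg_one, pow_one] at h1
  have h3 : PowerSeries.map φ (fst K) = 1 - PowerSeries.C ((u⁻¹ : Rˣ) : R) * PowerSeries.X := by
    unfold fst
    rw [map_sub, map_one, map_mul, PowerSeries.map_C, PowerSeries.map_X]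
    rfl
  have h2 : geoR u (-1) 1 * PowerSeries.map φ (fst K * zeta f 0) =
      PowerSeries.map φ (zeta f 0) := by
    rw [map_mul, h3]
    calc _ = ((1 - PowerSeries.C ((u⁻¹ : Rˣ) : R) * PowerSeries.X) * geoR u (-1) 1) *
        PowerSeries.map φ (zeta f 0) := by ring
      _ = _ := by rw [h1, one_mul]
  rw [← h2]
  exact (ratR u _).mul_mem (geoR_mem u (p := ((-1 : ℤ), (1 : ℤ))) (Set.mem_insert _ _))
    (ratR_mono u (Set.subset_insert _ _) h)

end spec

end Pool.Agent.J4.H70.CC
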