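import Pool.Agent.Y405.MS.Aut
import Pool.Agent.Z864.MS.Three
import Pool.Agent.Y229.MS.Main
import Pool.Agent.N101.CB.BL
import Pool.Agent.J4.H70.CC.Step

/-!
# Isomorphisms of polynomial rings which preserve the origin
-/

set_option autoImplicit false

namespace Pool.Agent.J4.H70.CC

open MvPolynomial Pool.Agent.W428.MOT
open Pool.Agent.W375.MG (zetaG)
open Pool.Agent.Y229.MS (addyz CE itr stabK ce_good zeta_iso)
open Pool.Agent.Y228.HX (W00 mem_W00 zeta_zetaG)
open Pool.Agent.H628R4.TP (IsLocalBFunction)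

/-- `f` becomes `g` by an isomorphism of polynomial rings which preserves the origin. -/
def Iso0 {K : Type} [Field K] {a b : ℕ} (f : MvPolynomial (Fin a) K)
    (g : MvPolynomial (Fin b) K) : Prop :=
  a = b ∧ ∃ ψ : MvPolynomial (Fin a) K ≃ₐ[K] MvPolynomial (Fin b) K,
    (∀ i, constantCoeff (ψ (X i)) = 0) ∧ ψ f = g

section
variable {K : Type} [Field K] {a b c : ℕ}

theorem cc_hom (φ : MvPolynomial (Fin a) K →ₐ[K] MvPolynomial (Fin b) K)
    (h : ∀ i, constantCoeff (φ (X i)) = 0) (p : MvPolynomial (Fin a) K) :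
    constantCoeff (φ p) = constantCoeff p := by
  induction p using MvPolynomial.induction_on with
  | C c =>
    rw [show φ (C c : MvPolynomial (Fin a) K) = C c from φ.commutes c, constantCoeff_C,
      constantCoeff_C]
  | add p q hp hq => rw [map_add, map_add, hp, hq, map_add]
  | mul_X p i hp => rw [map_mul, map_mul, h, mul_zero, map_mul, constantCoeff_X, mul_zero]

theorem symm_zero (ψ : MvPolynomial (Fin a) K ≃ₐ[K] MvPolynomial (Fin b) K)
    (h : ∀ i, constantCoeff (ψ (X i)) = 0) (i : Fin b) :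
    constantCoeff (ψ.symm (X i)) = 0 := by
  have h1 := cc_hom (ψ : MvPolynomial (Fin a) K →ₐ[K] MvPolynomial (Fin b) K) h (ψ.symm (X i))
  have h2 : (ψ : MvPolynomial (Fin a) K →ₐ[K] MvPolynomial (Fin b) K) (ψ.symm (X i)) = X i :=
    ψ.apply_symm_apply _
  rw [h2, constantCoeff_X] at h1
  exact h1.symm

theorem Iso0.refl (f : MvPolynomial (Fin a) K) : Iso0 f f :=
  ⟨rfl, AlgEquiv.refl, fun i => constantCoeff_X (R := K) i, rfl⟩

theorem Iso0.trans {f : MvPolynomial (Fin a) K} {g : MvPolynomial (Fin b) K}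
    {h : MvPolynomial (Fin c) K} (h1 : Iso0 f g) (h2 : Iso0 g h) : Iso0 f h := by
  obtain ⟨e1, ψ, hψ, rfl⟩ := h1
  obtain ⟨e2, χ, hχ, rfl⟩ := h2
  refine ⟨e1.trans e2, ψ.trans χ, fun i => ?_, rfl⟩
  have h3 := cc_hom (χ : MvPolynomial (Fin b) K →ₐ[K] MvPolynomial (Fin c) K) hχ (ψ (X i))
  rw [hψ] at h3
  exact h3

theorem Iso0.cc {f : MvPolynomial (Fin a) K} {g : MvPolynomial (Fin b) K} (h : Iso0 f g) :
    constantCoeff g = constantCoeff f := by
  obtain ⟨-, ψ, hψ, rfl⟩ := h
  exact cc_hom (ψ : MvPolynomial (Fin a) K →ₐ[K] MvPolynomial (Fin b) K) hψ f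

/-- two more variables -/
theorem Iso0.addyz {f : MvPolynomial (Fin a) K} {g : MvPolynomial (Fin b) K} (h : Iso0 f g) :
    Iso0 (addyz f) (Pool.Agent.Y229.MS.addyz g) := by
  obtain ⟨e, ψ, hψ, rfl⟩ := h
  refine ⟨by omega, AlgEquiv.ofAlgHom (Pool.Agent.Y405.MS.extH ψ.toAlgHom)
    (Pool.Agent.Y405.MS.extH ψ.symm.toAlgHom)
    (Pool.Agent.Y405.MS.extH_comp _ _ fun g => ψ.apply_symm_apply g)
    (Pool.Agent.Y405.MS.extH_comp _ _ fun g => ψ.symm_apply_apply g), fun i => ?_, ?_⟩
  · show constantCoeff (Pool.Agent.Y405.MS.extH ψ.toAlgHom (X i)) = 0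
    refine Fin.addCases (fun i => ?_) (fun j => ?_) i
    · rw [Pool.Agent.Y405.MS.extH_X1, constantCoeff_rename]
      exact hψ i
    · rw [Pool.Agent.Y405.MS.extH_X2, constantCoeff_X]
  · show Pool.Agent.Y405.MS.extH ψ.toAlgHom (Pool.Agent.Y229.MS.addyz f) =
      Pool.Agent.Y229.MS.addyz (ψ f)
    unfold Pool.Agent.Y229.MS.addyz
    rw [map_add, map_mul, Pool.Agent.Y405.MS.extH_rename, Pool.Agent.Y405.MS.extH_X2,
      Pool.Agent.Y405.MS.extH_X2]
    rfl

/-- extension of the field -/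
theorem Iso0.map {L : Type} [Field L] [Algebra K L] {f : MvPolynomial (Fin a) K}
    {g : MvPolynomial (Fin b) K} (h : Iso0 f g) :
    Iso0 (MvPolynomial.map (algebraMap K L) f) (MvPolynomial.map (algebraMap K L) g) := by
  obtain ⟨e, ψ, hψ, rfl⟩ := h
  refine ⟨e, AlgEquiv.ofAlgHom (Pool.Agent.Y405.MS.bcH ψ.toAlgHom)
    (Pool.Agent.Y405.MS.bcH ψ.symm.toAlgHom)
    (Pool.Agent.Y405.MS.bcH_comp _ _ fun g => ψ.apply_symm_apply g)
    (Pool.Agent.Y405.MS.bcH_comp _ _ fun g => ψ.symm_apply_apply g), fun i => ?_, ?_⟩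
  · show constantCoeff (Pool.Agent.Y405.MS.bcH (K := L) ψ.toAlgHom (X i)) = 0
    unfold Pool.Agent.Y405.MS.bcH
    rw [aeval_X, constantCoeff_map]
    exact (congrArg _ (hψ i)).trans (map_zero _)
  · exact Pool.Agent.Y405.MS.bcH_map ψ.toAlgHom f

/-- the two forms of `f + ∑ y_i z_i` -/
theorem iso0_itr (f : MvPolynomial (Fin a) K) (κ : ℕ) : Iso0 (itr f κ) (stabK f κ) := by
  obtain ⟨g, hg, hr⟩ := Pool.Agent.Y405.MS.itr_aux f κ
  let h : Fin a ⊕ (Fin κ ⊕ Fin κ) ≃ Fin (a + (κ + κ)) :=
    (Equiv.sumCongr (Equiv.refl _) finSumFinEquiv).trans finSumFinEquiv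
  have hb : Function.Bijective (h ∘ g) := by
    rw [Fintype.bijective_iff_injective_and_card]
    refine ⟨h.injective.comp hg, ?_⟩
    rw [Fintype.card_fin, Fintype.card_fin]
    omega
  refine ⟨by omega, renameEquiv K (Equiv.ofBijective _ hb), fun i => ?_, ?_⟩
  · show constantCoeff (rename (h ∘ g) (X i : MvPolynomial (Fin (a + 2 * κ)) K)) = 0
    rw [rename_X, constantCoeff_X]
  · show rename (h ∘ g) (Pool.Agent.Y229.MS.itr f κ) = _
    rw [← rename_rename, hr, map_add, rename_rename, map_sum]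
    unfold stabK
    congr 1
    refine Finset.sum_congr rfl fun i _ => ?_
    rw [map_mul, rename_X, rename_X]
    rfl

/-- **The zeta functions at the origin.** -/
theorem Iso0.zeta [CharZero K] {f : MvPolynomial (Fin a) K} {g : MvPolynomial (Fin b) K}
    (h : Iso0 f g) : Pool.Agent.W428.MOT.zeta g 0 = Pool.Agent.W428.MOT.zeta f 0 := by
  obtain ⟨e, ψ, hψ, rfl⟩ := h
  have h1 := zeta_iso Pool.Agent.Z864.MS.three e ψ f
    (W := W00 K a) (Pool.Agent.W425.MM.constr_pt (0 : Fin a → K)) (E := {1})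
    (ce_good Pool.Agent.W375.MG.good_one)
  have h2 : {w : Pt K (Fin b) | (fun i => aeval w (ψ (X i))) ∈ W00 K a} = W00 K b := by
    ext w
    rw [mem_W00]
    show (fun i => aeval w (ψ (X i))) ∈ W00 K a ↔ _
    rw [mem_W00]
    constructor
    · intro hw i
      have h3 : aeval w (ψ (ψ.symm (X i))) = aeval (fun j => aeval w (ψ (X j))) (ψ.symm (X i)) := by
        have h4 : (aeval w : MvPolynomial (Fin b) K →ₐ[K] AlgebraicClosure K).comp
            (ψ : MvPolynomial (Fin a) K →ₐ[K] MvPolynomial (Fin b) K) =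
            aeval (fun j => aeval w (ψ (X j))) := by
          apply MvPolynomial.algHom_ext
          intro j
          rw [aeval_X]
          rfl
        exact DFunLike.congr_fun h4 (ψ.symm (X i))
      rw [ψ.apply_symm_apply, aeval_X] at h3
      have h5 : (fun j => aeval w (ψ (X j))) = (0 : Pt K (Fin a)) := funext hw
      rw [h3, h5, MvPolynomial.aeval_zero, symm_zero ψ hψ, map_zero]
    · intro hw i
      have h5 : w = 0 := funext hw
      show aeval w (ψ (X i)) = 0
      rw [h5, MvPolynomial.aeval_zero, hψ, map_zero]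
  rw [h2] at h1
  rw [zeta_zetaG, zeta_zetaG, h1]

end

/-! ### Local `b`-functions -/

section lb

variable {a b : ℕ}

/-- the linear coefficients of a product -/
theorem lin_mul {K : Type} [Field K] (j : Fin a) (p q : MvPolynomial (Fin a) K) :
    coeff (Finsupp.single j 1) (p * q) = constantCoeff p * coeff (Finsupp.single j 1) q +
      coeff (Finsupp.single j 1) p * constantCoeff q := by
  classical
  rw [coeff_mul, Finsupp.antidiagonal_single, Finset.sum_map, Finset.Nat.sum_antidiagonal_succ]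
  simp [constantCoeff_eq]

theorem lin_X {K : Type} [Field K] (i j : Fin a) :
    coeff (Finsupp.single j 1) (X i : MvPolynomial (Fin a) K) = if i = j then 1 else 0 := by
  classical
  rw [coeff_X]
  by_cases h : i = j
  · subst h
    simp
  · rw [if_neg h, if_neg]
    intro h2
    exact h (Finsupp.single_left_injective one_ne_zero h2)

/-- the chain rule for the linear coefficients -/
theorem lin_hom {K : Type} [Field K] (φ : MvPolynomial (Fin a) K →ₐ[K] MvPolynomial (Fin b) K)
    (h : ∀ i, constantCoeff (φ (X i)) = 0) (j : Fin b) (p : MvPolynomial (Fin a) K) :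
    coeff (Finsupp.single j 1) (φ p) =
      ∑ l, coeff (Finsupp.single l 1) p * coeff (Finsupp.single j 1) (φ (X l)) := by
  classical
  induction p using MvPolynomial.induction_on with
  | C c =>
    have h0 : ∀ {m : ℕ} (i : Fin m), coeff (Finsupp.single i 1) (C c : MvPolynomial (Fin m) K) =
        0 := by
      intro m i
      rw [coeff_C, if_neg]
      intro h1
      have h2 := DFunLike.congr_fun h1 i
      simp at h2
    rw [show φ (C c : MvPolynomial (Fin a) K) = C c from φ.commutes c, h0]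
    exact (Finset.sum_eq_zero fun l _ => by rw [h0, zero_mul]).symm
  | add p q hp hq =>
    rw [map_add, coeff_add, hp, hq, ← Finset.sum_add_distrib]
    exact Finset.sum_congr rfl fun l _ => by rw [coeff_add, add_mul]
  | mul_X p i hp =>
    rw [map_mul, lin_mul, h, mul_zero, add_zero, cc_hom φ h]
    have h1 : ∀ l, coeff (Finsupp.single l 1) (p * X i) * coeff (Finsupp.single j 1) (φ (X l)) =
        if i = l then constantCoeff p * coeff (Finsupp.single j 1) (φ (X l)) else 0 := by
      intro l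
      rw [lin_mul, constantCoeff_X, mul_zero, add_zero, lin_X]
      split_ifs
      · rw [mul_one]
      · rw [mul_zero, zero_mul]
    rw [Finset.sum_congr rfl fun l _ => h1 l, Finset.sum_ite_eq _ i,
      if_pos (Finset.mem_univ _)]

/-- **Local `b`-functions are invariant.** -/
theorem Iso0.lb {f : MvPolynomial (Fin a) ℂ} {g : MvPolynomial (Fin b) ℂ} (h : Iso0 f g)
    {p : Polynomial ℂ} (hp : IsLocalBFunction f p) : IsLocalBFunction g p := by
  classical
  obtain ⟨e, ψ, hψ, rfl⟩ := h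
  subst e
  have hz : ∀ i, MvPowerSeries.constantCoeff
      ((ψ (X i) : MvPolynomial (Fin a) ℂ) : MvPowerSeries (Fin a) ℂ) = 0 := fun i => by
    rw [Pool.Agent.N101.CB.BLx.const_coe, hψ]
  have hc : Pool.Agent.Y229.GL.IsCoord
      (fun i => ((ψ (X i) : MvPolynomial (Fin a) ℂ) : MvPowerSeries (Fin a) ℂ)) := by
    unfold Pool.Agent.Y229.GL.IsCoord
    refine Matrix.det_ne_zero_of_left_inverse
      (B := Matrix.of fun i j => coeff (Finsupp.single j 1) (ψ.symm (X i))) ?_
    ext i j
    rw [Matrix.mul_apply]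
    have h1 := lin_hom (ψ : MvPolynomial (Fin a) ℂ →ₐ[ℂ] MvPolynomial (Fin a) ℂ) hψ j
      (ψ.symm (X i))
    have h2 : (ψ : MvPolynomial (Fin a) ℂ →ₐ[ℂ] MvPolynomial (Fin a) ℂ) (ψ.symm (X i)) = X i :=
      ψ.apply_symm_apply _
    rw [h2, lin_X] at h1
    rw [Matrix.one_apply, h1]
    refine Finset.sum_congr rfl fun l _ => ?_
    rw [Matrix.of_apply, Matrix.of_apply, MvPolynomial.coeff_coe]
    rfl
  have h4 := Pool.Agent.Y229.PS.coordB hc hz (Pool.Agent.Y229.PS.formal_of_local hp)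
  have hs := MvPowerSeries.hasSubst_of_constantCoeff_zero hz
  have h5 : MvPowerSeries.subst
      (fun i => ((ψ (X i) : MvPolynomial (Fin a) ℂ) : MvPowerSeries (Fin a) ℂ))
      (f : MvPowerSeries (Fin a) ℂ) = ((ψ f : MvPolynomial (Fin a) ℂ) :
        MvPowerSeries (Fin a) ℂ) := by
    rw [MvPowerSeries.subst_coe]
    have h1 : ∀ p : MvPolynomial (Fin a) ℂ,
        MvPolynomial.aeval (fun i => ((ψ (X i) : MvPolynomial (Fin a) ℂ) :
          MvPowerSeries (Fin a) ℂ)) p =
        ((ψ p : MvPolynomial (Fin a) ℂ) : MvPowerSeries (Fin a) ℂ) := by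
      intro p
      induction p using MvPolynomial.induction_on with
      | C c =>
        rw [aeval_C, show ψ (C c : MvPolynomial (Fin a) ℂ) = C c from ψ.commutes c,
          MvPolynomial.coe_C]
        rfl
      | add p q hp hq => rw [map_add, map_add, hp, hq, MvPolynomial.coe_add]
      | mul_X p i hp => rw [map_mul, map_mul, hp, aeval_X, MvPolynomial.coe_mul]
    exact h1 f
  rw [h5] at h4
  exact Pool.Agent.Y229.PS.local_of_formal h4

/-- the local functional equation of `f + y z` -/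
theorem bf_addyz {n : ℕ} (f : MvPolynomial (Fin n) ℂ) (hf0 : f ≠ 0) (hf : constantCoeff f = 0)
    {c : Polynomial ℂ} (h : IsLocalBFunction f ((Polynomial.X + 1) * c)) :
    IsLocalBFunction (addyz f) ((Polynomial.X + 1) * c.comp (Polynomial.X + 1)) := by
  have h1 := (Pool.Agent.N101.CB.bl f 0 0 hf0 hf (map_zero _) (map_zero _) _ h).2 c rfl
  have h2 : Pool.Agent.N101.CB.stp f 0 0 = addyz f := by
    unfold Pool.Agent.N101.CB.stp addyz
    rw [map_zero, add_zero, sub_zero]
  rwa [h2] at h1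

theorem addyz_ne {K : Type} [Field K] {n : ℕ} (f : MvPolynomial (Fin n) K) (hf0 : f ≠ 0) :
    addyz f ≠ 0 := by
  intro h
  apply hf0
  have h1 := congrArg (aeval (Fin.addCases X fun _ => 0 :
    Fin (n + 2) → MvPolynomial (Fin n) K)) h
  unfold addyz at h1
  rw [map_add, map_mul, aeval_X, aeval_X, Fin.addCases_right, zero_mul, add_zero, aeval_rename,
    map_zero] at h1
  have h2 : ((Fin.addCases X fun _ => 0 : Fin (n + 2) → MvPolynomial (Fin n) K) ∘
      Fin.castAdd 2) = X := by
    funext i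
    rw [Function.comp_apply, Fin.addCases_left]
  rw [h2, aeval_X_left_apply] at h1
  exact h1

theorem itr_ne {K : Type} [Field K] {n : ℕ} (f : MvPolynomial (Fin n) K) (hf0 : f ≠ 0) :
    ∀ κ, itr f κ ≠ 0
  | 0 => hf0
  | κ + 1 => addyz_ne _ (itr_ne f hf0 κ)

/-- the local functional equation of `f + ∑ y_i z_i` -/
theorem bf_itr {n : ℕ} (f : MvPolynomial (Fin n) ℂ) (hf0 : f ≠ 0) (hf : constantCoeff f = 0)
    {c : Polynomial ℂ} (h : IsLocalBFunction f ((Polynomial.X + 1) * c)) :
    ∀ κ : ℕ, IsLocalBFunction (itr f κ) ((Polynomial.X + 1) *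
      c.comp (Polynomial.X + Polynomial.C (κ : ℂ)))
  | 0 => by
    rw [Nat.cast_zero, Polynomial.C_0, add_zero, Polynomial.comp_X]
    exact h
  | κ + 1 => by
    have h1 := bf_addyz (itr f κ) (itr_ne f hf0 κ) ((itr_cc f κ).trans hf)
      (bf_itr f hf0 hf h κ)
    have h2 : (c.comp (Polynomial.X + Polynomial.C (κ : ℂ))).comp (Polynomial.X + 1) =
        c.comp (Polynomial.X + Polynomial.C ((κ + 1 : ℕ) : ℂ)) := by
      rw [Polynomial.comp_assoc]
      congr 1
      simp only [Polynomial.add_comp, Polynomial.X_comp, Polynomial.C_comp]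
      push_cast
      rw [Polynomial.C_add, Polynomial.C_1]
      ring
    rw [h2] at h1
    exact h1

theorem root_neg_one {n : ℕ} (f : MvPolynomial (Fin n) ℂ) (hf0 : f ≠ 0)
    (hf : constantCoeff f = 0) {p : Polynomial ℂ} (h : IsLocalBFunction f p) :
    p.eval (-1) = 0 ∧ ∃ c, p = (Polynomial.X + 1) * c := by
  have h1 := (Pool.Agent.N101.CB.bl f 0 0 hf0 hf (map_zero _) (map_zero _) _ h).1
  exact ⟨h1, Pool.Agent.Y229.PS.exists_factor h1⟩

end lb

end Pool.Agent.J4.H70.CC
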