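import Pool.Agent.J4.H70.CC.Gen
import Pool.Agent.J4.H70.CC.Iso

/-!
# Stably generic polynomials
-/

set_option autoImplicit false
set_option maxHeartbeats 400000

namespace Pool.Agent.J4.H70.CC

open MvPolynomial Pool.Agent.W428.MOT
open Pool.Agent.Y229.MS (addyz itr stabK exyz shn map_stabK map_spa)
open Pool.Agent.H628R4.TP (IsLocalBFunction)
open Pool.Agent.W425.ND (spa)
open Pool.Agent.W426.SM (gord IsRay)
open Pool.Agent.TH216.MF (ratR)
open Pool.Agent.Y228.HX (uX ChiY InNP)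

/-- one more generic coefficient -/
theorem exists_first {F : Type} [Field F] {r : ℕ} (g' : MvPolynomial (Fin (r + 1)) F)
    (hg' : g' ≠ 0) : ∃ g : MvPolynomial (Fin r) F, g ≠ 0 ∧
      ∀ (k : Type) [Field k] [Algebra F k] [CharZero k] (c : Fin r → k), aeval c g ≠ 0 →
        ∃ c0 : k, c0 ≠ 0 ∧ aeval (Fin.cons c0 c : Fin (r + 1) → k) g' ≠ 0 := by
  set P := finSuccEquiv F r g' with hP
  have hP0 : P ≠ 0 := by
    intro h
    apply hg'
    exact (map_eq_zero_iff _ (finSuccEquiv F r).injective).1 h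
  obtain ⟨i, hi⟩ : ∃ i, P.coeff i ≠ 0 := by
    by_contra hcon
    push Not at hcon
    exact hP0 (Polynomial.ext hcon)
  refine ⟨P.coeff i, hi, fun k _ _ _ c hc => ?_⟩
  set Q : Polynomial k := P.map ((aeval c : MvPolynomial (Fin r) F →ₐ[F] k) :
    MvPolynomial (Fin r) F →+* k) with hQ
  have hQ0 : Q * Polynomial.X ≠ 0 := by
    refine mul_ne_zero ?_ Polynomial.X_ne_zero
    intro h
    apply hc
    have h1 := congrArg (fun q : Polynomial k => q.coeff i) h
    simp only [hQ, Polynomial.coeff_map, Polynomial.coeff_zero] at h1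
    exact h1
  obtain ⟨c0, hc0⟩ : ∃ c0 : k, (Q * Polynomial.X).eval c0 ≠ 0 := by
    by_contra hcon
    push Not at hcon
    exact hQ0 (Polynomial.funext fun x => by rw [hcon, Polynomial.eval_zero])
  rw [Polynomial.eval_mul, Polynomial.eval_X] at hc0
  refine ⟨c0, right_ne_zero_of_mul hc0, ?_⟩
  have h2 : ((aeval (Fin.cons c0 c : Fin (r + 1) → k) : MvPolynomial (Fin (r + 1)) F →ₐ[F] k) :
      MvPolynomial (Fin (r + 1)) F →+* k) =
      (Polynomial.evalRingHom c0).comp ((Polynomial.mapRingHom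
        ((aeval c : MvPolynomial (Fin r) F →ₐ[F] k) : MvPolynomial (Fin r) F →+* k)).comp
        ((finSuccEquiv F r : MvPolynomial (Fin (r + 1)) F ≃ₐ[F] _) :
          MvPolynomial (Fin (r + 1)) F →+* Polynomial (MvPolynomial (Fin r) F))) := by
    apply MvPolynomial.ringHom_ext
    · intro a
      simp [finSuccEquiv_apply]
    · intro j
      refine Fin.cases ?_ (fun j => ?_) j
      · simp [finSuccEquiv_X_zero]
      · simp [finSuccEquiv_X_succ]
  have h3 : aeval (Fin.cons c0 c : Fin (r + 1) → k) g' = Q.eval c0 := DFunLike.congr_fun h2 g'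
  rw [h3]
  exact left_ne_zero_of_mul hc0

section exyz

variable {M r : ℕ}

theorem exyz_inj {v : Fin r → Fin M → ℕ} (hv : Function.Injective v) :
    Function.Injective (exyz v) := by
  have h0 : ∀ j : Fin r, exyz v 0 ≠ exyz v j.succ := by
    intro j h
    have h1 := congrFun h (Fin.natAdd M 0)
    simp only [exyz, Fin.cons_zero, Fin.cons_succ, Fin.append_right] at h1
    exact one_ne_zero h1
  intro j j'
  refine Fin.cases ?_ (fun j => ?_) j
  · refine Fin.cases (fun _ => rfl) (fun j' h => ?_) j'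
    exact absurd h (h0 j')
  · refine Fin.cases (fun h => ?_) (fun j' h => ?_) j'
    · exact absurd h.symm (h0 j)
    · congr 1
      apply hv
      funext i
      have h1 := congrFun h (Fin.castAdd 2 i)
      simpa only [exyz, Fin.cons_succ, Fin.append_left] using h1

theorem exyz_ne {v : Fin r → Fin M → ℕ} (hv0 : ∀ j, v j ≠ 0) : ∀ j, exyz v j ≠ 0 := by
  intro j
  refine Fin.cases (fun h => ?_) (fun j h => ?_) j
  · have h1 := congrFun h (Fin.natAdd M 0)
    simp only [exyz, Fin.cons_zero, Fin.append_right, Pi.zero_apply] at h1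
    exact one_ne_zero h1
  · apply hv0 j
    funext i
    have h1 := congrFun h (Fin.castAdd 2 i)
    simpa only [exyz, Fin.cons_succ, Fin.append_left, Pi.zero_apply] using h1

theorem supp_ren {F : Type} [Field F] (h : MvPolynomial (Fin M) F) (w : Fin (M + 2) →₀ ℕ)
    (hw : w ∈ (rename (Fin.castAdd 2) h).support) : ∃ w' ∈ h.support,
      (∀ i, w (Fin.castAdd 2 i) = w' i) ∧ ∀ j, w (Fin.natAdd M j) = 0 := by
  classical
  rw [support_rename_of_injective (Fin.castAdd_injective _ _), Finset.mem_image] at hw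
  obtain ⟨w', h1, rfl⟩ := hw
  refine ⟨w', h1, fun i => Finsupp.mapDomain_apply (Fin.castAdd_injective _ _) _ _, fun j => ?_⟩
  refine Finsupp.mapDomain_of_notMem_range _ _ ?_
  rintro ⟨i', hi'⟩
  have := congrArg Fin.val hi'
  simp only [Fin.val_castAdd, Fin.val_natAdd] at this
  omega

theorem np_ren {F : Type} [Field F] (v : Fin r → Fin M → ℕ) (h : MvPolynomial (Fin M) F)
    (hh : ∀ w ∈ h.support, InNP v fun i => w i) :
    ∀ w ∈ (rename (Fin.castAdd 2) h).support, InNP (exyz v) fun i => w i := by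
  intro w hw
  obtain ⟨w', h1, h2, h3⟩ := supp_ren h w hw
  obtain ⟨a, a1, a2, a3⟩ := hh w' h1
  refine ⟨Fin.cons 0 a, fun j => ?_, ?_, fun i => ?_⟩
  · refine Fin.cases ?_ (fun j => ?_) j
    · rw [Fin.cons_zero]
    · rw [Fin.cons_succ]
      exact a1 j
  · rw [Fin.sum_univ_succ, Fin.cons_zero, zero_add]
    simpa only [Fin.cons_succ] using a2
  · rw [Fin.sum_univ_succ, Fin.cons_zero, zero_mul, zero_add]
    refine Fin.addCases (fun i => ?_) (fun j => ?_) i
    · simp only [Fin.cons_succ, exyz, Fin.append_left, h2]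
      exact a3 i
    · simp only [Fin.cons_succ, exyz, Fin.append_right, h3, Nat.cast_zero, mul_zero,
        Finset.sum_const_zero]
      exact le_rfl

theorem vh_ren {F : Type} [Field F] (v : Fin r → Fin M → ℕ) (h : MvPolynomial (Fin M) F)
    (hvh : ∀ w ∈ h.support, ∀ j, ¬ ∀ x, w x = v j x) :
    ∀ w ∈ (rename (Fin.castAdd 2) h).support, ∀ j, ¬ ∀ x, w x = exyz v j x := by
  intro w hw
  obtain ⟨w', h1, h2, h3⟩ := supp_ren h w hw
  intro j
  refine Fin.cases (fun h4 => ?_) (fun j h4 => ?_) j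
  · have h5 := h4 (Fin.natAdd M 0)
    rw [h3] at h5
    simp only [exyz, Fin.cons_zero, Fin.append_right] at h5
    exact zero_ne_one h5
  · refine hvh w' h1 j fun i => ?_
    have h5 := h4 (Fin.castAdd 2 i)
    rw [h2] at h5
    simpa only [exyz, Fin.cons_succ, Fin.append_left] using h5

/-- `G + c y z` -/
theorem spa_cons {k : Type} [Field k] (v : Fin r → Fin M → ℕ) (c : Fin r → k) (c0 : k) :
    spa (exyz v) (Fin.cons c0 c : Fin (r + 1) → k) = rename (Fin.castAdd 2) (spa v c) +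
      C c0 * (X (Fin.natAdd M 0) * X (Fin.natAdd M 1)) := by
  unfold spa exyz
  rw [Fin.sum_univ_succ]
  simp only [Fin.cons_zero, Fin.cons_succ, Fin.prod_univ_add, Fin.append_left, Fin.append_right,
    pow_zero, pow_one, Finset.prod_const_one, one_mul, mul_one, map_sum, map_mul, map_prod,
    map_pow, rename_X, rename_C, Fin.prod_univ_two]
  exact add_comm _ _

/-- `f + y z` and `f + c y z` -/
theorem iso0_scale {K : Type} [Field K] {n : ℕ} (f : MvPolynomial (Fin n) K) (c : K)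
    (hc : c ≠ 0) : Iso0 (addyz f) (rename (Fin.castAdd 2) f +
      C c * (X (Fin.natAdd n 0) * X (Fin.natAdd n 1))) := by
  have hmk : ∀ c : K, ∃ A : MvPolynomial (Fin (n + 2)) K →ₐ[K] MvPolynomial (Fin (n + 2)) K,
      (∀ i, A (X (Fin.castAdd 2 i)) = X (Fin.castAdd 2 i)) ∧
      A (X (Fin.natAdd n 0)) = C c * X (Fin.natAdd n 0) ∧
      A (X (Fin.natAdd n 1)) = X (Fin.natAdd n 1) := by
    intro c
    refine ⟨aeval (Fin.addCases (fun i => X (Fin.castAdd 2 i))
      ![C c * X (Fin.natAdd n 0), X (Fin.natAdd n 1)]), fun i => ?_, ?_, ?_⟩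
    · rw [aeval_X, Fin.addCases_left]
    · rw [aeval_X, Fin.addCases_right]
      rfl
    · rw [aeval_X, Fin.addCases_right]
      rfl
  obtain ⟨A, A1, A2, A3⟩ := hmk c
  obtain ⟨B, B1, B2, B3⟩ := hmk c⁻¹
  have hC : ∀ (D : MvPolynomial (Fin (n + 2)) K →ₐ[K] MvPolynomial (Fin (n + 2)) K) (x : K),
      D (C x) = C x := fun D x => D.commutes x
  have hext : ∀ (D : MvPolynomial (Fin (n + 2)) K →ₐ[K] MvPolynomial (Fin (n + 2)) K),
      (∀ i, D (X (Fin.castAdd 2 i)) = X (Fin.castAdd 2 i)) →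
      D (X (Fin.natAdd n 0)) = X (Fin.natAdd n 0) →
      D (X (Fin.natAdd n 1)) = X (Fin.natAdd n 1) → D = AlgHom.id K _ := by
    intro D h1 h2 h3
    apply MvPolynomial.algHom_ext
    intro i
    rw [AlgHom.id_apply]
    refine Fin.addCases (fun i => h1 i) (fun j => ?_) i
    fin_cases j
    · exact h2
    · exact h3
  refine ⟨rfl, AlgEquiv.ofAlgHom A B (hext _ (fun i => ?_) ?_ ?_) (hext _ (fun i => ?_) ?_ ?_),
    fun i => ?_, ?_⟩
  · rw [AlgHom.comp_apply, B1, A1]
  · rw [AlgHom.comp_apply, B2, map_mul, hC, A2, ← mul_assoc, ← C_mul, inv_mul_cancel₀ hc, C_1,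
      one_mul]
  · rw [AlgHom.comp_apply, B3, A3]
  · rw [AlgHom.comp_apply, A1, B1]
  · rw [AlgHom.comp_apply, A2, map_mul, hC, B2, ← mul_assoc, ← C_mul, mul_inv_cancel₀ hc, C_1,
      one_mul]
  · rw [AlgHom.comp_apply, A3, B3]
  · show constantCoeff (A (X i)) = 0
    refine Fin.addCases (fun i => ?_) (fun j => ?_) i
    · rw [A1, constantCoeff_X]
    · fin_cases j
      · show constantCoeff (A (X (Fin.natAdd n 0))) = 0
        rw [A2, map_mul, constantCoeff_X, mul_zero]
      · show constantCoeff (A (X (Fin.natAdd n 1))) = 0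
        rw [A3, constantCoeff_X]
  · show A (addyz f) = _
    unfold addyz
    rw [map_add, map_mul, A2, A3]
    have h1 : A (rename (Fin.castAdd 2) f) = rename (Fin.castAdd 2) f := by
      have h2 : A.comp (rename (Fin.castAdd 2)) =
          (rename (Fin.castAdd 2) : MvPolynomial (Fin n) K →ₐ[K] _) := by
        apply MvPolynomial.algHom_ext
        intro i
        rw [AlgHom.comp_apply, rename_X, A1]
      exact DFunLike.congr_fun h2 f
    rw [h1, mul_assoc]

end exyz

/-- **Stably generic polynomials.** -/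
theorem stably {F : Type} [Field F] [Algebra F ℂ] {r n κ : ℕ} (hr : 0 < r)
    (v : Fin r → Fin (n + (κ + κ)) → ℕ) (hv : Function.Injective v) (hv0 : ∀ j, v j ≠ 0)
    (h : MvPolynomial (Fin (n + (κ + κ))) F) (hh : ∀ w ∈ h.support, InNP v fun i => w i)
    (hvh : ∀ w ∈ h.support, ∀ j, ¬ ∀ x, w x = v j x) :
    ∃ (g : MvPolynomial (Fin r) F) (S : Finset (ℤ × ℤ)), g ≠ 0 ∧
      (∀ p ∈ S, 0 < p.2 ∧ (p = (-1, 1) ∨ (∃ a : Fin (n + (κ + κ)) → ℕ, IsRay v a ∧
          0 < gord v a ∧ p = (-((∑ i, a i : ℕ) : ℤ) + κ * (gord v a : ℤ), (gord v a : ℤ))) ∨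
          ∃ a : Fin (n + (κ + κ) + 2) → ℕ, IsRay (exyz v) a ∧
          0 < gord (exyz v) a ∧ p = (-((∑ i, a i : ℕ) : ℤ) + ((κ + 1 : ℕ) : ℤ) *
            (gord (exyz v) a : ℤ), (gord (exyz v) a : ℤ)))) ∧
      ∀ (k : Type) [Field k] [Algebra F k] [Algebra k ℂ] [IsScalarTower F k ℂ] (c : Fin r → k),
        aeval c g ≠ 0 → ∀ f : MvPolynomial (Fin n) k, f ≠ 0 →
          Iso0 (stabK f κ) (spa v c + MvPolynomial.map (algebraMap F k) h) →
        (∀ p ∈ S, ∀ b : Polynomial ℂ,
          IsLocalBFunction (MvPolynomial.map (algebraMap k ℂ) f) b →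
            b.eval ((p.1 : ℂ) / p.2) = 0) ∧
        ∀ (K : Type) [Field K] [Algebra k K] (φ : MK K →+* RatFunc ℚ), ChiY φ →
          PowerSeries.map φ (zeta (MvPolynomial.map (algebraMap k K) f) 0) ∈ ratR uX S := by
  classical
  obtain ⟨g1, S1, hg1, hS1, H1⟩ := strongF hr v hv hv0 h hh hvh
  obtain ⟨g2', S2, hg2', hS2, H2⟩ := strongF (Nat.succ_pos r) (exyz v) (exyz_inj hv) (exyz_ne hv0)
    (rename (Fin.castAdd 2) h) (np_ren v h hh) (vh_ren v h hvh)
  obtain ⟨g2, hg2, H2'⟩ := exists_first g2' hg2'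
  set S : Finset (ℤ × ℤ) := insert (-1, 1) (S1.image (fun q => (q.1 + κ * q.2, q.2)) ∪
    S2.image (fun q => (q.1 + ((κ + 1 : ℕ) : ℤ) * q.2, q.2))) with hS
  have hpos1 : ∀ p ∈ (S1 : Set (ℤ × ℤ)), 0 < p.2 := by
    intro p hp
    obtain ⟨a, -, hg, rfl⟩ := hS1 p (Finset.mem_coe.1 hp)
    exact Int.natCast_pos.2 hg
  have hpos2 : ∀ p ∈ (S2 : Set (ℤ × ℤ)), 0 < p.2 := by
    intro p hp
    obtain ⟨a, -, hg, rfl⟩ := hS2 p (Finset.mem_coe.1 hp)
    exact Int.natCast_pos.2 hg
  refine ⟨g1 * g2, S, mul_ne_zero hg1 hg2, fun p hp => ?_, fun k _ _ _ _ c hc f hf0 hiso => ?_⟩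
  · rcases Finset.mem_insert.1 hp with rfl | hp
    · exact ⟨by norm_num, Or.inl rfl⟩
    · rcases Finset.mem_union.1 hp with hp | hp
      · obtain ⟨q, hq, rfl⟩ := Finset.mem_image.1 hp
        obtain ⟨a, ha, hg, rfl⟩ := hS1 q hq
        exact ⟨Int.natCast_pos.2 hg, Or.inr (Or.inl ⟨a, ha, hg, rfl⟩)⟩
      · obtain ⟨q, hq, rfl⟩ := Finset.mem_image.1 hp
        obtain ⟨a, ha, hg, rfl⟩ := hS2 q hq
        exact ⟨Int.natCast_pos.2 hg, Or.inr (Or.inr ⟨a, ha, hg, rfl⟩)⟩
  have hkc : CharZero k := RingHom.charZero (algebraMap k ℂ)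
  rw [map_mul] at hc
  obtain ⟨H3, H4⟩ := H1 k c (left_ne_zero_of_mul hc)
  obtain ⟨c0, hc0, hc1⟩ := H2' k c (right_ne_zero_of_mul hc)
  obtain ⟨H5, H6⟩ := H2 k _ hc1
  -- the polynomials over an extension
  have hcons : ∀ {L : Type} [Field L] (g : k →+* L), (fun j => g ((Fin.cons c0 c :
      Fin (r + 1) → k) j)) = (Fin.cons (g c0) (fun j => g (c j)) : Fin (r + 1) → L) := by
    intro L _ g
    funext j
    refine Fin.cases ?_ (fun j => ?_) j
    · rfl
    · rfl
  have hsh : ∀ {L : Type} [Field L] (g : k →+* L) (g' : F →+* L),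
      spa (exyz v) (fun j => g ((Fin.cons c0 c : Fin (r + 1) → k) j)) +
        MvPolynomial.map g' (rename (Fin.castAdd 2) h) =
      rename (Fin.castAdd 2) (spa v (fun j => g (c j)) + MvPolynomial.map g' h) +
        C (g c0) * (X (Fin.natAdd _ 0) * X (Fin.natAdd _ 1)) := by
    intro L _ g g'
    rw [hcons, spa_cons, map_add, map_rename]
    ring
  have hisoL : ∀ (L : Type) [Field L] [Algebra k L],
      Iso0 (itr (MvPolynomial.map (algebraMap k L) f) κ)
        (spa v (fun j => algebraMap k L (c j)) +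
          MvPolynomial.map ((algebraMap k L).comp (algebraMap F k)) h) := by
    intro L _ _
    refine (iso0_itr _ κ).trans ?_
    have h1 := hiso.map (L := L)
    rwa [map_stabK, map_add, map_spa, MvPolynomial.map_map] at h1
  have hisoL2 : ∀ (L : Type) [Field L] [Algebra k L],
      Iso0 (addyz (itr (MvPolynomial.map (algebraMap k L) f) κ))
        (spa (exyz v) (fun j => algebraMap k L ((Fin.cons c0 c : Fin (r + 1) → k) j)) +
          MvPolynomial.map ((algebraMap k L).comp (algebraMap F k))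
            (rename (Fin.castAdd 2) h)) := by
    intro L _ _
    rw [hsh]
    exact (hisoL L).addyz.trans (iso0_scale _ _ ((map_ne_zero _).2 hc0))
  set fC : MvPolynomial (Fin n) ℂ := MvPolynomial.map (algebraMap k ℂ) f with hfC
  have hFC : (algebraMap k ℂ).comp (algebraMap F k) = algebraMap F ℂ :=
    (IsScalarTower.algebraMap_eq F k ℂ).symm
  have hfC0 : fC ≠ 0 := by
    intro h0
    apply hf0
    exact (map_eq_zero_iff _ (MvPolynomial.map_injective _ (algebraMap k ℂ).injective)).1 h0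
  have hisoC := hisoL ℂ
  have hisoC2 := hisoL2 ℂ
  rw [hFC, ← hfC] at hisoC hisoC2
  have hfc : constantCoeff fC = 0 := by
    rw [← itr_cc fC κ, ← hisoC.cc]
    exact Pool.Agent.W425.SV.f_const hv0 _ h fun w hw => (hh w hw).np
  refine ⟨fun p hp b hb => ?_, fun K _ _ φ hφ => ?_⟩
  · obtain ⟨hb1, c', rfl⟩ := root_neg_one fC hfC0 hfc hb
    rcases Finset.mem_insert.1 hp with rfl | hp
    · have h6 : (((-1 : ℤ) : ℂ) / ((1 : ℤ) : ℂ)) = -1 := by norm_num
      simp only [h6]
      exact hb1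
    · rw [Polynomial.eval_mul]
      rcases Finset.mem_union.1 hp with hp | hp
      · obtain ⟨q, hq, rfl⟩ := Finset.mem_image.1 hp
        have h6 := H3 q hq _ (hisoC.lb (bf_itr fC hfC0 hfc hb κ))
        rw [Polynomial.eval_comp] at h6
        have h7 : ((q.2 : ℤ) : ℂ) ≠ 0 := by
          exact_mod_cast (hpos1 q (Finset.mem_coe.2 hq)).ne'
        have h8 : (((q.1 + κ * q.2 : ℤ) : ℂ) / ((q.2 : ℤ) : ℂ)) =
            Polynomial.eval ((q.1 : ℂ) / q.2) (Polynomial.X + Polynomial.C (κ : ℂ)) := by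
          rw [Polynomial.eval_add, Polynomial.eval_X, Polynomial.eval_C]
          push_cast
          field_simp
        simp only
        rw [h8, h6, mul_zero]
      · obtain ⟨q, hq, rfl⟩ := Finset.mem_image.1 hp
        have h6 := H5 q hq _ (hisoC2.lb (bf_itr fC hfC0 hfc hb (κ + 1)))
        rw [Polynomial.eval_comp] at h6
        have h7 : ((q.2 : ℤ) : ℂ) ≠ 0 := by
          exact_mod_cast (hpos2 q (Finset.mem_coe.2 hq)).ne'
        have h8 : (((q.1 + ((κ + 1 : ℕ) : ℤ) * q.2 : ℤ) : ℂ) / ((q.2 : ℤ) : ℂ)) =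
            Polynomial.eval ((q.1 : ℂ) / q.2)
              (Polynomial.X + Polynomial.C ((κ + 1 : ℕ) : ℂ)) := by
          rw [Polynomial.eval_add, Polynomial.eval_X, Polynomial.eval_C]
          push_cast
          field_simp
        simp only
        rw [h8, h6, mul_zero]
  · have hK : CharZero K := charZero_of_injective_algebraMap (algebraMap k K).injective
    have hu : Units.map (φ : MK K →* RatFunc ℚ) (Lu K) = uX := Units.ext hφ.1
    set fK : MvPolynomial (Fin n) K := MvPolynomial.map (algebraMap k K) f with hfK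
    have z1 := H4 K φ hφ
    have z2 := H6 K φ hφ
    rw [(hisoL K).zeta, ← hu] at z1
    rw [(hisoL2 K).zeta, ← hu] at z2
    have hfk : constantCoeff fK = 0 := by
      have h1 : constantCoeff f = 0 := by
        apply (algebraMap k ℂ).injective
        rw [map_zero, ← hfc, hfC, constantCoeff_map]
      rw [hfK, constantCoeff_map, h1, map_zero]
    have z3 := descendR φ fK hfk κ S1 S2 hpos1 hpos2 z1 z2
    have z4 := zeta_of_fstR φ fK _ z3
    rw [hu] at z4
    refine ratR_mono uX ?_ z4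
    rintro p (rfl | ⟨q, hq, rfl⟩ | ⟨q, hq, rfl⟩)
    · exact Finset.mem_coe.2 (Finset.mem_insert_self _ _)
    · exact Finset.mem_coe.2 (Finset.mem_insert_of_mem (Finset.mem_union_left _
        (Finset.mem_image_of_mem (fun q : ℤ × ℤ => (q.1 + (κ : ℤ) * q.2, q.2)) hq)))
    · exact Finset.mem_coe.2 (Finset.mem_insert_of_mem (Finset.mem_union_right _
        (Finset.mem_image_of_mem (fun q : ℤ × ℤ => (q.1 + ((κ + 1 : ℕ) : ℤ) * q.2, q.2)) hq)))

end Pool.Agent.J4.H70.CC
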