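import Pool.Agent.J4.H70.CC.Rel
import Pool.Agent.J4.H70.CC.Main

/-!
# Descent for germs
-/

set_option autoImplicit false

namespace Pool.Agent.J4.H70.CC

open MvPolynomial Pool.Agent.W428.MOT
open Pool.Agent.Y229.MS (addyz itr stabK shn shn_pos shn_shn shn_union)
open Pool.Agent.TH216.MF (ratR CR_mem XR_mem)

section
variable {K : Type} [Field K]

/-- the elimination operator -/
noncomputable def elE (K : Type) [Field K] (A B : PowerSeries (MK K)) : PowerSeries (MK K) :=
  PowerSeries.C ((((Lu K)⁻¹ : (MK K)ˣ) : MK K) ^ 3) *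
    ((PowerSeries.C ((Lu K : (MK K)ˣ) : MK K) * PowerSeries.C ((Lu K : (MK K)ˣ) : MK K) +
      PowerSeries.C ((Lu K : (MK K)ˣ) : MK K)) *
      PowerSeries.rescale ((Lu K : (MK K)ˣ) : MK K) A -
    PowerSeries.rescale ((Lu K : (MK K)ˣ) : MK K)
      (PowerSeries.rescale ((Lu K : (MK K)ˣ) : MK K) B))

/-- the iterated elimination operator -/
noncomputable def elD (K : Type) [Field K] : ℕ → PowerSeries (MK K) → PowerSeries (MK K) →
    PowerSeries (MK K)
  | 0, A, _ => A
  | κ + 1, A, B => elD K κ (elE K A B) A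

theorem coeff_elE (A B : PowerSeries (MK K)) (N : ℕ) : PowerSeries.coeff N (elE K A B) =
    (((Lu K)⁻¹ : (MK K)ˣ) : MK K) ^ 3 *
      ((((Lu K : (MK K)ˣ) : MK K) * ((Lu K : (MK K)ˣ) : MK K) + ((Lu K : (MK K)ˣ) : MK K)) *
        (((Lu K : (MK K)ˣ) : MK K) ^ N * PowerSeries.coeff N A) -
      ((Lu K : (MK K)ˣ) : MK K) ^ N * (((Lu K : (MK K)ˣ) : MK K) ^ N * PowerSeries.coeff N B)) := by
  unfold elE
  rw [← map_mul, ← map_add, PowerSeries.coeff_C_mul, map_sub, PowerSeries.coeff_C_mul,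
    PowerSeries.coeff_rescale, PowerSeries.coeff_rescale, PowerSeries.coeff_rescale]

theorem coeff_elD (κ : ℕ) : ∀ (A B A' B' : PowerSeries (MK K)) (N : ℕ),
    PowerSeries.coeff N A = PowerSeries.coeff N A' →
    PowerSeries.coeff N B = PowerSeries.coeff N B' →
    PowerSeries.coeff N (elD K κ A B) = PowerSeries.coeff N (elD K κ A' B') := by
  induction κ with
  | zero =>
    intro A B A' B' N h1 _
    exact h1
  | succ κ ih =>
    intro A B A' B' N h1 h2
    exact ih _ _ _ _ N (by rw [coeff_elE, coeff_elE, h1, h2]) h1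

theorem zeta_elD [CharZero K] {n : ℕ} (f : MvPolynomial (Fin n) K) (hf : constantCoeff f = 0) :
    ∀ κ : ℕ, fst K * zeta f 0 = elD K κ (fst K * zeta (itr f κ) 0)
      (fst K * zeta (addyz (itr f κ)) 0)
  | 0 => rfl
  | κ + 1 => by
    rw [zeta_elD f hf κ]
    show _ = elD K κ (elE K (fst K * zeta (addyz (itr f κ)) 0)
      (fst K * zeta (addyz (addyz (itr f κ))) 0)) (fst K * zeta (addyz (itr f κ)) 0)
    congr 1
    exact key (itr f κ) ((itr_cc f κ).trans hf)

theorem coeff_fst {A B : PowerSeries (MK K)} {N : ℕ}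
    (h : ∀ j ≤ N, PowerSeries.coeff j A = PowerSeries.coeff j B) :
    PowerSeries.coeff N (fst K * A) = PowerSeries.coeff N (fst K * B) := by
  rw [PowerSeries.coeff_mul, PowerSeries.coeff_mul]
  refine Finset.sum_congr rfl fun p hp => ?_
  rw [h p.2 (by
    have := Finset.HasAntidiagonal.mem_antidiagonal.1 hp
    omega)]

/-- **The germ.** -/
theorem germ_elD [CharZero K] {n m m' : ℕ} (κ : ℕ) (G : MvPolynomial (Fin m) K)
    (G' : MvPolynomial (Fin m') K) (Z : PowerSeries (MK K))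
    (h : ∀ N, ∃ f : MvPolynomial (Fin n) K, constantCoeff f = 0 ∧
      (∀ j ≤ N, PowerSeries.coeff j Z = PowerSeries.coeff j (zeta f 0)) ∧
      Rel N (itr f κ) G ∧ Rel N (addyz (itr f κ)) G') :
    fst K * Z = elD K κ (fst K * zeta G 0) (fst K * zeta G' 0) := by
  ext N
  obtain ⟨f, hf, h1, h2, h3⟩ := h N
  rw [coeff_fst h1, zeta_elD f hf κ]
  exact coeff_elD κ _ _ _ _ N (coeff_fst fun j hj => (h2.zeta j hj).symm)
    (coeff_fst fun j hj => (h3.zeta j hj).symm)

theorem elD_mem {R : Type} [CommRing R] (φ : MK K →+* R) (κ : ℕ) :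
    ∀ (A B : PowerSeries (MK K)) (S1 S2 : Set (ℤ × ℤ)), (∀ p ∈ S1, 0 < p.2) →
      (∀ p ∈ S2, 0 < p.2) →
      PowerSeries.map φ A ∈ ratR (Units.map (φ : MK K →* R) (Lu K)) S1 →
      PowerSeries.map φ B ∈ ratR (Units.map (φ : MK K →* R) (Lu K)) S2 →
      PowerSeries.map φ (elD K κ A B) ∈
        ratR (Units.map (φ : MK K →* R) (Lu K)) (shn κ S1 ∪ shn (κ + 1) S2) := by
  set u : Rˣ := Units.map (φ : MK K →* R) (Lu K) with hu
  have hul : φ ((Lu K : (MK K)ˣ) : MK K) = (u : R) := rfl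
  induction κ with
  | zero =>
    intro A B S1 S2 _ _ hz1 _
    refine ratR_mono _ ?_ hz1
    intro p hp
    refine Or.inl ⟨p, hp, ?_⟩
    simp
  | succ κ ih =>
    intro A B S1 S2 hS1 hS2 hz1 hz2
    have h3 : PowerSeries.map φ (elE K A B) ∈ ratR u (shn 1 S1 ∪ shn 1 (shn 1 S2)) := by
      unfold elE
      rw [map_mul, map_sub, map_mul, map_rescale, map_rescale, map_rescale, hul,
        PowerSeries.map_C, map_add, map_mul, PowerSeries.map_C]
      have m1 := ratR_mono u (T := shn 1 S1 ∪ shn 1 (shn 1 S2)) Set.subset_union_left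
        (rescale_memR u hS1 hz1)
      have m2 := ratR_mono u (T := shn 1 S1 ∪ shn 1 (shn 1 S2)) Set.subset_union_right
        (rescale_memR u (shn_pos hS2) (rescale_memR u hS2 hz2))
      exact (ratR u _).mul_mem (CR_mem u _ _) ((ratR u _).sub_mem ((ratR u _).mul_mem
        ((ratR u _).add_mem ((ratR u _).mul_mem (CR_mem u _ _) (CR_mem u _ _)) (CR_mem u _ _)) m1)
        m2)
    have h4 := ih (elE K A B) A (shn 1 S1 ∪ shn 1 (shn 1 S2)) S1 ?_ hS1 h3 hz1
    · rw [shn_union, shn_shn, shn_shn, shn_shn] at h4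
      refine ratR_mono _ ?_ h4
      rintro p ((hp | hp) | hp)
      · exact Or.inl hp
      · right
        rw [show κ + (1 + 1) = κ + 1 + 1 by ring] at hp
        exact hp
      · exact Or.inl hp
    · rintro p (hp | hp)
      · exact shn_pos hS1 p hp
      · exact shn_pos (shn_pos hS2) p hp

end

section
variable {K : Type} [Field K]

/-- from `(1 - 𝕃⁻¹ T) Z` to `Z` -/
theorem of_fst {R : Type} [CommRing R] (φ : MK K →+* R) (Z : PowerSeries (MK K))
    (S : Set (ℤ × ℤ))
    (h : PowerSeries.map φ (fst K * Z) ∈ ratR (Units.map (φ : MK K →* R) (Lu K)) S) :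
    PowerSeries.map φ Z ∈
      ratR (Units.map (φ : MK K →* R) (Lu K)) (insert (-1, 1) S) := by
  set u : Rˣ := Units.map (φ : MK K →* R) (Lu K) with hu
  have h1 := Pool.Agent.TH216.MF.geoR_mul u (-1) 1 one_pos
  rw [show (1 : ℤ).toNat = 1 from rfl, zpow_neg_one, pow_one] at h1
  have h3 : PowerSeries.map φ (fst K) = 1 - PowerSeries.C ((u⁻¹ : Rˣ) : R) * PowerSeries.X := by
    unfold fst
    rw [map_sub, map_one, map_mul, PowerSeries.map_C, PowerSeries.map_X]
    rfl
  have h2 : geoR u (-1) 1 * PowerSeries.map φ (fst K * Z) = PowerSeries.map φ Z := by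
    rw [map_mul, h3]
    calc _ = ((1 - PowerSeries.C ((u⁻¹ : Rˣ) : R) * PowerSeries.X) * geoR u (-1) 1) *
        PowerSeries.map φ Z := by ring
      _ = _ := by rw [h1, one_mul]
  rw [← h2]
  exact (ratR u _).mul_mem (Pool.Agent.TH216.MF.geoR_mem u (p := ((-1 : ℤ), (1 : ℤ)))
    (Set.mem_insert _ _)) (ratR_mono u (Set.subset_insert _ _) h)

end

end Pool.Agent.J4.H70.CC
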