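import Pool.Agent.Y228.HX.S6
import Pool.Agent.TH216.ID.Gn1
import Pool.Agent.J4.H70.CC.Step

set_option autoImplicit false
set_option maxHeartbeats 400000

/-!
# Generic coefficients: the strong theorem with the factor `1 - 𝕃⁻¹ T`
-/

namespace Pool.Agent.J4.H70.CC

open Pool.Agent.Y228.HX
open Pool.Agent.TH216.MF (frc cser FR evR geoR_mul ratR ratR_mem CR_mem XR_mem geoR_mem IsPol fac)
open Pool.Agent.W426.SM (gord ford IsRay face)
open Pool.Agent.W803.SM (filt gord_le)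
open Pool.Agent.W428.MOT

section ring

variable {R : Type} [CommRing R] (u : Rˣ) {r N s : ℕ}

/-- membership, with the factor `1 - u⁻¹ T` -/
theorem FR_memXG' {S : Set (ℤ × ℤ)} (hr : 0 < r)
    (v : Fin r → Fin N → ℕ) (e : Fin s → Fin N → ℕ) (he : ∀ l, InNP v (e l))
    (ω : Fin r → ℕ) (l : List (Fin N → ℕ))
    (hl : ∀ a ∈ l, 0 < gord v a ∧ (-((∑ i, a i : ℕ) : ℤ), (gord v a : ℤ)) ∈ S)
    (hGg : IsPol (Ug v ω * (l.map (fac v)).prod))
    (hGk : IsPol (US v (KP v ω) * (l.map (fac v)).prod))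
    (hu : IsUnit (1 - ((u⁻¹ : Rˣ) : R))) (b0 b1 : Finset (Fin (r + s)) → R)
    (g k : Finset (Fin (r + s)) → R)
    (hg : ∀ τ, cser (Fin.append v e) Finset.univ τ ≠ 0 →
      (1 - ((u⁻¹ : Rˣ) : R)) ^ r * g τ = evR u (GP v ω (rs τ)))
    (hk : ∀ τ, cser (Fin.append v e) Finset.univ τ ≠ 0 →
      (1 - ((u⁻¹ : Rˣ) : R)) ^ r * k τ = evR u (KP v ω (rs τ)))
    (hb0 : ∀ τ, cser (Fin.append v e) Finset.univ τ ≠ 0 → b0 τ = ((u : R) - 1) ^ (N - frc (Fin.append v e) Finset.univ τ) *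
      ((u⁻¹ : Rˣ) : R) * (1 - g τ - (u : R) * k τ))
    (hb1 : ∀ τ, cser (Fin.append v e) Finset.univ τ ≠ 0 → b1 τ = ((u : R) - 1) ^ (N - frc (Fin.append v e) Finset.univ τ) *
      ((u⁻¹ : Rˣ) : R) * (1 + ((u : R) - 1) * g τ)) :
    (1 - PowerSeries.C ((u⁻¹ : Rˣ) : R) * PowerSeries.X) *
      FR u (Fin.append v e) Finset.univ b0 b1 ∈ ratR u S := by
  have h0 := FR_XG u (Fin.append v e) r (fun τ => GP v ω (rs τ)) (fun τ => KP v ω (rs τ)) b0 b1 g k
    hg hk hb0 hb1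
  have hUU : (PowerSeries.X - 1) * US (Fin.append v e) (fun τ => GP v ω (rs τ)) +
      US (Fin.append v e) (fun _ => (1 - Polynomial.X) ^ r) = Ug v ω := by
    rw [US_app v e hr he (GP v ω), US_app v e hr he (fun _ => (1 - Polynomial.X) ^ r)]
    rfl
  rw [hUU, US_app v e hr he (KP v ω)] at h0
  set Y : R := ((u⁻¹ : Rˣ) : R) with hY
  obtain ⟨D, hD⟩ := hu
  have hDi : PowerSeries.C (((D⁻¹ : Rˣ) : R) ^ r) * PowerSeries.C ((1 - Y) ^ r) = 1 := by
    rw [← map_mul, ← hD, ← mul_pow, Units.inv_mul, one_pow, map_one]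
  have h1 : (1 - PowerSeries.C Y * PowerSeries.X) * FR u (Fin.append v e) Finset.univ b0 b1 =
      PowerSeries.C (((D⁻¹ : Rˣ) : R) ^ r) *
      (PowerSeries.C ((u : R) ^ N * Y) * (PowerSeries.map (evR u) (Ug v ω) -
        PowerSeries.C (u : R) * (1 - PowerSeries.C Y * PowerSeries.X) *
          PowerSeries.map (evR u) (US v (KP v ω)))) := by
    rw [← h0]
    linear_combination (-((1 - PowerSeries.C Y * PowerSeries.X) *
      FR u (Fin.append v e) Finset.univ b0 b1)) * hDi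
  rw [h1]
  have hG1 := ratR_mem (S := S) u v l hl _ hGg
  have hG2 := ratR_mem (S := S) u v l hl _ hGk
  exact (ratR u S).mul_mem (CR_mem u S _) ((ratR u S).mul_mem
    (CR_mem u S _) ((ratR u S).sub_mem hG1 ((ratR u S).mul_mem ((ratR u S).mul_mem
      (CR_mem u S _) ((ratR u S).sub_mem (ratR u S).one_mem ((ratR u S).mul_mem
        (CR_mem u S _) (XR_mem u S)))) hG2)))

end ring

section field

variable {r N s : ℕ}

/-- **The theorem over one field.** -/
theorem hodgeXG_mem' (hEHR : S_EHR) (hSER : S_SER) (hINDP : S_INDP) (hEXP : S_EXP)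
    (hRATI : S_RATI)
    (hr : 0 < r) (K : Type) [Field K] [CharZero K] (φ : MK K →+* RatFunc ℚ) (hφ : ChiY φ)
    (v : Fin r → Fin N → ℕ) (hv0 : ∀ j, v j ≠ 0) (e : Fin s → Fin N → ℕ)
    (he : ∀ l, InNP v (e l)) (hm : Function.Injective (Fin.append v e)) (c : Fin (r + s) → K)
    (hc : ∀ j, c j ≠ 0)
    (hnd : Pool.Agent.Y229.CF.NonDP (Fin.append v e)
      (fun j => algebraMap K (AlgebraicClosure K) (c j)))
    (hNon : Pool.Agent.Y229.CF.Mot.NonGJ Finset.univ (Fin.append v e) c) (S : Set (ℤ × ℤ))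
    (ω : Fin r → ℕ) (hG : Gen v ω) (l : List (Fin N → ℕ))
    (hl : ∀ a ∈ l, 0 < gord v a ∧ (-((∑ i, a i : ℕ) : ℤ), (gord v a : ℤ)) ∈ S)
    (hGg : IsPol (Ug v ω * (l.map (fac v)).prod))
    (hGk : IsPol (US v (KP v ω) * (l.map (fac v)).prod)) :
    PowerSeries.map φ (fst K * zeta (sp 0 (Fin.append v e) c 1) 0) ∈ ratR uX S := by
  classical
  have hrs : 0 < r + s := by omega
  have hm0 := app_ne v e hv0 he
  set m := Fin.append v e with hmdef
  obtain ⟨b0, b1, z0, hz, hb0, hb1⟩ := zeta_FR m hrs c hNon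
  have hu : Units.map (φ : MK K →* RatFunc ℚ) (Lu K) = uX := Units.ext hφ.1
  have hfst : PowerSeries.map φ (fst K) =
      1 - PowerSeries.C ((uX⁻¹ : (RatFunc ℚ)ˣ) : RatFunc ℚ) * PowerSeries.X := by
    unfold fst
    rw [map_sub, map_one, map_mul, PowerSeries.map_C, PowerSeries.map_X, ← hu]
    rfl
  rw [map_mul, hfst, hz, map_add, FR_map, hu, PowerSeries.map_C, mul_add]
  refine (ratR uX S).add_mem ?_ ((ratR uX S).mul_mem ((ratR uX S).sub_mem (ratR uX S).one_mem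
    ((ratR uX S).mul_mem (CR_mem uX S _) (XR_mem uX S))) (CR_mem uX S _))
  have hX0 : (RatFunc.X : RatFunc ℚ) ≠ 0 := RatFunc.X_ne_zero
  have hX1 := X_sub_one_ne
  have hX1' : (1 - RatFunc.X : RatFunc ℚ) ≠ 0 := fun h => hX1 (by linear_combination -h)
  have hui : ((uX⁻¹ : (RatFunc ℚ)ˣ) : RatFunc ℚ) = (RatFunc.X : RatFunc ℚ)⁻¹ := rfl
  have huv : ((uX : (RatFunc ℚ)ˣ) : RatFunc ℚ) = RatFunc.X := rfl
  have hev : ∀ p : Polynomial ℤ, evR uX p =
      Polynomial.eval₂ (Int.castRingHom (RatFunc ℚ)) (RatFunc.X : RatFunc ℚ)⁻¹ p := fun p => rfl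
  have hdat : ∀ τ : Finset (Fin (r + s)), cser m Finset.univ τ ≠ 0 → ∃ x : Fin N → ℕ,
      (∀ i, 0 < x i) ∧ τ = amin m x ∧ (∀ i, 0 < (x i : ℚ)) ∧
      (∀ j, ((gord v x : ℕ) : ℚ) ≤ ∑ i, (x i : ℚ) * (v j i : ℚ)) ∧
      0 < ((gord v x : ℕ) : ℚ) ∧
      ∀ j, j ∈ rs τ ↔ ∑ i, (x i : ℚ) * (v j i : ℚ) = ((gord v x : ℕ) : ℚ) := by
    intro τ hτ
    obtain ⟨x, hx, hxτ⟩ := cser_ex m τ hτ
    obtain ⟨h1, h2, h3, h4⟩ := face_data hr v hv0 x hx
    refine ⟨x, hx, hxτ.symm, h1, h2, h3, ?_⟩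
    intro j
    rw [← hxτ, hmdef, rs_amin v e hr he x]
    exact h4 j
  -- the values of the classes
  have hcoef : ∀ d : ℕ, ((1 - Polynomial.X : Polynomial ℚ) ^ d).coeff 0 ≠ 0 := by
    intro d
    rw [Polynomial.coeff_zero_eq_eval_zero]
    simp
  have hval1 : ∀ τ, cser m Finset.univ τ ≠ 0 → φ (b1 τ) * (RatFunc.X - 1) ^ frc m Finset.univ τ =
      ((RatFunc.X - 1) ^ N + (RatFunc.X - 1) ^ (N + 1) * gX v ω (rs τ)) / RatFunc.X := by
    intro τ hτ
    obtain ⟨x, hx, hxτ, h1, h2, h3, h4⟩ := hdat τ hτ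
    have h5 := A0_eq hEHR hSER hINDP v ω hG _ _ h1 h2 h3 (rs τ) h4
    have h6 := Expd_of (A0 v ω (rs τ)) ((1 - Polynomial.X) ^ r) (hcoef r) _ (by
      rw [h5]
      push_cast
      rfl)
    have h7 := (hEXP r N v ω hG _ _ h1 h2 h3 (rs τ) h4).1 _ h6
    have hDD : (PowerSeries.mk fun k => ((Dil m τ k).ncard : ℚ)) =
        PowerSeries.mk fun k => ((Dil v (rs τ) k).ncard : ℚ) := by
      congr 1
      funext k
      rw [hxτ, hmdef, Dil_app v e hr he x hx, rs_amin v e hr he x]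
    have h8 := hφ.2 N (r + s) m τ c _ (fun j _ => hc j) (fun a _ b _ h => hm h)
      (by rw [hxτ]; exact nonL_face hrs m c hnd x hx) (by rw [hDD]; exact h6)
    have h9 := congrArg φ (hb1 τ)
    rw [map_mul, map_pow, map_sub, map_one, hφ.1] at h9
    rw [h9]
    unfold clM
    rw [← ZT_zero, h8, h7]
    rfl
  have hval0 : ∀ τ, cser m Finset.univ τ ≠ 0 → φ (b0 τ) * (RatFunc.X - 1) ^ frc m Finset.univ τ =
      ((RatFunc.X - 1) ^ N + (RatFunc.X - 1) ^ (N + 1) *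
        ∑ I ∈ (rs τ).powerset, (if TT v ω I then
        (Polynomial.aeval (RatFunc.X : RatFunc ℚ) (P1 v I)) / (1 - RatFunc.X) ^ I.card +
        (Polynomial.aeval (RatFunc.X : RatFunc ℚ) (P1 (vp v) (Ip I))) /
          (1 - RatFunc.X) ^ (I.card + 1) else 0)) / RatFunc.X := by
    intro τ hτ
    obtain ⟨x, hx, hxτ, h1, h2, h3, h4⟩ := hdat τ hτ
    have h5 := A1_eq hEHR hSER hINDP v ω hG _ _ h1 h2 h3 (rs τ) h4
    have h6 := Expd_of (A1 v ω (rs τ)) ((1 - Polynomial.X) ^ (r + 1)) (hcoef (r + 1)) _ (by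
      rw [h5]
      push_cast
      rfl)
    have h7 := (hEXP r N v ω hG _ _ h1 h2 h3 (rs τ) h4).2 _ h6
    have h10 : gord v x ≠ 0 := by
      have h11 : 0 < gord v x := by exact_mod_cast h3
      omega
    have h12 : NonL (vp m) (Ip τ) (cp1 c) := by
      refine nonL_vp m c τ (by rw [hxτ]; exact nonL_face hrs m c hnd x hx) x (gord v x) h10 ?_
      intro j hj
      rw [hxτ] at hj
      have h13 := (Finset.mem_filter.1 hj).2
      rw [h13, hmdef, gord_app v e hr he x]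
    have h14 : (PowerSeries.mk fun k => ((Dil (vp m) (Ip τ) k).ncard : ℚ)) =
        PowerSeries.mk fun k => ((Dil0 v (rs τ) k).ncard : ℚ) := by
      simp_rw [dil_vp]
      congr 1
      funext k
      rw [hxτ, hmdef, Dil0_app v e hr he x hx, rs_amin v e hr he x]
    have h8 := hφ.2 N (r + s + 1) (vp m) (Ip τ) (cp1 c) _ (fun j _ => by
        refine Fin.cases ?_ (fun j' => ?_) j
        · exact neg_ne_zero.2 one_ne_zero
        · exact hc j') (injOn_vp m hm hm0 τ) h12 (by rw [h14]; exact h6)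
    have h9 := congrArg φ (hb0 τ)
    rw [map_mul, map_pow, map_sub, map_one, hφ.1] at h9
    rw [h9]
    unfold clM
    rw [← ZT_one, h8, h7]
  have hpow : ∀ τ, (RatFunc.X - 1 : RatFunc ℚ) ^ N = (RatFunc.X - 1) ^ (N - frc m Finset.univ τ) *
      (RatFunc.X - 1) ^ frc m Finset.univ τ := by
    intro τ
    rw [← pow_add, Nat.sub_add_cancel (frcN m τ)]
  refine FR_memXG' uX hr v e he ω l hl hGg hGk ?_ _ _ (fun τ => gX v ω (rs τ))
    (fun τ => kX v ω (rs τ)) ?_ ?_ ?_ ?_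
  · rw [hui, isUnit_iff_ne_zero]
    intro h
    apply hX1
    field_simp at h
    linear_combination h
  · -- the first class function
    intro τ hτ
    rw [hui, hev]
    change (1 - (RatFunc.X : RatFunc ℚ)⁻¹) ^ r * gX v ω (rs τ) = _
    unfold gX GP
    rw [Finset.mul_sum, Polynomial.eval₂_finset_sum]
    refine Finset.sum_congr rfl fun I hI => ?_
    split_ifs with hT
    · have h1 := hRATI r N v I ((hINDP r N v ω hG).1 I hT) r (card_le_r I)
      rw [← h1]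
      ring
    · simp
  · intro τ hτ
    obtain ⟨x, hx, hxτ, a1, a2, a3, a4⟩ := hdat τ hτ
    rw [hui, hev]
    change (1 - (RatFunc.X : RatFunc ℚ)⁻¹) ^ r * kX v ω (rs τ) = _
    unfold kX KP
    rw [Finset.mul_sum, Polynomial.eval₂_finset_sum]
    refine Finset.sum_congr rfl fun I hI => ?_
    split_ifs with hT
    · have h1 := hRATI r N v I ((hINDP r N v ω hG).1 I hT) r (card_le_r I)
      have h2 := hRATI (r + 1) N (vp v) (Ip I) ((hINDP r N v ω hG).2 _ _ a3.ne' I hT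
        fun j hj => (a4 j).1 (Finset.mem_powerset.1 hI hj)) (r + 1) (card_le_r _)
      rw [card_Ip] at h2
      rw [Polynomial.eval₂_sub, Polynomial.eval₂_neg, ← h1, ← h2]
      ring
    · simp
  · -- the classes `b0`
    intro τ hτ
    have h1 := hval0 τ hτ
    rw [hpow τ, pow_succ, hpow τ] at h1
    have h2 : gX v ω (rs τ) + RatFunc.X * kX v ω (rs τ) = (1 - RatFunc.X) *
        ∑ I ∈ (rs τ).powerset, (if TT v ω I then
        (Polynomial.aeval (RatFunc.X : RatFunc ℚ) (P1 v I)) / (1 - RatFunc.X) ^ I.card +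
        (Polynomial.aeval (RatFunc.X : RatFunc ℚ) (P1 (vp v) (Ip I))) /
          (1 - RatFunc.X) ^ (I.card + 1) else 0) := by
      unfold gX kX
      rw [Finset.mul_sum, Finset.mul_sum, ← Finset.sum_add_distrib]
      refine Finset.sum_congr rfl fun I _ => ?_
      split_ifs
      · generalize (Polynomial.aeval (RatFunc.X : RatFunc ℚ)) (P1 (vp v) (Ip I)) /
          (1 - RatFunc.X) ^ (I.card + 1) = B
        generalize (Polynomial.aeval (RatFunc.X : RatFunc ℚ)) (P1 v I) /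
          (1 - RatFunc.X) ^ I.card = A
        field_simp
        ring
      · simp
    rw [hui, huv]
    have h3 : (1 - gX v ω (rs τ) - RatFunc.X * kX v ω (rs τ)) = 1 + (RatFunc.X - 1) *
        ∑ I ∈ (rs τ).powerset, (if TT v ω I then
        (Polynomial.aeval (RatFunc.X : RatFunc ℚ) (P1 v I)) / (1 - RatFunc.X) ^ I.card +
        (Polynomial.aeval (RatFunc.X : RatFunc ℚ) (P1 (vp v) (Ip I))) /
          (1 - RatFunc.X) ^ (I.card + 1) else 0) := by
      linear_combination -h2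
    rw [h3]
    have hp : (RatFunc.X - 1 : RatFunc ℚ) ^ frc m Finset.univ τ ≠ 0 := pow_ne_zero _ hX1
    apply mul_right_cancel₀ hp
    rw [h1, div_eq_mul_inv]
    ring
  · intro τ hτ
    have h1 := hval1 τ hτ
    rw [hpow τ, pow_succ, hpow τ] at h1
    rw [hui, huv]
    have hp : (RatFunc.X - 1 : RatFunc ℚ) ^ frc m Finset.univ τ ≠ 0 := pow_ne_zero _ hX1
    apply mul_right_cancel₀ hp
    rw [h1, div_eq_mul_inv]
    ring

end field

section gen

open MvPolynomial Pool.Agent.H628R4.TP Pool.Agent.W425.MM Pool.Agent.W425.GN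
open Pool.Agent.TH216.MC (pos_of_ray)
open Pool.Agent.TH216.ID (PI eval_ne_of_mult' rootsI)
open Pool.Agent.W425.ND (spa)
open Pool.Agent.W425.SV (NP RelV Kil1)
open Pool.Agent.TH216.MF (RelG KilU)

variable {r N : ℕ}

/-- the relation at `α`, with generic heights -/
theorem relGen' [NeZero r] {F : Type} [Field F] (v : Fin r → Fin N → ℕ)
    (hv : Function.Injective v) (hv0 : ∀ j, v j ≠ 0) (h : MvPolynomial (Fin N) F)
    (hh : ∀ w ∈ h.support, NP v w) (α : ℚ) (hn : ¬ PI v h α) :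
    ∃ (ω : Fin r → ℕ) (p : Polynomial ℂ), Gen v ω ∧
      RelG v (Kil1 v) (KilU v fun j => -(ω j : ℤ)) p ∧ p.eval (α : ℂ) ≠ 0 := by
  unfold PI HPL at hn
  push Not at hn
  obtain ⟨F', _, _, a, h', ha, hs, b', hb', hnd⟩ := hn
  have hb0 : b' ≠ 0 := fun h => hnd (h ▸ dvd_zero _)
  have hJ := (feqL_iff _ b').2 hb'
  obtain ⟨θ, hθ⟩ := Pool.Agent.W422.GC.exists_heights r
  obtain ⟨p, q, hbp, hp⟩ := Pool.Agent.W422.GC.rel_of_unit True _ unit_cond v a
    hv hv0 ha h' (fun w hw => hh w (hs w hw)) θ hθ b' hb0 hJ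
  have hp0 : p ≠ 0 := by
    rintro rfl
    apply hb0
    rw [hbp]
    simp
  obtain ⟨ω, hG, h1⟩ := Pool.Agent.Y26.HX.t_GENREL r N v θ True p hθ hp
  refine ⟨ω, p, hG, h1, eval_ne_of_mult' hp0 _ ?_⟩
  have h1 : (Polynomial.X + 1) * p ∣ b' := ⟨q, hbp⟩
  have h2 := Polynomial.rootMultiplicity_le_rootMultiplicity_of_dvd hb0 h1 (α : ℂ)
  refine h2.trans ?_
  by_contra hcon
  push Not at hcon
  exact hnd ((Polynomial.le_rootMultiplicity_iff hb0).1 hcon)

/-- **The formal part, generic coefficients.** -/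
theorem uniG' (hr : 0 < r) {F : Type} [Field F] (v : Fin r → Fin N → ℕ)
    (hv : Function.Injective v) (hv0 : ∀ j, v j ≠ 0) (h : MvPolynomial (Fin N) F)
    (hh : ∀ w ∈ h.support, NP v w) :
    ∃ (ω0 : Fin r → ℕ) (l : List (Fin N → ℕ)), Gen v ω0 ∧
      (∀ a ∈ l, IsRay v a ∧ 0 < gord v a ∧
        PI v h (-(((∑ i, a i : ℕ) : ℚ) / gord v a))) ∧
      IsPol (Ug v ω0 * (l.map (fac v)).prod) ∧
      IsPol (US v (KP v ω0) * (l.map (fac v)).prod) := by
  classical
  have hne : NeZero r := ⟨by omega⟩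
  obtain ⟨θ0, hθ0⟩ := Pool.Agent.W422.GC.exists_heights r
  obtain ⟨ω0, hG0, -⟩ := Pool.Agent.Y26.HX.t_GENREL r N v θ0 True 0 hθ0 ⟨0, 0, 0, fun k => k.elim0,
    fun k => k.elim0, fun k => k.elim0, fun k => k.elim0, fun k => k.elim0, fun k => k.elim0,
    fun k => k.elim0, by simp⟩
  obtain ⟨l, hl, hUg, hUk⟩ := formalHX Pool.Agent.Y434.HX.t_ANN s_zi Pool.Agent.Y688.HX.t_ZPT
    Pool.Agent.Y188.HX.t_FAR s_ehr Pool.Agent.Y625.HX.t_SER Pool.Agent.Y26.HX.t_INDP
    Pool.Agent.Y155.HX.t_BOX s_kr2 hr v hv0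
    (fun σ => ¬ PI v h (-σ)) (fun σ hσ => relGen' v hv hv0 h hh (-σ) hσ) ω0 hG0
  exact ⟨ω0, l, hG0, fun a ha => ⟨(hl a ha).1, (hl a ha).2.1, not_not.1 (hl a ha).2.2⟩, hUg, hUk⟩

/-- **Generic coefficients, with the factor `1 - 𝕃⁻¹ T`.** -/
theorem strongF {F : Type} [Field F] [Algebra F ℂ] (hr : 0 < r)
    (v : Fin r → Fin N → ℕ) (hv : Function.Injective v) (hv0 : ∀ j, v j ≠ 0)
    (h : MvPolynomial (Fin N) F) (hh : ∀ w ∈ h.support, InNP v fun i => w i)
    (hvh : ∀ w ∈ h.support, ∀ j, ¬ ∀ x, w x = v j x) :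
    ∃ (g : MvPolynomial (Fin r) F) (S : Finset (ℤ × ℤ)), g ≠ 0 ∧
      (∀ p ∈ S, ∃ a : Fin N → ℕ, IsRay v a ∧ 0 < gord v a ∧
        p = (-((∑ i, a i : ℕ) : ℤ), (gord v a : ℤ))) ∧
      ∀ (k : Type) [Field k] [Algebra F k] [Algebra k ℂ] [IsScalarTower F k ℂ] (c : Fin r → k),
        aeval c g ≠ 0 →
        (∀ p ∈ S, ∀ b : Polynomial ℂ, IsLocalBFunction
          (spa v (fun j => algebraMap k ℂ (c j)) + MvPolynomial.map (algebraMap F ℂ) h)
            ((Polynomial.X + 1) * b) → b.eval ((p.1 : ℂ) / p.2) = 0) ∧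
        ∀ (K : Type) [Field K] [Algebra k K] (φ : MK K →+* RatFunc ℚ), ChiY φ →
          PowerSeries.map φ (fst K * zeta (spa v (fun j => algebraMap k K (c j)) +
            MvPolynomial.map ((algebraMap k K).comp (algebraMap F k)) h) 0) ∈ ratR uX S := by
  classical
  have hh' : ∀ w ∈ h.support, NP v w := fun w hw => (hh w hw).np
  have hne : NeZero r := ⟨by omega⟩
  obtain ⟨g1, hg1, h1⟩ := rootsI (F := F) hr v hv h
  obtain ⟨g2, hg2, h2⟩ := gen_nonDF pF4 hr v (we h) (we_np v h hh') (wc h)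
  obtain ⟨g3, hg3, h3⟩ := gen_ne (F := F) hr v hv h
  have hg4 : (∏ j : Fin r, (X j : MvPolynomial (Fin r) F)) ≠ 0 :=
    Finset.prod_ne_zero_iff.2 fun j _ => X_ne_zero j
  obtain ⟨ω0, l, hG, hl, hUg, hUk⟩ := uniG' hr v hv hv0 h hh'
  set S : Finset (ℤ × ℤ) :=
    l.toFinset.image fun a => (-((∑ i, a i : ℕ) : ℤ), (gord v a : ℤ)) with hS
  refine ⟨g1 * g2 * g3 * ∏ j : Fin r, (X j : MvPolynomial (Fin r) F), S,
    mul_ne_zero (mul_ne_zero (mul_ne_zero hg1 hg2) hg3) hg4, fun p hp => ?_,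
    fun k _ _ _ _ c hc0 => ?_⟩
  · obtain ⟨x, hx, rfl⟩ := Finset.mem_image.1 hp
    obtain ⟨hray, hg, -⟩ := hl x (List.mem_toFinset.1 hx)
    exact ⟨x, hray, hg, rfl⟩
  have hc : aeval (fun j => algebraMap k ℂ (c j))
      (g1 * g2 * g3 * ∏ j : Fin r, (X j : MvPolynomial (Fin r) F)) ≠ 0 := by
    intro h0
    apply hc0
    have h3 : algebraMap k ℂ (aeval c
        (g1 * g2 * g3 * ∏ j : Fin r, (X j : MvPolynomial (Fin r) F))) = 0 := by
      rw [← h0, ← aeval_algebraMap_apply]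
      rfl
    exact (map_eq_zero _).1 h3
  rw [map_mul, map_mul, map_mul, map_prod] at hc
  have hcne : ∀ j, c j ≠ 0 := by
    intro j hj
    have h5 := Finset.prod_ne_zero_iff.1 (right_ne_zero_of_mul hc) j (Finset.mem_univ j)
    rw [aeval_X, hj, map_zero] at h5
    exact h5 rfl
  have hc123 := left_ne_zero_of_mul hc
  have hb := h1 _ (left_ne_zero_of_mul (left_ne_zero_of_mul hc123))
  have hnd := h2 _ (right_ne_zero_of_mul (left_ne_zero_of_mul hc123))
  have hfne := h3 _ (right_ne_zero_of_mul hc123)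
  refine ⟨fun p hp b hb' => ?_, fun K _ _ φ hφ => ?_⟩
  · obtain ⟨x, hx, rfl⟩ := Finset.mem_image.1 hp
    obtain ⟨-, -, hP⟩ := hl x (List.mem_toFinset.1 hx)
    have hL : FEqL (spa v (fun j => algebraMap k ℂ (c j)) +
        MvPolynomial.map (algebraMap F ℂ) h) ((Polynomial.X + 1) * b) := by
      obtain ⟨_, d, P, hd, hP⟩ := Pool.Agent.W368.SL.taskL1 _ _
        hfne (Pool.Agent.W425.SV.f_const hv0 _ h hh')
        (Pool.Agent.W425.SL.toSL hb')
      refine (feqL_iff _ _).1 ((Pool.Agent.W591.GC.J_iff _ _ _).2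
        ⟨d, Pool.Agent.W591.GC.mem_S1.2 hd, P, fun s => ?_⟩)
      rw [← hP s]
      ring
    rw [← hb b hL _ hP]
    congr 1
    push_cast
    ring
  have hK : CharZero K := by
    have hkc : CharZero k := RingHom.charZero (algebraMap k ℂ)
    exact charZero_of_injective_algebraMap (algebraMap k K).injective
  have hnk : NonD (Fin.append v (we h)) (fun j => algebraMap k ℂ
      (Fin.append c (fun l => algebraMap F k (wc h l)) j)) := by
    rw [append_map]
    simp only [← IsScalarTower.algebraMap_apply F k ℂ]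
    exact hnd
  set m := Fin.append v (we h) with hm
  set c' : Fin (r + h.support.card) → K := Fin.append (fun j => algebraMap k K (c j))
    (fun l => (algebraMap k K).comp (algebraMap F k) (wc h l)) with hc'
  have hf : spa v (fun j => algebraMap k K (c j)) +
      MvPolynomial.map ((algebraMap k K).comp (algebraMap F k)) h = sp 0 m c' 1 :=
    sp_eq ((algebraMap k K).comp (algebraMap F k)) v (fun j => algebraMap k K (c j)) h
  have hndA : NonD m (fun j => algebraMap K (AlgebraicClosure K) (c' j)) := by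
    have h4 := nonD_ext (k := k) (L := AlgebraicClosure K) _ _ hnk
    have h5 : (fun j => algebraMap K (AlgebraicClosure K) (c' j)) =
        fun j => algebraMap k (AlgebraicClosure K)
          (Fin.append c (fun l => algebraMap F k (wc h l)) j) := by
      rw [hc', append_map, append_map]
      congr 1
    rw [h5]
    exact h4
  have hNG := nonG_of_nonD m c' hndA
  have hcn' : ∀ j, c' j ≠ 0 := by
    intro j
    refine Fin.addCases (fun j => ?_) (fun l => ?_) j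
    · rw [hc', Fin.append_left]
      exact (map_ne_zero _).2 (hcne j)
    · rw [hc', Fin.append_right]
      exact (map_ne_zero _).2 (mem_support_iff.1 (h.support.equivFin.symm l).2)
  rw [hf]
  exact hodgeXG_mem' s_ehr Pool.Agent.Y625.HX.t_SER Pool.Agent.Y26.HX.t_INDP s_exp
    Pool.Agent.Y212.HX.t_RATI hr K φ hφ v hv0 (we h)
    (fun l => hh _ (h.support.equivFin.symm l).2) (app_inj v hv h hvh) c' hcn'
    (fun u _ z hz h0 => hndA u z hz h0) (fun u _ z h1 h2 => hNG u z h1 h2) (S : Set (ℤ × ℤ))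
    ω0 hG l (fun a ha => ⟨(hl a ha).2.1, Finset.mem_coe.2
      (Finset.mem_image.2 ⟨a, List.mem_toFinset.2 ha, rfl⟩)⟩) hUg hUk

end gen

end Pool.Agent.J4.H70.CC
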