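import Pool.Agent.J4.H70.CC.CI

/-!
# Truncation and negativity
-/

set_option autoImplicit false

namespace Pool.Agent.J4.H70.CC

open MvPolynomial Pool.Agent.W428.MOT
open Pool.Agent.Y229.MS (addyz itr stabK shn)
open Pool.Agent.Y229.RE (xv yv zv emb emb_l emb_r emb_inj emb_ne_y y_inj)

section
variable {K : Type} [Field K] {n κ a : ℕ}

theorem trunc_coe (N : ℕ) (p : MvPolynomial (Fin a) K) :
    MvPowerSeries.truncTotal (N + 1) (p : MvPowerSeries (Fin a) K) - p ∈ mm K a ^ (N + 1) := by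
  rw [mm, mem_pow_idealOfVars_iff']
  intro x hx
  rw [coeff_sub, MvPowerSeries.coeff_truncTotal _ hx, MvPolynomial.coeff_coe, sub_self]

theorem trunc_mul (N : ℕ) (q : MvPowerSeries (Fin a) K) (p : MvPolynomial (Fin a) K) :
    MvPowerSeries.truncTotal (N + 1) (q * (p : MvPowerSeries (Fin a) K)) -
      MvPowerSeries.truncTotal (N + 1) q * p ∈ mm K a ^ (N + 1) := by
  have h1 := MvPowerSeries.truncTotal_mul_sub_mul_truncTotal_mem_pow_idealOfVars (n := N + 1) q
    (p : MvPowerSeries (Fin a) K)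
  have h2 := Ideal.mul_mem_left (mm K a ^ (N + 1)) (MvPowerSeries.truncTotal (N + 1) q)
    (trunc_coe N p)
  have h3 := Ideal.add_mem _ h1 h2
  have e : MvPowerSeries.truncTotal (N + 1) (q * (p : MvPowerSeries (Fin a) K)) -
      MvPowerSeries.truncTotal (N + 1) q * MvPowerSeries.truncTotal (N + 1)
        (p : MvPowerSeries (Fin a) K) + MvPowerSeries.truncTotal (N + 1) q *
        (MvPowerSeries.truncTotal (N + 1) (p : MvPowerSeries (Fin a) K) - p) =
      MvPowerSeries.truncTotal (N + 1) (q * (p : MvPowerSeries (Fin a) K)) -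
      MvPowerSeries.truncTotal (N + 1) q * p := by ring
  rwa [e] at h3

theorem trunc_ren (N : ℕ) (f : MvPowerSeries (Fin n) K) :
    rename (Fin.castAdd κ) (MvPowerSeries.truncTotal (N + 1) f) -
      MvPowerSeries.truncTotal (N + 1) (MvPowerSeries.rename (Fin.castAdd κ) f) ∈
        mm K (n + κ) ^ (N + 1) := by
  rw [mm, mem_pow_idealOfVars_iff']
  intro x hx
  rw [coeff_sub, MvPowerSeries.coeff_truncTotal _ hx, ← MvPolynomial.coeff_coe,
    ← MvPowerSeries.rename_coe, MvPowerSeries.coeff_rename, MvPowerSeries.coeff_rename,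
    sub_eq_zero]
  refine Finset.sum_congr rfl fun w hw => ?_
  rw [Set.Finite.mem_toFinset, Set.mem_preimage, Set.mem_singleton_iff] at hw
  rw [MvPolynomial.coeff_coe, MvPowerSeries.coeff_truncTotal]
  rw [← hw, Finsupp.degree_mapDomain] at hx
  exact hx

/-- **Truncation of the relation.** -/
theorem trunc_rel (N : ℕ) {l : Fin κ → MvPolynomial (Fin (n + κ)) K}
    {Φ : MvPolynomial (Fin (n + κ)) K} {f : MvPowerSeries (Fin n) K}
    {q : Fin κ → MvPowerSeries (Fin (n + κ)) K}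
    (hF : (Φ : MvPowerSeries (Fin (n + κ)) K) = MvPowerSeries.rename (Fin.castAdd κ) f +
      ∑ i, q i * (l i : MvPowerSeries (Fin (n + κ)) K)) :
    rename (Fin.castAdd κ) (MvPowerSeries.truncTotal (N + 1) f) +
      ∑ i, MvPowerSeries.truncTotal (N + 1) (q i) * l i - Φ ∈ mm K (n + κ) ^ (N + 1) := by
  have h1 := trunc_coe N Φ
  rw [hF, map_add, map_sum] at h1
  have h2 := trunc_ren (κ := κ) N f
  have h3 : ∑ i, (MvPowerSeries.truncTotal (N + 1) (q i * (l i : MvPowerSeries (Fin (n + κ)) K)) -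
      MvPowerSeries.truncTotal (N + 1) (q i) * l i) ∈ mm K (n + κ) ^ (N + 1) :=
    Ideal.sum_mem _ fun i _ => trunc_mul N (q i) (l i)
  rw [Finset.sum_sub_distrib] at h3
  have h4 := Ideal.sub_mem _ (Ideal.add_mem _ h1 h2) h3
  have e : MvPowerSeries.truncTotal (N + 1) (MvPowerSeries.rename (Fin.castAdd κ) f) +
      ∑ i, MvPowerSeries.truncTotal (N + 1) (q i * (l i : MvPowerSeries (Fin (n + κ)) K)) - Φ +
      (rename (Fin.castAdd κ) (MvPowerSeries.truncTotal (N + 1) f) -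
        MvPowerSeries.truncTotal (N + 1) (MvPowerSeries.rename (Fin.castAdd κ) f)) -
      (∑ i, MvPowerSeries.truncTotal (N + 1) (q i * (l i : MvPowerSeries (Fin (n + κ)) K)) -
        ∑ i, MvPowerSeries.truncTotal (N + 1) (q i) * l i) =
      rename (Fin.castAdd κ) (MvPowerSeries.truncTotal (N + 1) f) +
      ∑ i, MvPowerSeries.truncTotal (N + 1) (q i) * l i - Φ := by ring
  rwa [e] at h4

/-- a power series is zero if all its truncations are of high order -/
theorem zero_of_trunc {f : MvPowerSeries (Fin n) K}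
    (h : ∀ N, MvPowerSeries.truncTotal (N + 1) f ∈ mm K n ^ (N + 1)) : f = 0 := by
  ext x
  have h1 := h x.degree
  rw [mm, mem_pow_idealOfVars_iff'] at h1
  have h2 := h1 x (Nat.lt_succ_self _)
  rwa [MvPowerSeries.coeff_truncTotal _ (Nat.lt_succ_self _)] at h2

end

section
variable {K : Type} [Field K] {n κ : ℕ}

lemma sum_emb (u : Fin (n + (κ + κ)) → ℕ) (w : Fin (n + κ) →₀ ℕ) :
    ∑ v, u (emb v) * w v = ∑ i : Fin n, u (xv κ i) * w (Fin.castAdd κ i) +
      ∑ i : Fin κ, u (zv n i) * w (Fin.natAdd n i) := by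
  rw [Fin.sum_univ_add]
  congr 1
  · exact Finset.sum_congr rfl fun i _ => by rw [emb_l]
  · exact Finset.sum_congr rfl fun i _ => by rw [emb_r]

lemma sum_emb_z (u : Fin (n + (κ + κ)) → ℕ) (j : Fin κ) :
    ∑ v, u (emb v) * (Finsupp.single (Fin.natAdd n j) 1 : Fin (n + κ) →₀ ℕ) v = u (zv n j) := by
  rw [Finset.sum_eq_single (Fin.natAdd n j)]
  · rw [Finsupp.single_eq_same, mul_one, emb_r]
  · intro v _ hv
    rw [Finsupp.single_eq_of_ne hv, mul_zero]
  · intro h
    exact absurd (Finset.mem_univ _) h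

/-- a ring map killing some variables -/
lemma kill {J : Ideal (MvPolynomial (Fin n) K)} (ρ : MvPolynomial (Fin (n + κ)) K →ₐ[K]
    MvPolynomial (Fin n) K) (Z : Fin κ → Prop) (hρ : ∀ j, Z j → ρ (X (Fin.natAdd n j)) ∈ J)
    (p : MvPolynomial (Fin (n + κ)) K)
    (hp : ∀ w, coeff w p ≠ 0 → ∃ j, Z j ∧ w (Fin.natAdd n j) ≠ 0) : ρ p ∈ J := by
  classical
  rw [p.as_sum, map_sum]
  refine Ideal.sum_mem _ fun w hw => ?_
  obtain ⟨j, hj, hwj⟩ := hp w (mem_support_iff.1 hw)
  have h1 : (X (Fin.natAdd n j) : MvPolynomial (Fin (n + κ)) K) ∣ monomial w (coeff w p) := by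
    rw [X_dvd_monomial]
    exact Or.inr hwj
  obtain ⟨r, hr⟩ := h1
  rw [hr, map_mul]
  exact Ideal.mul_mem_right _ _ (hρ j hj)

/-- **Negativity.** -/
theorem ray_posV {Φ : MvPolynomial (Fin (n + κ)) K} {l : Fin κ → MvPolynomial (Fin (n + κ)) K}
    (hl : ∀ i, constantCoeff (l i) = 0) (hdet : (jacZ l).det ≠ 0)
    {f : MvPowerSeries (Fin n) K} (hf0 : f ≠ 0) {q : Fin κ → MvPowerSeries (Fin (n + κ)) K}
    (hF : (Φ : MvPowerSeries (Fin (n + κ)) K) = MvPowerSeries.rename (Fin.castAdd κ) f +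
      ∑ i, q i * (l i : MvPowerSeries (Fin (n + κ)) K))
    (u : Fin (n + (κ + κ)) → ℕ) (L : ℕ) (hL : 0 < L)
    (hu0 : ∀ w, coeff w Φ ≠ 0 → L ≤ ∑ v, u (emb v) * w v)
    (hu1 : ∀ i w, coeff w (l i) ≠ 0 → L ≤ ∑ v, u (emb v) * w v + u (yv n i)) :
    κ * L < ∑ i, u i := by
  classical
  obtain ⟨σ, hσ⟩ : ∃ σ : Equiv.Perm (Fin κ), ∀ j, jacZ l (σ j) j ≠ 0 := by
    rw [Matrix.det_apply] at hdet
    obtain ⟨σ, -, hσ⟩ := Finset.exists_ne_zero_of_sum_ne_zero hdet
    refine ⟨σ, fun j hj => hσ ?_⟩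
    have h0 : ∏ i, jacZ l (σ i) i = 0 := Finset.prod_eq_zero (Finset.mem_univ j) hj
    rw [h0, smul_zero]
  have hJ : ∀ i j, jacZ l i j ≠ 0 → L ≤ u (zv n j) + u (yv n i) := by
    intro i j hij
    have h1 := hu1 i (Finsupp.single (Fin.natAdd n j) 1) hij
    rwa [sum_emb_z] at h1
  have hyz : ∀ j : Fin κ, L ≤ u (zv n j) + u (yv n (σ j)) := fun j => hJ _ _ (hσ j)
  have htot : ∑ i, u i = ∑ i : Fin n, u (xv κ i) + (∑ i : Fin κ, u (yv n i) +
      ∑ i : Fin κ, u (zv n i)) := by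
    rw [Fin.sum_univ_add, Fin.sum_univ_add]
    rfl
  have hys : ∑ j : Fin κ, u (yv n (σ j)) = ∑ i : Fin κ, u (yv n i) :=
    Equiv.sum_comp σ fun i => u (yv n i)
  have hsum : κ * L ≤ ∑ j : Fin κ, (u (zv n j) + u (yv n (σ j))) := by
    have := Finset.sum_le_sum fun i (_ : i ∈ (Finset.univ : Finset (Fin κ))) => hyz i
    simpa using this
  rw [Finset.sum_add_distrib, hys] at hsum
  by_contra hcon
  have hx0 : ∑ i : Fin n, u (xv κ i) = 0 := by omega
  have hx : ∀ i, u (xv κ i) = 0 := fun i => Finset.sum_eq_zero_iff.1 hx0 i (Finset.mem_univ i)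
  have heq : ∀ j : Fin κ, u (zv n j) + u (yv n (σ j)) = L := by
    have h1 : ∑ j : Fin κ, (u (zv n j) + u (yv n (σ j))) = ∑ j : Fin κ, L := by
      rw [Finset.sum_add_distrib, hys, Finset.sum_const, Finset.card_univ, Fintype.card_fin,
        smul_eq_mul]
      omega
    have h2 := (Finset.sum_eq_sum_iff_of_le fun i (_ : i ∈ (Finset.univ : Finset (Fin κ))) =>
      hyz i).1 h1.symm
    exact fun i => (h2 i (Finset.mem_univ i)).symm
  have heq' : ∀ i : Fin κ, u (zv n (σ.symm i)) + u (yv n i) = L := by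
    intro i
    have h1 := heq (σ.symm i)
    rwa [Equiv.apply_symm_apply] at h1
  -- a weighted monomial of positive weight
  have hmon : ∀ w : Fin (n + κ) →₀ ℕ, 0 < ∑ v, u (emb v) * w v →
      ∃ j, u (zv n j) ≠ 0 ∧ w (Fin.natAdd n j) ≠ 0 := by
    intro w hw
    rw [sum_emb] at hw
    have h2 : ∑ i' : Fin n, u (xv κ i') * w (Fin.castAdd κ i') = 0 :=
      Finset.sum_eq_zero fun i' _ => by rw [hx, zero_mul]
    rw [h2, zero_add] at hw
    obtain ⟨j, -, hj⟩ := Finset.exists_ne_zero_of_sum_ne_zero hw.ne'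
    exact ⟨j, left_ne_zero_of_mul hj, right_ne_zero_of_mul hj⟩
  -- the modified system
  set l' : Fin κ → MvPolynomial (Fin (n + κ)) K := fun i =>
    if u (zv n (σ.symm i)) ≠ 0 then X (Fin.natAdd n (σ.symm i)) else l i with hl'
  have hl'1 : ∀ j, u (zv n j) ≠ 0 → l' (σ j) = X (Fin.natAdd n j) := by
    intro j hj
    rw [hl']
    simp only [Equiv.symm_apply_apply]
    rw [if_pos hj]
  have hl'2 : ∀ i, u (zv n (σ.symm i)) = 0 → l' i = l i := by
    intro i hi
    rw [hl']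
    simp only
    rw [if_neg (not_not.2 hi)]
  have hl'0 : ∀ i, constantCoeff (l' i) = 0 := by
    intro i
    by_cases h : u (zv n (σ.symm i)) = 0
    · rw [hl'2 i h, hl]
    · have h1 := hl'1 (σ.symm i) h
      rw [Equiv.apply_symm_apply] at h1
      rw [h1, constantCoeff_X]
  have hdet' : (jacZ l').det ≠ 0 := by
    intro h0
    obtain ⟨v, hv, hMv⟩ := Matrix.exists_mulVec_eq_zero_iff.2 h0
    have hrow : ∀ i, ∑ j, jacZ l' i j * v j = 0 := by
      intro i
      have h1 := congrFun hMv i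
      rwa [Matrix.mulVec, dotProduct, Pi.zero_apply] at h1
    have hv0 : ∀ j, u (zv n j) ≠ 0 → v j = 0 := by
      intro j hj
      have h1 := hrow (σ j)
      rw [Finset.sum_eq_single j] at h1
      · simp only [jacZ, Matrix.of_apply] at h1
        rwa [hl'1 j hj, lin_X, if_pos rfl, one_mul] at h1
      · intro j' _ hj'
        simp only [jacZ, Matrix.of_apply]
        rw [hl'1 j hj, lin_X, if_neg, zero_mul]
        intro h
        apply hj'
        have := congrArg Fin.val h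
        simp only [Fin.val_natAdd] at this
        exact Fin.ext (by omega)
      · intro h
        exact absurd (Finset.mem_univ _) h
    apply hdet
    refine Matrix.exists_mulVec_eq_zero_iff.1 ⟨v, hv, ?_⟩
    funext i
    rw [Matrix.mulVec, dotProduct, Pi.zero_apply]
    by_cases h : u (zv n (σ.symm i)) = 0
    · have h1 := hrow i
      simp only [jacZ, Matrix.of_apply] at h1 ⊢
      rwa [hl'2 i h] at h1
    · refine Finset.sum_eq_zero fun j _ => ?_
      by_cases h2 : u (zv n j) = 0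
      · have h3 : jacZ l i j = 0 := by
          by_contra h4
          have h5 := hJ i j h4
          have h6 := heq' i
          omega
        rw [h3, zero_mul]
      · rw [hv0 j h2, mul_zero]
  apply hf0
  refine zero_of_trunc fun N => ?_
  obtain ⟨Q, hQ, h1, -⟩ := two_inv (sigV l') (sigV_mm hl'0) (sigV_det hdet') N
  set τ : MvPolynomial (Fin (n + κ)) K →ₐ[K] MvPolynomial (Fin n) K :=
    aeval (Fin.append X fun _ : Fin κ => (0 : MvPolynomial (Fin n) K)) with hτ
  have τx : ∀ i, τ (X (Fin.castAdd κ i)) = X i := fun i => by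
    rw [hτ, aeval_X, Fin.append_left]
  have τz : ∀ i, τ (X (Fin.natAdd n i)) = 0 := fun i => by
    rw [hτ, aeval_X, Fin.append_right]
  have τm : ∀ i, τ (X i) ∈ mm K n := by
    intro i
    refine Fin.addCases (fun i => ?_) (fun i => ?_) i
    · rw [τx]
      exact X_mm _
    · rw [τz]
      exact Ideal.zero_mem _
  have τp : ∀ {p}, p ∈ mm K (n + κ) ^ (N + 1) → τ p ∈ mm K n ^ (N + 1) := fun hp =>
    hom_mm τ τm hp
  have ρx : ∀ i : Fin n, τ (Q (X (Fin.castAdd κ i))) - X i ∈ mm K n ^ (N + 1) := by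
    intro i
    have h2 := h1 (Fin.castAdd κ i)
    rw [sigV_x] at h2
    have h3 := τp h2
    rwa [map_sub, τx] at h3
  have ρl : ∀ i, τ (Q (l' i)) ∈ mm K n ^ (N + 1) := by
    intro i
    have h2 := h1 (Fin.natAdd n i)
    rw [sigV_z] at h2
    have h3 := τp h2
    rwa [map_sub, τz, sub_zero] at h3
  have ρz : ∀ j, u (zv n j) ≠ 0 → (τ.comp Q) (X (Fin.natAdd n j)) ∈ mm K n ^ (N + 1) := by
    intro j hj
    rw [AlgHom.comp_apply, ← hl'1 j hj]
    exact ρl _
  have ρl2 : ∀ i, (τ.comp Q) (l i) ∈ mm K n ^ (N + 1) := by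
    intro i
    by_cases h : u (zv n (σ.symm i)) = 0
    · rw [AlgHom.comp_apply, ← hl'2 i h]
      exact ρl _
    · refine kill (τ.comp Q) (fun j => u (zv n j) ≠ 0) ρz (l i) fun w hw => hmon w ?_
      have h2 := hu1 i w hw
      have h3 := heq' i
      omega
  have ρΦ : (τ.comp Q) Φ ∈ mm K n ^ (N + 1) :=
    kill (τ.comp Q) (fun j => u (zv n j) ≠ 0) ρz Φ fun w hw => hmon w (hL.trans_le (hu0 w hw))
  have ρm : ∀ i, (τ.comp Q) (X i) ∈ mm K n := by
    intro i
    rw [AlgHom.comp_apply]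
    have h2 := hom_mm τ τm (N := 1) (by rw [pow_one]; exact hQ i)
    rwa [pow_one] at h2
  have h4 := hom_mm (τ.comp Q) ρm (trunc_rel N hF)
  rw [map_sub, map_add, map_sum] at h4
  have h5 : ∑ i, (τ.comp Q) (MvPowerSeries.truncTotal (N + 1) (q i) * l i) ∈
      mm K n ^ (N + 1) := Ideal.sum_mem _ fun i _ => by
    rw [map_mul]
    exact Ideal.mul_mem_left _ _ (ρl2 i)
  have h6 : (τ.comp Q) (rename (Fin.castAdd κ) (MvPowerSeries.truncTotal (N + 1) f)) -
      MvPowerSeries.truncTotal (N + 1) f ∈ mm K n ^ (N + 1) :=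
    hom_congr ((τ.comp Q).comp (rename (Fin.castAdd κ))) (AlgHom.id K _) _ (fun i => by
      rw [AlgHom.comp_apply, rename_X, AlgHom.comp_apply, AlgHom.id_apply]
      exact ρx i) _
  have h7 := Ideal.sub_mem _ (Ideal.sub_mem _ (Ideal.add_mem _ h4 ρΦ) h5) h6
  have e : (τ.comp Q) (rename (Fin.castAdd κ) (MvPowerSeries.truncTotal (N + 1) f)) +
      ∑ i, (τ.comp Q) (MvPowerSeries.truncTotal (N + 1) (q i) * l i) - (τ.comp Q) Φ +
      (τ.comp Q) Φ - ∑ i, (τ.comp Q) (MvPowerSeries.truncTotal (N + 1) (q i) * l i) -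
      ((τ.comp Q) (rename (Fin.castAdd κ) (MvPowerSeries.truncTotal (N + 1) f)) -
      MvPowerSeries.truncTotal (N + 1) f) = MvPowerSeries.truncTotal (N + 1) f := by ring
  rwa [e] at h7

end

end Pool.Agent.J4.H70.CC
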