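import Pool.Agent.J4.H70.CC.Trunc

/-!
# Polynomials which are isomorphic up to terms of high order
-/

set_option autoImplicit false

namespace Pool.Agent.J4.H70.CC

open MvPolynomial Pool.Agent.W428.MOT
open Pool.Agent.W375.MT (coeff_arc)
open Pool.Agent.W375.MG (zetaG JetG)
open Pool.Agent.W63.MTFin (mapMeas L_mul)
open Pool.Agent.Y228.HX (W00 mem_W00 zeta_zetaG)
open Pool.Agent.Z864.MS (Tm isPF_Tm coeff_Tm coeff_zero_aeval constr_JetE)

section
variable {K : Type} [Field K] {a b c : ℕ}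

/-- the terms of high order vanish on the jets at the origin -/
theorem jet_vanish {N : ℕ} (z : Pt K (Fin a × Fin (N + 1))) (hz : ∀ i, z (i, 0) = 0)
    {M : ℕ} {p : MvPolynomial (Fin a) K} (hp : p ∈ mm K a ^ (M + 1)) (j : ℕ) (hj : j ≤ M) :
    PowerSeries.coeff j (aeval (arc z) p) = 0 := by
  have h1 : (mm K a).map (aeval (arc z) : MvPolynomial (Fin a) K →ₐ[K] _) ≤
      Ideal.span {(PowerSeries.X : PowerSeries (AlgebraicClosure K))} := by
    rw [mm, idealOfVars, Ideal.map_span, Ideal.span_le]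
    rintro _ ⟨_, ⟨i, rfl⟩, rfl⟩
    rw [SetLike.mem_coe, Ideal.mem_span_singleton, PowerSeries.X_dvd_iff,
      ← PowerSeries.coeff_zero_eq_constantCoeff_apply, coeff_zero_aeval, aeval_X]
    exact hz i
  have h2 : aeval (arc z) p ∈ (mm K a ^ (M + 1)).map
      (aeval (arc z) : MvPolynomial (Fin a) K →ₐ[K] _) := Ideal.mem_map_of_mem _ hp
  rw [Ideal.map_pow] at h2
  have h3 := Ideal.pow_right_mono h1 (M + 1) h2
  rw [Ideal.span_singleton_pow, Ideal.mem_span_singleton, PowerSeries.X_pow_dvd_iff] at h3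
  exact h3 j (by omega)

theorem jet_congr {N : ℕ} (z : Pt K (Fin a × Fin (N + 1))) (hz : ∀ i, z (i, 0) = 0)
    {M : ℕ} {p q : MvPolynomial (Fin a) K} (hp : p - q ∈ mm K a ^ (M + 1)) (j : ℕ) (hj : j ≤ M) :
    PowerSeries.coeff j (aeval (arc z) p) = PowerSeries.coeff j (aeval (arc z) q) := by
  have h1 := jet_vanish z hz hp j hj
  rw [map_sub, map_sub, sub_eq_zero] at h1
  exact h1

/-- the image of a jet at the origin is a jet at the origin -/
theorem Tm_zero (φ : MvPolynomial (Fin a) K →ₐ[K] MvPolynomial (Fin b) K)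
    (h : ∀ i, φ (X i) ∈ mm K b) {N : ℕ} (z : Pt K (Fin b × Fin (N + 1)))
    (hz : ∀ i, z (i, 0) = 0) (i : Fin a) : Tm φ N z (i, 0) = 0 := by
  show PowerSeries.coeff 0 (aeval (arc z) (φ (X i))) = 0
  exact jet_vanish z hz (M := 0) (by rw [zero_add, pow_one]; exact h i) 0 le_rfl

theorem Tm_Tm' {N : ℕ} (φ : MvPolynomial (Fin a) K →ₐ[K] MvPolynomial (Fin b) K)
    (φ' : MvPolynomial (Fin b) K →ₐ[K] MvPolynomial (Fin a) K)
    (h : ∀ i, φ (φ' (X i)) - X i ∈ mm K b ^ (N + 1)) (z : Pt K (Fin b × Fin (N + 1)))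
    (hz : ∀ i, z (i, 0) = 0) : Tm φ' N (Tm φ N z) = z := by
  funext p
  obtain ⟨i, k⟩ := p
  change PowerSeries.coeff (k : ℕ) (aeval (arc (Tm φ N z)) (φ' (X i))) = z (i, k)
  rw [coeff_Tm φ z _ _ (by omega), jet_congr z hz (h i) k (by omega), aeval_X,
    coeff_arc _ _ _ k.2]

/-- `f` and `g` are isomorphic modulo terms of order `> N`. -/
def Rel (N : ℕ) (f : MvPolynomial (Fin a) K) (g : MvPolynomial (Fin b) K) : Prop :=
  a = b ∧ ∃ (P : MvPolynomial (Fin a) K →ₐ[K] MvPolynomial (Fin b) K)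
    (Q : MvPolynomial (Fin b) K →ₐ[K] MvPolynomial (Fin a) K),
    (∀ i, P (X i) ∈ mm K b) ∧ (∀ i, Q (X i) ∈ mm K a) ∧
    (∀ i, Q (P (X i)) - X i ∈ mm K a ^ (N + 1)) ∧
    (∀ i, P (Q (X i)) - X i ∈ mm K b ^ (N + 1)) ∧ P f - g ∈ mm K b ^ (N + 1)

theorem Rel.mono {N M : ℕ} (h : N ≤ M) {f : MvPolynomial (Fin a) K}
    {g : MvPolynomial (Fin b) K} (hr : Rel M f g) : Rel N f g := by
  obtain ⟨e, P, Q, h1, h2, h3, h4, h5⟩ := hr
  exact ⟨e, P, Q, h1, h2, fun i => mm_mono (by omega) (h3 i), fun i => mm_mono (by omega) (h4 i),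
    mm_mono (by omega) h5⟩

theorem Iso0.rel {f : MvPolynomial (Fin a) K} {g : MvPolynomial (Fin b) K} (h : Iso0 f g)
    (N : ℕ) : Rel N f g := by
  obtain ⟨e, ψ, hψ, rfl⟩ := h
  refine ⟨e, ψ, ψ.symm, fun i => (mem_mm _).2 (hψ i), fun i => (mem_mm _).2 (symm_zero ψ hψ i),
    fun i => ?_, fun i => ?_, ?_⟩
  · show ψ.symm (ψ (X i)) - X i ∈ _
    rw [ψ.symm_apply_apply, sub_self]
    exact Ideal.zero_mem _
  · show ψ (ψ.symm (X i)) - X i ∈ _
    rw [ψ.apply_symm_apply, sub_self]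
    exact Ideal.zero_mem _
  · show ψ f - ψ f ∈ _
    rw [sub_self]
    exact Ideal.zero_mem _

theorem Rel.trans {N : ℕ} {f : MvPolynomial (Fin a) K} {g : MvPolynomial (Fin b) K}
    {h : MvPolynomial (Fin c) K} (h1 : Rel N f g) (h2 : Rel N g h) : Rel N f h := by
  obtain ⟨e, P, Q, p1, p2, p3, p4, p5⟩ := h1
  obtain ⟨e', P', Q', q1, q2, q3, q4, q5⟩ := h2
  have hpow : ∀ {x y : ℕ} (φ : MvPolynomial (Fin x) K →ₐ[K] MvPolynomial (Fin y) K),
      (∀ i, φ (X i) ∈ mm K y) → ∀ p ∈ mm K x, φ p ∈ mm K y := by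
    intro x y φ hφ p hp
    have h3 := hom_mm φ hφ (N := 1) (by rwa [pow_one])
    rwa [pow_one] at h3
  refine ⟨e.trans e', P'.comp P, Q.comp Q', fun i => hpow P' q1 _ (p1 i),
    fun i => hpow Q p2 _ (q2 i), fun i => ?_, fun i => ?_, ?_⟩
  · -- `Q Q' P' P`
    show Q (Q' (P' (P (X i)))) - X i ∈ _
    have h3 : Q' (P' (P (X i))) - P (X i) ∈ mm K b ^ (N + 1) :=
      hom_congr (Q'.comp P') (AlgHom.id K _) _ (fun i => q3 i) (P (X i))
    have h4 := hom_mm Q p2 h3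
    rw [map_sub] at h4
    have h5 := Ideal.add_mem _ h4 (p3 i)
    rwa [sub_add_sub_cancel] at h5
  · show P' (P (Q (Q' (X i)))) - X i ∈ _
    have h3 : P (Q (Q' (X i))) - Q' (X i) ∈ mm K b ^ (N + 1) :=
      hom_congr (P.comp Q) (AlgHom.id K _) _ (fun i => p4 i) (Q' (X i))
    have h4 := hom_mm P' q1 h3
    rw [map_sub] at h4
    have h5 := Ideal.add_mem _ h4 (q4 i)
    rwa [sub_add_sub_cancel] at h5
  · show P' (P f) - h ∈ _
    have h4 := hom_mm P' q1 p5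
    rw [map_sub] at h4
    have h5 := Ideal.add_mem _ h4 q5
    rwa [sub_add_sub_cancel] at h5

theorem ren_mm {N : ℕ} {p : MvPolynomial (Fin a) K} (hp : p ∈ mm K a ^ N) :
    rename (Fin.castAdd 2) p ∈ mm K (a + 2) ^ N :=
  hom_mm (rename (Fin.castAdd 2)) (fun i => by rw [rename_X]; exact X_mm _) hp

/-- two more variables -/
theorem Rel.addyz {N : ℕ} {f : MvPolynomial (Fin a) K} {g : MvPolynomial (Fin b) K}
    (h : Rel N f g) : Rel N (Pool.Agent.Y229.MS.addyz f) (Pool.Agent.Y229.MS.addyz g) := by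
  obtain ⟨e, P, Q, h1, h2, h3, h4, h5⟩ := h
  have key : ∀ {x y : ℕ} (P : MvPolynomial (Fin x) K →ₐ[K] MvPolynomial (Fin y) K),
      (∀ i, P (X i) ∈ mm K y) → ∀ i, Pool.Agent.Y405.MS.extH P (X i) ∈ mm K (y + 2) := by
    intro x y P hP i
    refine Fin.addCases (fun i => ?_) (fun j => ?_) i
    · rw [Pool.Agent.Y405.MS.extH_X1]
      have := ren_mm (N := 1) (p := P (X i)) (by rw [pow_one]; exact hP i)
      rwa [pow_one] at this
    · rw [Pool.Agent.Y405.MS.extH_X2]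
      exact X_mm _
  have key2 : ∀ {x y : ℕ} (P : MvPolynomial (Fin x) K →ₐ[K] MvPolynomial (Fin y) K)
      (Q : MvPolynomial (Fin y) K →ₐ[K] MvPolynomial (Fin x) K),
      (∀ i, Q (P (X i)) - X i ∈ mm K x ^ (N + 1)) → ∀ i, Pool.Agent.Y405.MS.extH Q
        (Pool.Agent.Y405.MS.extH P (X i)) - X i ∈ mm K (x + 2) ^ (N + 1) := by
    intro x y P Q hPQ i
    refine Fin.addCases (fun i => ?_) (fun j => ?_) i
    · rw [Pool.Agent.Y405.MS.extH_X1, Pool.Agent.Y405.MS.extH_rename]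
      have := ren_mm (hPQ i)
      rwa [map_sub, rename_X] at this
    · rw [Pool.Agent.Y405.MS.extH_X2, Pool.Agent.Y405.MS.extH_X2, sub_self]
      exact Ideal.zero_mem _
  refine ⟨by omega, Pool.Agent.Y405.MS.extH P, Pool.Agent.Y405.MS.extH Q, key P h1, key Q h2,
    key2 P Q h3, key2 Q P h4, ?_⟩
  have h6 : Pool.Agent.Y405.MS.extH P (Pool.Agent.Y229.MS.addyz f) -
      Pool.Agent.Y229.MS.addyz g = rename (Fin.castAdd 2) (P f - g) := by
    unfold Pool.Agent.Y229.MS.addyz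
    rw [map_add, map_mul, Pool.Agent.Y405.MS.extH_rename, Pool.Agent.Y405.MS.extH_X2,
      Pool.Agent.Y405.MS.extH_X2, map_sub]
    ring
  rw [h6]
  exact ren_mm h5

/-- a measure -/
theorem exists_meas (K : Type) [Field K] [CharZero K] : ∃ M : Meas K (MK K),
    M.L = ((Lu K : (MK K)ˣ) : MK K) ∧ ∀ {a : ℕ} (g : MvPolynomial (Fin a) K),
      zeta g 0 = zl M (((Lu K)⁻¹ : (MK K)ˣ) : MK K) g (W00 K a) {1} := by
  obtain ⟨M₀, hM₀⟩ := Pool.Agent.W417.MT.K0.main K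
  set M := mapMeas M₀ (algebraMap (K0 K) (MK K)) with hM
  set Y : MK K := (((Lu K)⁻¹ : (MK K)ˣ) : MK K) with hY
  have hL : M.L * Y = 1 := L_mul hM₀
  refine ⟨M, ?_, ?_⟩
  · have h2 : ((Lu K : (MK K)ˣ) : MK K) * Y = 1 := Units.mul_inv _
    calc M.L = M.L * (((Lu K : (MK K)ˣ) : MK K) * Y) := by rw [h2, mul_one]
      _ = (M.L * Y) * ((Lu K : (MK K)ˣ) : MK K) := by ring
      _ = _ := by rw [hL, one_mul]
  · intro a g
    rw [zeta_zetaG]
    ext N
    rw [map_sub, PowerSeries.coeff_C, zl, PowerSeries.coeff_mk]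
    by_cases hN : N = 0
    · subst hN
      rw [if_pos rfl, if_pos rfl, sub_self]
    · rw [if_neg hN, if_neg hN, sub_zero, zetaG, PowerSeries.coeff_mk, zpow_neg, zpow_natCast,
        ← inv_pow, Units.val_pow_eq_pow_val, ← hM₀]
      rfl

theorem constr_W00 (n : ℕ) : Constr (W00 K n) :=
  Pool.Agent.W425.MM.constr_pt (0 : Fin n → K)

theorem ce_one : Pool.Agent.Y229.MS.CE ({1} : Set (AlgebraicClosure K)) :=
  Pool.Agent.Y229.MS.ce_good Pool.Agent.W375.MG.good_one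

theorem mem_JetG {N : ℕ} (f : MvPolynomial (Fin a) K) (z : Pt K (Fin a × Fin (N + 1))) :
    z ∈ JetG f (W00 K a) {1} N ↔ (∀ i, z (i, 0) = 0) ∧
      (∀ j < N, PowerSeries.coeff j (aeval (arc z) f) = 0) ∧
        PowerSeries.coeff N (aeval (arc z) f) = 1 := by
  simp only [JetG, Set.mem_ofPred_eq, Set.mem_singleton_iff]
  rw [show ((fun i => z (i, 0)) ∈ W00 K a ↔ ∀ i, z (i, 0) = 0) from mem_W00 _ _]

/-- **The classes of jets.** -/
theorem Rel.jet {R : Type} [CommRing R] (M : Meas K R) {N : ℕ} {f : MvPolynomial (Fin a) K}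
    {g : MvPolynomial (Fin b) K} (h : Rel N f g) :
    M.χ _ (JetG g (W00 K b) {1} N) = M.χ _ (JetG f (W00 K a) {1} N) := by
  obtain ⟨-, P, Q, h1, h2, h3, h4, h5⟩ := h
  have h6 : Q g - f ∈ mm K a ^ (N + 1) := by
    have h7 := hom_mm Q h2 h5
    rw [map_sub] at h7
    have h8 : Q (P f) - f ∈ mm K a ^ (N + 1) :=
      hom_congr (Q.comp P) (AlgHom.id K _) _ (fun i => h3 i) f
    have h9 := Ideal.sub_mem _ h8 h7
    have e : Q (P f) - f - (Q (P f) - Q g) = Q g - f := by ring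
    rwa [e] at h9
  refine M.iso _ _ (constr_JetE g (constr_W00 b) ce_one N) (constr_JetE f (constr_W00 a) ce_one N)
    (Tm P N) (Tm Q N) (regularOn_poly (fun p => isPF_Tm _ p) _)
    (regularOn_poly (fun p => isPF_Tm _ p) _) ?_ ?_ ?_ ?_
  · intro z hz
    rw [mem_JetG] at hz ⊢
    obtain ⟨g1, g2, g3⟩ := hz
    refine ⟨Tm_zero P h1 z g1, fun j hj => ?_, ?_⟩
    · rw [coeff_Tm _ _ _ _ hj.le, jet_congr z g1 h5 j hj.le]
      exact g2 j hj
    · rw [coeff_Tm _ _ _ _ le_rfl, jet_congr z g1 h5 N le_rfl]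
      exact g3
  · intro z hz
    rw [mem_JetG] at hz ⊢
    obtain ⟨g1, g2, g3⟩ := hz
    refine ⟨Tm_zero Q h2 z g1, fun j hj => ?_, ?_⟩
    · rw [coeff_Tm _ _ _ _ hj.le, jet_congr z g1 h6 j hj.le]
      exact g2 j hj
    · rw [coeff_Tm _ _ _ _ le_rfl, jet_congr z g1 h6 N le_rfl]
      exact g3
  · intro z hz
    exact Tm_Tm' P Q h4 z ((mem_JetG _ _).1 hz).1
  · intro z hz
    exact Tm_Tm' Q P h3 z ((mem_JetG _ _).1 hz).1

/-- **The coefficients of the zeta functions.** -/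
theorem Rel.zeta [CharZero K] {N : ℕ} {f : MvPolynomial (Fin a) K}
    {g : MvPolynomial (Fin b) K} (h : Rel N f g) (j : ℕ) (hj : j ≤ N) :
    PowerSeries.coeff j (Pool.Agent.W428.MOT.zeta g 0) =
      PowerSeries.coeff j (Pool.Agent.W428.MOT.zeta f 0) := by
  obtain ⟨M, -, hM⟩ := exists_meas K
  rw [hM, hM, zl, zl, PowerSeries.coeff_mk, PowerSeries.coeff_mk]
  have h1 := (h.mono hj).jet M
  have e : b * j = a * j := by rw [h.1]
  rw [h1, e]

end

end Pool.Agent.J4.H70.CC
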