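import Pool.Agent.J4.H70.CC.Iso
import Mathlib.RingTheory.MvPolynomial.Ideal

/-!
# Polynomial maps modulo a power of the maximal ideal of the origin: the inverse function theorem
-/

set_option autoImplicit false

namespace Pool.Agent.J4.H70.CC

open MvPolynomial

/-- the maximal ideal of the origin -/
noncomputable abbrev mm (K : Type) [Field K] (a : ℕ) : Ideal (MvPolynomial (Fin a) K) :=
  idealOfVars (Fin a) K

section
variable {K : Type} [Field K] {a b c : ℕ}

theorem X_mm (i : Fin a) : (X i : MvPolynomial (Fin a) K) ∈ mm K a :=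
  Ideal.subset_span ⟨i, rfl⟩

theorem mem_mm (p : MvPolynomial (Fin a) K) : p ∈ mm K a ↔ constantCoeff p = 0 := by
  have h := mem_pow_idealOfVars_iff' (σ := Fin a) (R := K) 1 p
  rw [pow_one] at h
  rw [mm, h, constantCoeff_eq]
  constructor
  · intro h1
    exact h1 0 (by simp)
  · intro h1 x hx
    have hx0 : x = 0 := by
      rw [← Finsupp.degree_eq_zero_iff]
      omega
    rw [hx0]
    exact h1

theorem hom_mm (φ : MvPolynomial (Fin a) K →ₐ[K] MvPolynomial (Fin b) K)
    (h : ∀ i, φ (X i) ∈ mm K b) {N : ℕ} {p : MvPolynomial (Fin a) K} (hp : p ∈ mm K a ^ N) :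
    φ p ∈ mm K b ^ N := by
  have h1 : (mm K a).map φ ≤ mm K b := by
    rw [mm, idealOfVars, Ideal.map_span, Ideal.span_le]
    rintro _ ⟨_, ⟨i, rfl⟩, rfl⟩
    exact h i
  have h2 : φ p ∈ (mm K a ^ N).map φ := Ideal.mem_map_of_mem φ hp
  rw [Ideal.map_pow] at h2
  exact Ideal.pow_right_mono h1 N h2

theorem hom_congr (φ φ' : MvPolynomial (Fin a) K →ₐ[K] MvPolynomial (Fin b) K)
    (J : Ideal (MvPolynomial (Fin b) K)) (h : ∀ i, φ (X i) - φ' (X i) ∈ J)
    (p : MvPolynomial (Fin a) K) : φ p - φ' p ∈ J := by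
  induction p using MvPolynomial.induction_on with
  | C c =>
    rw [show φ (C c : MvPolynomial (Fin a) K) = C c from φ.commutes c,
      show φ' (C c : MvPolynomial (Fin a) K) = C c from φ'.commutes c, sub_self]
    exact J.zero_mem
  | add p q hp hq =>
    rw [map_add, map_add, add_sub_add_comm]
    exact J.add_mem hp hq
  | mul_X p i hp =>
    rw [map_mul, map_mul]
    have e : φ p * φ (X i) - φ' p * φ' (X i) =
        (φ p - φ' p) * φ (X i) + φ' p * (φ (X i) - φ' (X i)) := by ring
    rw [e]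
    exact J.add_mem (J.mul_mem_right _ hp) (J.mul_mem_left _ (h i))

theorem mm_mono {N M : ℕ} (h : N ≤ M) {p : MvPolynomial (Fin a) K} (hp : p ∈ mm K a ^ M) :
    p ∈ mm K a ^ N := Ideal.pow_le_pow_right h hp

theorem mem_mm_of (N : ℕ) {p : MvPolynomial (Fin a) K} (hp : p ∈ mm K a ^ (N + 1)) :
    p ∈ mm K a := by
  have := mm_mono (Nat.succ_le_succ (Nat.zero_le N)) hp
  rwa [pow_one] at this

theorem lin_of_mem {p : MvPolynomial (Fin a) K} (hp : p ∈ mm K a ^ 2) (j : Fin a) :
    coeff (Finsupp.single j 1) p = 0 :=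
  (mem_pow_idealOfVars_iff' 2 p).1 hp _ (by rw [Finsupp.degree_single]; norm_num)

/-- **The first order Taylor formula.** -/
theorem taylor (φ φ' : MvPolynomial (Fin a) K →ₐ[K] MvPolynomial (Fin b) K)
    (hφ : ∀ i, φ (X i) ∈ mm K b) (N : ℕ)
    (h : ∀ i, φ' (X i) - φ (X i) ∈ mm K b ^ (N + 1)) (p : MvPolynomial (Fin a) K) :
    φ' p - φ p - ∑ l, C (coeff (Finsupp.single l 1) p) * (φ' (X l) - φ (X l)) ∈
      mm K b ^ (N + 2) := by
  classical
  have hφ' : ∀ i, φ' (X i) ∈ mm K b := by
    intro i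
    have h1 := (mm K b).add_mem (mem_mm_of N (h i)) (hφ i)
    rwa [sub_add_cancel] at h1
  have hC0 : ∀ (c : K) {m : ℕ} (l : Fin m), coeff (Finsupp.single l 1) (C c :
      MvPolynomial (Fin m) K) = 0 := by
    intro c m l
    rw [coeff_C, if_neg]
    intro h1
    have h2 := DFunLike.congr_fun h1 l
    simp at h2
  induction p using MvPolynomial.induction_on with
  | C c =>
    rw [show φ (C c : MvPolynomial (Fin a) K) = C c from φ.commutes c,
      show φ' (C c : MvPolynomial (Fin a) K) = C c from φ'.commutes c, sub_self,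
      Finset.sum_eq_zero fun l _ => by rw [hC0, C_0, zero_mul], sub_zero]
    exact Ideal.zero_mem _
  | add p q hp hq =>
    have h1 := (mm K b ^ (N + 2)).add_mem hp hq
    have h2 : ∑ l, C (coeff (Finsupp.single l 1) (p + q)) * (φ' (X l) - φ (X l)) =
        ∑ l, C (coeff (Finsupp.single l 1) p) * (φ' (X l) - φ (X l)) +
          ∑ l, C (coeff (Finsupp.single l 1) q) * (φ' (X l) - φ (X l)) := by
      rw [← Finset.sum_add_distrib]
      exact Finset.sum_congr rfl fun l _ => by rw [coeff_add, C_add, add_mul]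
    rw [h2, map_add, map_add]
    convert h1 using 1
    ring
  | mul_X p i hp =>
    have h2 : ∑ l, C (coeff (Finsupp.single l 1) (p * X i)) * (φ' (X l) - φ (X l)) =
        C (constantCoeff p) * (φ' (X i) - φ (X i)) := by
      rw [Finset.sum_eq_single i]
      · rw [lin_mul, lin_X, if_pos rfl, constantCoeff_X, mul_zero, add_zero, mul_one]
      · intro l _ hl
        rw [lin_mul, lin_X, if_neg (Ne.symm hl), constantCoeff_X, mul_zero, mul_zero, add_zero,
          C_0, zero_mul]
      · intro h0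
        exact absurd (Finset.mem_univ _) h0
    rw [h2, map_mul, map_mul]
    have h3 : φ' p * φ' (X i) - φ p * φ (X i) - C (constantCoeff p) * (φ' (X i) - φ (X i)) =
        (φ' p - φ p) * φ' (X i) + (φ p - C (constantCoeff p)) * (φ' (X i) - φ (X i)) := by
      ring
    rw [h3]
    have h4 : φ' p - φ p ∈ mm K b ^ (N + 1) := hom_congr φ' φ _ h p
    have h5 : φ p - C (constantCoeff p) ∈ mm K b := by
      have h6 : p - C (constantCoeff p) ∈ mm K a := by
        rw [mem_mm, map_sub, constantCoeff_C, sub_self]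
      have h7 := hom_mm φ hφ (N := 1) (by rwa [pow_one])
      rwa [pow_one, map_sub, show φ (C (constantCoeff p) : MvPolynomial (Fin a) K) =
        C (constantCoeff p) from φ.commutes _] at h7
    refine Ideal.add_mem _ ?_ ?_
    · rw [show N + 2 = (N + 1) + 1 from rfl, pow_succ]
      exact Ideal.mul_mem_mul h4 (hφ' i)
    · rw [show N + 2 = (N + 1) + 1 from rfl, pow_succ, mul_comm (mm K b ^ (N + 1))]
      exact Ideal.mul_mem_mul h5 (h i)

/-- the linear part of a polynomial map -/
noncomputable def linM (P : MvPolynomial (Fin a) K →ₐ[K] MvPolynomial (Fin a) K) :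
    Matrix (Fin a) (Fin a) K :=
  Matrix.of fun i j => coeff (Finsupp.single j 1) (P (X i))

/-- **Right inverses.** -/
theorem right_inv (P : MvPolynomial (Fin a) K →ₐ[K] MvPolynomial (Fin a) K)
    (hP : ∀ i, P (X i) ∈ mm K a) (hdet : (linM P).det ≠ 0) (N : ℕ) :
    ∃ Q : MvPolynomial (Fin a) K →ₐ[K] MvPolynomial (Fin a) K, (∀ i, Q (X i) ∈ mm K a) ∧
      ∀ i, Q (P (X i)) - X i ∈ mm K a ^ (N + 1) := by
  classical
  induction N with
  | zero =>
    refine ⟨aeval fun _ => 0, fun i => ?_, fun i => ?_⟩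
    · rw [aeval_X]
      exact Ideal.zero_mem _
    · rw [zero_add, pow_one]
      refine Ideal.sub_mem _ ?_ (X_mm i)
      have h1 := hom_mm (aeval fun _ => (0 : MvPolynomial (Fin a) K)) (fun i => by
        rw [aeval_X]
        exact Ideal.zero_mem _) (N := 1) (by rw [pow_one]; exact hP i)
      rwa [pow_one] at h1
  | succ N ih =>
    obtain ⟨Q, hQ, hE⟩ := ih
    set B : Matrix (Fin a) (Fin a) K := (linM P)⁻¹ with hB
    have hJB : linM P * B = 1 := Matrix.mul_nonsing_inv _ (isUnit_iff_ne_zero.2 hdet)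
    set E : Fin a → MvPolynomial (Fin a) K := fun i => Q (P (X i)) - X i with hEdef
    set Q' : MvPolynomial (Fin a) K →ₐ[K] MvPolynomial (Fin a) K :=
      aeval fun l => Q (X l) - ∑ i, C (B l i) * E i with hQ'
    have hQ'X : ∀ l, Q' (X l) = Q (X l) - ∑ i, C (B l i) * E i := fun l => by
      rw [hQ', aeval_X]
    have hd : ∀ l, ∑ i, C (B l i) * E i ∈ mm K a ^ (N + 1) := fun l =>
      Ideal.sum_mem _ fun i _ => Ideal.mul_mem_left _ _ (hE i)
    have hdiff : ∀ l, Q' (X l) - Q (X l) = -∑ i, C (B l i) * E i := fun l => by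
      rw [hQ'X]
      ring
    refine ⟨Q', fun l => ?_, fun i => ?_⟩
    · rw [hQ'X]
      exact Ideal.sub_mem _ (hQ l) (mem_mm_of N (hd l))
    · have h1 := taylor Q Q' hQ N (fun l => by
        rw [hdiff]
        exact Ideal.neg_mem_iff _ |>.2 (hd l)) (P (X i))
      have h2 : ∑ l, C (coeff (Finsupp.single l 1) (P (X i))) * (Q' (X l) - Q (X l)) = -E i := by
        have h3 : ∀ l, C (coeff (Finsupp.single l 1) (P (X i))) * (Q' (X l) - Q (X l)) =
            -∑ i', C (linM P i l * B l i') * E i' := by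
          intro l
          rw [hdiff, mul_neg, Finset.mul_sum]
          congr 1
          refine Finset.sum_congr rfl fun i' _ => ?_
          rw [C_mul, mul_assoc]
          rfl
        rw [Finset.sum_congr rfl fun l _ => h3 l, Finset.sum_neg_distrib, Finset.sum_comm]
        congr 1
        have h4 : ∀ i', ∑ l, C (linM P i l * B l i') * E i' =
            C ((1 : Matrix (Fin a) (Fin a) K) i i') * E i' := by
          intro i'
          rw [← hJB, Matrix.mul_apply, map_sum, Finset.sum_mul]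
        rw [Finset.sum_congr rfl fun i' _ => h4 i', Finset.sum_eq_single i]
        · rw [Matrix.one_apply_eq, C_1, one_mul]
        · intro i' _ hi'
          rw [Matrix.one_apply_ne (Ne.symm hi'), C_0, zero_mul]
        · intro h0
          exact absurd (Finset.mem_univ _) h0
      rw [h2] at h1
      have h5 : Q' (P (X i)) - Q (P (X i)) - -E i = Q' (P (X i)) - X i := by
        rw [hEdef]
        ring
      rwa [h5] at h1

/-- **The inverse function theorem.** -/
theorem two_inv (P : MvPolynomial (Fin a) K →ₐ[K] MvPolynomial (Fin a) K)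
    (hP : ∀ i, P (X i) ∈ mm K a) (hdet : (linM P).det ≠ 0) (N : ℕ) :
    ∃ Q : MvPolynomial (Fin a) K →ₐ[K] MvPolynomial (Fin a) K, (∀ i, Q (X i) ∈ mm K a) ∧
      (∀ i, Q (P (X i)) - X i ∈ mm K a ^ (N + 1)) ∧
      ∀ i, P (Q (X i)) - X i ∈ mm K a ^ (N + 1) := by
  classical
  obtain ⟨Q, hQ, h1⟩ := right_inv P hP hdet (N + 1)
  have hdQ : (linM Q).det ≠ 0 := by
    refine Matrix.det_ne_zero_of_left_inverse (B := linM P) ?_
    ext i j
    rw [Matrix.mul_apply]
    have h2 := lin_hom Q (fun i => (mem_mm _).1 (hQ i)) j (P (X i))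
    have h3 := lin_of_mem (mm_mono (by omega : 2 ≤ N + 1 + 1) (h1 i)) j
    rw [coeff_sub, lin_X, sub_eq_zero] at h3
    rw [h3] at h2
    rw [Matrix.one_apply, h2]
    rfl
  obtain ⟨R, hR, h4⟩ := right_inv Q hQ hdQ (N + 1)
  refine ⟨Q, hQ, fun i => mm_mono (by omega) (h1 i), fun i => mm_mono
    (by omega : N + 1 ≤ N + 1 + 1) ?_⟩
  -- `R (Q p) ≡ p`
  have h5 : ∀ p, R (Q p) - p ∈ mm K a ^ (N + 1 + 1) := fun p =>
    hom_congr (R.comp Q) (AlgHom.id K _) _ (fun i => h4 i) p
  -- `P ≡ R`
  have h6 : ∀ i, P (X i) - R (X i) ∈ mm K a ^ (N + 1 + 1) := by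
    intro i
    have h7 := h5 (P (X i))
    have h8 := hom_mm R hR (h1 i)
    rw [map_sub] at h8
    have h9 := Ideal.sub_mem _ h8 h7
    have e : R (Q (P (X i))) - R (X i) - (R (Q (P (X i))) - P (X i)) = P (X i) - R (X i) := by
      ring
    rwa [e] at h9
  have h7 := hom_congr P R _ h6 (Q (X i))
  have h8 := Ideal.add_mem _ h7 (h4 i)
  rwa [sub_add_sub_cancel] at h8

end

end Pool.Agent.J4.H70.CC
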