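import Pool.Agent.J4.H70.CC.Desc
import Pool.Agent.J4.H70.CC.Comp

/-!
# Local motivic zeta functions of functions on smooth complete intersections
-/

set_option autoImplicit false

namespace Pool.Agent.J4.H70.CC

open MvPolynomial Pool.Agent.W428.MOT
open Pool.Agent.W375.MT (coeff_arc)
open Pool.Agent.W375.MG (zetaG JetG)
open Pool.Agent.W63.MTFin (mapMeas L_mul)
open Pool.Agent.Y228.HX (W00 mem_W00 zeta_zetaG)
open Pool.Agent.Z864.MS (Tm isPF_Tm coeff_Tm coeff_zero_aeval constr_JetE)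

section
variable {K : Type} [Field K] {a κ : ℕ}

theorem mem_JetV {N : ℕ} (Φ : MvPolynomial (Fin a) K) (l : Fin κ → MvPolynomial (Fin a) K)
    (z : Pt K (Fin a × Fin (N + 1))) :
    z ∈ JetV Φ l N ↔ (∀ i, z (i, 0) = 0) ∧
      (∀ i, ∀ j ≤ N, PowerSeries.coeff j (aeval (arc z) (l i)) = 0) ∧
      (∀ j < N, PowerSeries.coeff j (aeval (arc z) Φ) = 0) ∧
        PowerSeries.coeff N (aeval (arc z) Φ) = 1 := by
  unfold JetV
  rw [Set.mem_ofPred_eq]
  refine and_congr_right fun _ => and_congr_right fun _ => ?_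
  constructor
  · intro h
    refine ⟨fun j hj => ?_, ?_⟩
    · rw [h j hj.le, if_neg (by omega)]
    · rw [h N le_rfl, if_pos rfl]
  · rintro ⟨h1, h2⟩ j hj
    by_cases h : j = N
    · rw [h, h2, if_pos rfl]
    · rw [h1 j (by omega), if_neg h]

theorem constr_JetV (Φ : MvPolynomial (Fin a) K) (l : Fin κ → MvPolynomial (Fin a) K) (N : ℕ) :
    Constr (JetV Φ l N) := by
  have h : JetV Φ l N = {z | z ∈ JetG Φ (W00 K a) {1} N ∧
      ∀ i : Fin κ, ∀ j < N + 1, PowerSeries.coeff j (aeval (arc z) (l i)) = 0} := by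
    ext z
    rw [mem_JetV]
    show _ ↔ (z ∈ JetG Φ (W00 K a) {1} N ∧ ∀ i : Fin κ, ∀ j < N + 1,
      PowerSeries.coeff j (aeval (arc z) (l i)) = 0)
    rw [mem_JetG]
    constructor
    · rintro ⟨h1, h2, h3, h4⟩
      exact ⟨⟨h1, h3, h4⟩, fun i j hj => h2 i j (by omega)⟩
    · rintro ⟨⟨h1, h3, h4⟩, h2⟩
      exact ⟨h1, fun i j hj => h2 i j (by omega), h3, h4⟩
  rw [h]
  refine Constr.and (constr_JetE Φ (constr_W00 a) ce_one N) ?_
  have h2 : {z : Pt K (Fin a × Fin (N + 1)) | ∀ i : Fin κ, ∀ j < N + 1,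
      PowerSeries.coeff j (aeval (arc z) (l i)) = 0} = ⋂ i ∈ (Finset.univ : Finset (Fin κ)),
        {z | ∀ j < N + 1, PowerSeries.coeff j (aeval (arc z) (l i)) = 0} := by
    ext z
    simp
  have h3 : ∀ i : Fin κ, Constr {z : Pt K (Fin a × Fin (N + 1)) | ∀ j < N + 1,
      PowerSeries.coeff j (aeval (arc z) (l i)) = 0} := fun i =>
    Constr.allLt _ fun j _ => Constr.eqz
      (IsPA.aeval (fun i z => arc z i) (fun i => isPA_arc i) (l i) j)
  have h4 : ∀ s : Finset (Fin κ), Constr (⋂ i ∈ s, {z : Pt K (Fin a × Fin (N + 1)) |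
      ∀ j < N + 1, PowerSeries.coeff j (aeval (arc z) (l i)) = 0}) := by
    classical
    intro s
    induction s using Finset.induction_on with
    | empty => simpa using Constr.univ (K := K)
    | insert i s _ ih =>
      rw [Finset.set_biInter_insert]
      exact (h3 i).inter ih
  rw [h2]
  exact h4 _

end

section graph
variable {K : Type} [Field K] {n κ : ℕ}

/-- `x_i ↦ x_i`, `z_i ↦ l_i` -/
noncomputable def sigV (l : Fin κ → MvPolynomial (Fin (n + κ)) K) :
    MvPolynomial (Fin (n + κ)) K →ₐ[K] MvPolynomial (Fin (n + κ)) K :=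
  aeval (Fin.append (fun i => X (Fin.castAdd κ i)) l)

lemma sigV_x (l : Fin κ → MvPolynomial (Fin (n + κ)) K) (i : Fin n) :
    sigV l (X (Fin.castAdd κ i)) = X (Fin.castAdd κ i) := by
  unfold sigV
  rw [aeval_X, Fin.append_left]

lemma sigV_z (l : Fin κ → MvPolynomial (Fin (n + κ)) K) (i : Fin κ) :
    sigV l (X (Fin.natAdd n i)) = l i := by
  unfold sigV
  rw [aeval_X, Fin.append_right]

theorem sigV_mm {l : Fin κ → MvPolynomial (Fin (n + κ)) K}
    (hl : ∀ i, constantCoeff (l i) = 0) (i : Fin (n + κ)) : sigV l (X i) ∈ mm K (n + κ) := by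
  refine Fin.addCases (fun i => ?_) (fun i => ?_) i
  · rw [sigV_x]
    exact X_mm _
  · rw [sigV_z, mem_mm]
    exact hl i

theorem sigV_det {l : Fin κ → MvPolynomial (Fin (n + κ)) K} (hdet : (jacZ l).det ≠ 0) :
    (linM (sigV l)).det ≠ 0 := by
  classical
  intro h0
  obtain ⟨u, hu, hMu⟩ := Matrix.exists_mulVec_eq_zero_iff.2 h0
  have hrow : ∀ i, ∑ j, coeff (Finsupp.single j 1) (sigV l (X i)) * u j = 0 := by
    intro i
    have h1 := congrFun hMu i
    rw [Matrix.mulVec, dotProduct] at h1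
    simp only [linM, Matrix.of_apply, Pi.zero_apply] at h1
    exact h1
  have hx : ∀ i : Fin n, u (Fin.castAdd κ i) = 0 := by
    intro i
    have h1 := hrow (Fin.castAdd κ i)
    rw [sigV_x, Finset.sum_eq_single (Fin.castAdd κ i)] at h1
    · rwa [lin_X, if_pos rfl, one_mul] at h1
    · intro j _ hj
      rw [lin_X, if_neg (Ne.symm hj), zero_mul]
    · intro h
      exact absurd (Finset.mem_univ _) h
  have hz : ∀ i : Fin κ, u (Fin.natAdd n i) = 0 := by
    by_contra hcon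
    push Not at hcon
    obtain ⟨i0, hi0⟩ := hcon
    apply hdet
    refine Matrix.exists_mulVec_eq_zero_iff.1 ⟨fun i => u (Fin.natAdd n i), ?_, ?_⟩
    · intro h
      exact hi0 (congrFun h i0)
    · funext i
      rw [Matrix.mulVec, dotProduct]
      simp only [jacZ, Matrix.of_apply, Pi.zero_apply]
      have h1 := hrow (Fin.natAdd n i)
      rw [sigV_z, Fin.sum_univ_add] at h1
      simpa only [hx, mul_zero, Finset.sum_const_zero, zero_add] using h1
  apply hu
  funext i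
  rw [Pi.zero_apply]
  exact Fin.addCases (fun i => hx i) (fun i => hz i) i

/-- **The implicit function theorem.** -/
theorem implicit {l : Fin κ → MvPolynomial (Fin (n + κ)) K}
    (hl : ∀ i, constantCoeff (l i) = 0) (hdet : (jacZ l).det ≠ 0)
    (Φ : MvPolynomial (Fin (n + κ)) K) (N : ℕ) :
    ∃ (f : MvPolynomial (Fin n) K) (q : Fin κ → MvPolynomial (Fin (n + κ)) K),
      rename (Fin.castAdd κ) f + ∑ i, q i * l i - Φ ∈ mm K (n + κ) ^ (N + 1) := by
  obtain ⟨Q, hQ, h1, h2⟩ := two_inv (sigV l) (sigV_mm hl) (sigV_det hdet) N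
  -- `Ψ = Q Φ`
  obtain ⟨r, hr⟩ := graph_restrictK (n := n) (fun _ : Fin κ => (1 : K)) (fun _ => one_ne_zero)
    (fun _ => 0) (Q Φ)
  refine ⟨aeval (Fin.append X fun i => C (1 : K)⁻¹ * (0 : MvPolynomial (Fin n) K)) (Q Φ),
    fun i => sigV l (r i), ?_⟩
  have h3 : sigV l (Q Φ) - Φ ∈ mm K (n + κ) ^ (N + 1) :=
    hom_congr ((sigV l).comp Q) (AlgHom.id K _) _ (fun i => h2 i) Φ
  have h4 : sigV l (Q Φ) = rename (Fin.castAdd κ)
      (aeval (Fin.append X fun i => C (1 : K)⁻¹ * (0 : MvPolynomial (Fin n) K)) (Q Φ)) +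
        ∑ i, sigV l (r i) * l i := by
    conv_lhs => rw [hr]
    rw [map_add, map_sum]
    congr 1
    · have h5 : ∀ p : MvPolynomial (Fin n) K, sigV l (rename (Fin.castAdd κ) p) =
          rename (Fin.castAdd κ) p := by
        intro p
        have h6 : (sigV l).comp (rename (Fin.castAdd κ)) =
            (rename (Fin.castAdd κ) : MvPolynomial (Fin n) K →ₐ[K] _) := by
          apply MvPolynomial.algHom_ext
          intro i
          rw [AlgHom.comp_apply, rename_X, sigV_x]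
        exact DFunLike.congr_fun h6 p
      exact h5 _
    · refine Finset.sum_congr rfl fun i _ => ?_
      rw [map_mul, C_1, one_mul, map_zero, sub_zero, sigV_z]
  rwa [← h4]

theorem zx_zero {n κ : ℕ} {A : Type} [Zero A] (w : Fin n → A) (i : Fin κ) :
    (Fin.append w (fun _ : Fin κ => (0 : A))) (Fin.natAdd n i) = 0 := by
  rw [Fin.append_right]

/-- **The classes of the jets of `V`.** -/
theorem chi_JetV {R : Type} [CommRing R] (M : Meas K R)
    {l : Fin κ → MvPolynomial (Fin (n + κ)) K}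
    (hl : ∀ i, constantCoeff (l i) = 0) (hdet : (jacZ l).det ≠ 0)
    (Φ : MvPolynomial (Fin (n + κ)) K) (N : ℕ) (f : MvPolynomial (Fin n) K)
    (q : Fin κ → MvPolynomial (Fin (n + κ)) K)
    (hf : rename (Fin.castAdd κ) f + ∑ i, q i * l i - Φ ∈ mm K (n + κ) ^ (N + 1)) :
    M.χ _ (JetV Φ l N) = M.χ _ (JetG f (W00 K n) {1} N) := by
  classical
  obtain ⟨Q, hQ, h1, h2⟩ := two_inv (sigV l) (sigV_mm hl) (sigV_det hdet) N
  -- the jet `(w, 0)`
  set ex0 : Pt K (Fin n × Fin (N + 1)) → Pt K (Fin (n + κ) × Fin (N + 1)) :=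
    fun w p => Fin.append (fun i : Fin n => w (i, p.2)) (fun _ : Fin κ => 0) p.1 with hex0
  have hex_x : ∀ w (i : Fin n) (k : Fin (N + 1)), ex0 w (Fin.castAdd κ i, k) = w (i, k) := by
    intro w i k
    rw [hex0]
    exact Fin.append_left _ _ _
  have hex_z : ∀ w (i : Fin κ) (k : Fin (N + 1)), ex0 w (Fin.natAdd n i, k) = 0 := by
    intro w i k
    rw [hex0]
    exact Fin.append_right _ _ _
  have hex_o : ∀ w, (∀ i, w (i, 0) = 0) → ∀ i, ex0 w (i, 0) = 0 := by
    intro w hw i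
    refine Fin.addCases (fun i => ?_) (fun i => ?_) i
    · rw [hex_x]
      exact hw i
    · rw [hex_z]
  -- `Q x_i ≡ x_i`
  have hQx : ∀ i : Fin n, Q (X (Fin.castAdd κ i)) - X (Fin.castAdd κ i) ∈
      mm K (n + κ) ^ (N + 1) := by
    intro i
    have h3 := h1 (Fin.castAdd κ i)
    rwa [sigV_x] at h3
  -- `Q l_i ≡ z_i`
  have hQl : ∀ i : Fin κ, Q (l i) - X (Fin.natAdd n i) ∈ mm K (n + κ) ^ (N + 1) := by
    intro i
    have h3 := h1 (Fin.natAdd n i)
    rwa [sigV_z] at h3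
  -- the value of a polynomial in `x`
  have hren : ∀ (z : Pt K (Fin (n + κ) × Fin (N + 1))) (p : MvPolynomial (Fin n) K),
      aeval (arc z) (rename (Fin.castAdd κ) p) =
        aeval (arc fun r : Fin n × Fin (N + 1) => z (Fin.castAdd κ r.1, r.2)) p := by
    intro z p
    rw [aeval_rename]
    rfl
  -- the value of `Φ`
  have hPhi : ∀ z : Pt K (Fin (n + κ) × Fin (N + 1)), (∀ i, z (i, 0) = 0) →
      (∀ i, ∀ j ≤ N, PowerSeries.coeff j (aeval (arc z) (l i)) = 0) → ∀ j ≤ N,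
      PowerSeries.coeff j (aeval (arc z) Φ) = PowerSeries.coeff j
        (aeval (arc fun r : Fin n × Fin (N + 1) => z (Fin.castAdd κ r.1, r.2)) f) := by
    intro z hz hzl j hj
    rw [← jet_congr z hz hf j hj, map_add, map_add, hren, map_sum, map_sum,
      Finset.sum_eq_zero, add_zero]
    intro i _
    rw [map_mul, PowerSeries.coeff_mul]
    refine Finset.sum_eq_zero fun p hp => ?_
    have := Finset.HasAntidiagonal.mem_antidiagonal.1 hp
    rw [hzl i p.2 (by omega), mul_zero]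
  refine M.iso _ _ (constr_JetV Φ l N) (constr_JetE f (constr_W00 n) ce_one N)
    (fun z r => z (Fin.castAdd κ r.1, r.2)) (fun w => Tm Q N (ex0 w))
    (regularOn_poly (fun p => IsPF.coord _) _)
    (regularOn_poly (fun p => ?_) _) ?_ ?_ ?_ ?_
  · -- regularity of the inverse
    have h3 := isPF_Tm (N := N) Q p
    refine h3.comp ex0 fun q => ?_
    obtain ⟨i, k⟩ := q
    refine Fin.addCases (fun i => ?_) (fun i => ?_) i
    · have h4 : (fun w => ex0 w (Fin.castAdd κ i, k)) = fun w => w (i, k) :=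
        funext fun w => hex_x w i k
      rw [h4]
      exact IsPF.coord _
    · have h4 : (fun w => ex0 w (Fin.natAdd n i, k)) = fun _ => 0 :=
        funext fun w => hex_z w i k
      rw [h4]
      exact IsPF.zero
  · intro z hz
    rw [mem_JetV] at hz
    obtain ⟨g1, g2, g3, g4⟩ := hz
    rw [mem_JetG]
    refine ⟨fun i => g1 _, fun j hj => ?_, ?_⟩
    · rw [← hPhi z g1 g2 j hj.le]
      exact g3 j hj
    · rw [← hPhi z g1 g2 N le_rfl]
      exact g4
  · intro w hw
    rw [mem_JetG] at hw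
    obtain ⟨g1, g2, g3⟩ := hw
    have o1 := Tm_zero Q hQ (ex0 w) (hex_o w g1)
    have hl' : ∀ i, ∀ j ≤ N, PowerSeries.coeff j (aeval (arc (Tm Q N (ex0 w))) (l i)) = 0 := by
      intro i j hj
      rw [coeff_Tm _ _ _ _ hj, jet_congr _ (hex_o w g1) (hQl i) j hj, aeval_X,
        coeff_arc _ _ _ (by omega), hex_z]
    have hxx : (fun r : Fin n × Fin (N + 1) => Tm Q N (ex0 w) (Fin.castAdd κ r.1, r.2)) = w := by
      funext r
      obtain ⟨i, k⟩ := r
      show PowerSeries.coeff (k : ℕ) (aeval (arc (ex0 w)) (Q (X (Fin.castAdd κ i)))) = w (i, k)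
      rw [jet_congr _ (hex_o w g1) (hQx i) k (by omega), aeval_X, coeff_arc _ _ _ k.2]
      exact hex_x w i k
    rw [mem_JetV]
    refine ⟨o1, hl', fun j hj => ?_, ?_⟩
    · rw [hPhi _ o1 hl' j hj.le, hxx]
      exact g2 j hj
    · rw [hPhi _ o1 hl' N le_rfl, hxx]
      exact g3
  · intro z hz
    rw [mem_JetV] at hz
    obtain ⟨g1, g2, g3, g4⟩ := hz
    obtain ⟨w0, hw0⟩ : ∃ w0 : Pt K (Fin n × Fin (N + 1)),
        w0 = fun r => z (Fin.castAdd κ r.1, r.2) := ⟨_, rfl⟩
    rw [← hw0]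
    have h3 : ex0 w0 = Tm (sigV l) N z := by
      have h5 : ∀ (i : Fin (n + κ)) (k : Fin (N + 1)),
          ex0 w0 (i, k) = Tm (sigV l) N z (i, k) := by
        intro i k
        refine Fin.addCases (fun i => ?_) (fun i => ?_) i
        · rw [hex_x, hw0]
          show _ = PowerSeries.coeff (k : ℕ) (aeval (arc z) (sigV l (X (Fin.castAdd κ i))))
          rw [sigV_x, aeval_X, coeff_arc _ _ _ k.2]
        · rw [hex_z]
          show _ = PowerSeries.coeff (k : ℕ) (aeval (arc z) (sigV l (X (Fin.natAdd n i))))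
          rw [sigV_z, g2 i k (by omega)]
      funext p
      exact h5 p.1 p.2
    show Tm Q N (ex0 w0) = z
    rw [h3]
    exact Tm_Tm' (sigV l) Q h2 z g1
  · intro w hw
    rw [mem_JetG] at hw
    funext r
    obtain ⟨i, k⟩ := r
    show PowerSeries.coeff (k : ℕ) (aeval (arc (ex0 w)) (Q (X (Fin.castAdd κ i)))) = w (i, k)
    rw [jet_congr _ (hex_o w hw.1) (hQx i) k (by omega), aeval_X, coeff_arc _ _ _ k.2]
    exact hex_x w i k

/-- **The coefficients of the local motivic zeta function of `Φ` on `V`.** -/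
theorem coeff_zetaV [CharZero K] {l : Fin κ → MvPolynomial (Fin (n + κ)) K}
    (hl : ∀ i, constantCoeff (l i) = 0) (hdet : (jacZ l).det ≠ 0)
    (Φ : MvPolynomial (Fin (n + κ)) K) (N : ℕ) (f : MvPolynomial (Fin n) K)
    (q : Fin κ → MvPolynomial (Fin (n + κ)) K)
    (hf : rename (Fin.castAdd κ) f + ∑ i, q i * l i - Φ ∈ mm K (n + κ) ^ (N + 1))
    (j : ℕ) (hj : j ≤ N) : PowerSeries.coeff j (zetaV n Φ l) = PowerSeries.coeff j (zeta f 0) := by
  obtain ⟨M₀, hM₀⟩ := Pool.Agent.W417.MT.K0.main K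
  rw [zeta_zetaG, map_sub, PowerSeries.coeff_C, zetaV, PowerSeries.coeff_mk]
  by_cases hj0 : j = 0
  · subst hj0
    rw [if_pos rfl, if_pos rfl, sub_self]
  · have h1 := chi_JetV M₀ hl hdet Φ j f q (mm_mono (by omega) hf)
    rw [if_neg hj0, if_neg hj0, sub_zero, zetaG, PowerSeries.coeff_mk, ← hM₀, ← hM₀, h1]

end graph

end Pool.Agent.J4.H70.CC
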